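import Mathlib
import Pool.Agent.TH118.SG.Full

/-!
# An orbit is not contained in a finite union of proper subspaces
-/

set_option linter.unusedSectionVars false

namespace Pool.Agent.TH118.OR

open Module Pool.Agent.W522.U

variable {K : Type} [Field K] {X : Type} [AddCommGroup X] [Module K X] [FiniteDimensional K X]
  {Γ : Type} [Group Γ] {R : Representation K Γ X}

theorem rmul (g h : Γ) (x : X) : R (g * h) x = R g (R h x) := by
  rw [map_mul]
  rfl

theorem rinv (g : Γ) (x : X) : R g (R g⁻¹ x) = x := by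
  rw [← rmul, mul_inv_cancel, map_one]
  rfl

theorem rinv' (g : Γ) (x : X) : R g⁻¹ (R g x) = x := by
  rw [← rmul, inv_mul_cancel, map_one]
  rfl

theorem map_rmul (g h : Γ) (W : Submodule K X) : W.map (R (g * h)) = (W.map (R h)).map (R g) := by
  rw [map_mul]
  exact Submodule.map_comp _ _ _

theorem finrank_map_r (g : Γ) (W : Submodule K X) : finrank K (W.map (R g)) = finrank K W := by
  refine LinearEquiv.finrank_eq (Submodule.equivMapOfInjective (R g) (fun x y h => ?_) W).symm
  rw [← rinv' (R := R) g x, h, rinv']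

/-- the stabilizer of a subspace -/
def stabW (R : Representation K Γ X) (W : Submodule K X) : Subgroup Γ where
  carrier := {g | W.map (R g) = W}
  one_mem' := by
    change W.map (R 1) = W
    rw [map_one]
    exact Submodule.map_id W
  mul_mem' := by
    intro a b ha hb
    change W.map (R (a * b)) = W
    rw [map_rmul, show W.map (R b) = W from hb]
    exact ha
  inv_mem' := by
    intro a ha
    change W.map (R a⁻¹) = W
    conv_lhs => rw [← show W.map (R a) = W from ha]
    rw [← map_rmul, inv_mul_cancel, map_one]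
    exact Submodule.map_id W

theorem mem_stabW {W : Submodule K X} {g : Γ} : g ∈ stabW R W ↔ W.map (R g) = W := Iff.rfl

/-- If the translates of `W` are in a finite set the stabilizer has finite index. -/
theorem stabW_finite {W : Submodule K X} (F : Finset (Submodule K X))
    (hF : ∀ g, W.map (R g) ∈ F) : (stabW R W).FiniteIndex := by
  have h1 : Finite (Γ ⧸ stabW R W) := by
    refine Finite.of_injective (fun q : Γ ⧸ stabW R W => (⟨W.map (R q.out), hF _⟩ : F)) ?_
    intro p q hpq
    have h2 : W.map (R p.out) = W.map (R q.out) := congrArg Subtype.val hpq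
    have h3 : p.out⁻¹ * q.out ∈ stabW R W := by
      rw [mem_stabW, map_rmul, ← h2, ← map_rmul, inv_mul_cancel, map_one]
      exact Submodule.map_id W
    have h4 := QuotientGroup.eq.2 h3
    rwa [QuotientGroup.out_eq', QuotientGroup.out_eq'] at h4
  exact Subgroup.finiteIndex_of_finite_quotient

/-- A subspace with finitely many translates is trivial. -/
theorem trivial_of_finite (hX : SI R (⊤ : Submodule K X)) {W : Submodule K X}
    (F : Finset (Submodule K X)) (hF : ∀ g, W.map (R g) ∈ F) : W = ⊥ ∨ W = ⊤ := by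
  refine hX.2.2 W le_top ⟨stabW R W, stabW_finite F hF, fun g hg u hu => ?_⟩
  have h1 : R g u ∈ W.map (R g) := Submodule.mem_map_of_mem hu
  rwa [mem_stabW.1 hg] at h1

/-- **The orbit of a vector is not contained in a finite union of proper subspaces.** -/
theorem orbit_cover (hX : SI R (⊤ : Submodule K X)) {e : X} (he : e ≠ 0)
    (F : Finset (Submodule K X)) (hF : ∀ W ∈ F, W ≠ ⊤) : ∃ g, ∀ W ∈ F, R g e ∉ W := by
  classical
  by_contra hcon
  push Not at hcon
  have hpos : 0 < finrank K X := finrank_pos_iff_exists_ne_zero.2 ⟨e, he⟩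
  let P : ℕ → Prop := fun d => ∃ F' : Finset (Submodule K X),
    (∀ g, ∃ W ∈ F', R g e ∈ W) ∧ ∀ W ∈ F', finrank K W ≤ d
  have hP0 : P (finrank K X - 1) := by
    refine ⟨F, hcon, fun W hW => ?_⟩
    have h1 := Submodule.finrank_lt (hF W hW)
    omega
  have hP : ∃ d, P d := ⟨_, hP0⟩
  set d := Nat.find hP with hd
  have hdlt : d < finrank K X := by
    have h1 := Nat.find_min' hP hP0
    omega
  let Q : ℕ → Prop := fun m => ∃ F' : Finset (Submodule K X),
    (∀ g, ∃ W ∈ F', R g e ∈ W) ∧ (∀ W ∈ F', finrank K W ≤ d) ∧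
      (F'.filter fun W : Submodule K X => finrank K W = d).card ≤ m
  have hQ : ∃ m, Q m := by
    obtain ⟨F', h1, h2⟩ := Nat.find_spec hP
    exact ⟨_, F', h1, h2, le_rfl⟩
  set m := Nat.find hQ with hm
  obtain ⟨F0, h1, h2, h3⟩ := Nat.find_spec hQ
  set Fd := F0.filter fun W : Submodule K X => finrank K W = d with hFd
  have hne : Fd.Nonempty := by
    rw [Finset.nonempty_iff_ne_empty]
    intro h4
    have h5 : ∀ W ∈ F0, finrank K W < d := by
      intro W hW
      refine lt_of_le_of_ne (h2 W hW) fun h6 => ?_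
      have h7 : W ∈ Fd := Finset.mem_filter.2 ⟨hW, h6⟩
      rw [h4] at h7
      exact absurd h7 (Finset.notMem_empty _)
    rcases Nat.eq_zero_or_pos d with h6 | h6
    · obtain ⟨W, hW, -⟩ := h1 1
      have h7 := h5 W hW
      omega
    · refine Nat.find_min hP (m := d - 1) (by omega) ⟨F0, h1, fun W hW => ?_⟩
      have h7 := h5 W hW
      omega
  have hstep : ∀ g, ∀ W ∈ Fd, ∃ W' ∈ Fd, W'.map (R g) = W := by
    intro g
    set F' := Finset.image₂ (fun W W' : Submodule K X => W ⊓ W'.map (R g)) F0 F0 with hF'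
    have hc : ∀ h, ∃ W ∈ F', R h e ∈ W := by
      intro h
      obtain ⟨W, hW, hW'⟩ := h1 h
      obtain ⟨V, hV, hV'⟩ := h1 (g⁻¹ * h)
      refine ⟨W ⊓ V.map (R g), Finset.mem_image₂_of_mem hW hV, hW', ?_⟩
      refine ⟨_, hV', ?_⟩
      rw [← rmul, mul_inv_cancel_left]
    have hdim : ∀ W ∈ F', finrank K W ≤ d := by
      intro W hW
      obtain ⟨V, hV, V', hV', rfl⟩ := Finset.mem_image₂.1 hW
      exact le_trans (Submodule.finrank_mono inf_le_left) (h2 V hV)
    have hm1 : m ≤ (F'.filter fun W : Submodule K X => finrank K W = d).card :=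
      Nat.find_min' hQ ⟨F', hc, hdim, le_rfl⟩
    have hsub : (F'.filter fun W : Submodule K X => finrank K W = d) ⊆
        Fd ∩ Fd.image (fun W : Submodule K X => W.map (R g)) := by
      intro W hW
      obtain ⟨h4, h5⟩ := Finset.mem_filter.1 hW
      obtain ⟨V, hV, V', hV', rfl⟩ := Finset.mem_image₂.1 h4
      have h6 : V ⊓ V'.map (R g) = V :=
        Submodule.eq_of_le_of_finrank_le inf_le_left (by rw [h5]; exact h2 V hV)
      have h7 : V ⊓ V'.map (R g) = V'.map (R g) :=
        Submodule.eq_of_le_of_finrank_le inf_le_right (by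
          rw [h5, finrank_map_r]; exact h2 V' hV')
      refine Finset.mem_inter.2 ⟨?_, ?_⟩
      · refine Finset.mem_filter.2 ⟨?_, h5⟩
        rw [h6]
        exact hV
      · refine Finset.mem_image.2 ⟨V', Finset.mem_filter.2 ⟨hV', ?_⟩, h7.symm⟩
        rw [← h5, h7, finrank_map_r]
    have h4 : Fd ∩ Fd.image (fun W : Submodule K X => W.map (R g)) = Fd := by
      refine Finset.eq_of_subset_of_card_le Finset.inter_subset_left ?_
      exact le_trans h3 (le_trans hm1 (Finset.card_le_card hsub))
    intro W hW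
    rw [← h4] at hW
    obtain ⟨W', hW', h5⟩ := Finset.mem_image.1 (Finset.mem_inter.1 hW).2
    exact ⟨W', hW', h5⟩
  obtain ⟨W, hW⟩ := hne
  have h4 : ∀ g, W.map (R g) ∈ Fd := by
    intro g
    obtain ⟨W', hW', h5⟩ := hstep g⁻¹ W hW
    rw [← h5, ← map_rmul, mul_inv_cancel, map_one]
    rw [show W'.map (1 : End K X) = W' from Submodule.map_id W']
    exact hW'
  have h5 : finrank K W = d := (Finset.mem_filter.1 hW).2
  rcases trivial_of_finite hX Fd h4 with h6 | h6
  · rw [h6, finrank_bot] at h5
    obtain ⟨V, hV, hV'⟩ := h1 1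
    have h7 := h2 V hV
    rw [← h5] at h7
    have h8 : V = ⊥ := Submodule.finrank_eq_zero.1 (Nat.le_zero.1 h7)
    rw [h8, Submodule.mem_bot, map_one] at hV'
    exact he hV'
  · rw [h6, finrank_top] at h5
    omega

end Pool.Agent.TH118.OR
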