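import Mathlib
import Pool.Agent.TH118.OR.Cover
import Pool.Agent.TH125.Gal.Final

/-!
# The orthogonal Lie algebra
-/

set_option linter.unusedSectionVars false

namespace Pool.Agent.TH118.OR

open Module Pool.Agent.W522.U Pool.Agent.TH125.Gal

variable {K : Type} [Field K] [CharZero K] {X : Type} [AddCommGroup X] [Module K X]
  [FiniteDimensional K X] {Γ : Type} [Group Γ] {R : Representation K Γ X} {χ : Γ →* K}
  {L : Submodule K (End K X)} {B : X →ₗ[K] X →ₗ[K] K}

theorem χne' (χ : Γ →* K) (g : Γ) : χ g ≠ 0 := by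
  intro h
  have h1 : χ g * χ g⁻¹ = 1 := by rw [← map_mul, mul_inv_cancel, map_one]
  rw [h, zero_mul] at h1
  exact zero_ne_one h1

theorem wg_zero_left (b : X) : wg B 0 b = 0 := by
  apply LinearMap.ext
  intro x
  simp [wg_apply]

theorem wg_zero_right (a : X) : wg B a 0 = 0 := by
  apply LinearMap.ext
  intro x
  simp [wg_apply]

theorem wg_conj' (hB : ∀ g u v, B (R g u) (R g v) = χ g * B u v) (g : Γ) (a b : X) :
    wg B (R g a) (R g b) = χ g • (R g * wg B a b * R g⁻¹) := by
  apply LinearMap.ext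
  intro x
  have h1 := hB g a (R g⁻¹ x)
  have h2 := hB g b (R g⁻¹ x)
  rw [rinv] at h1 h2
  rw [LinearMap.smul_apply, Module.End.mul_apply, Module.End.mul_apply, wg_apply, wg_apply, h1, h2,
    map_sub, map_smul, map_smul]
  module

section

variable (hbr : ∀ Y ∈ L, ∀ Z ∈ L, Y * Z - Z * Y ∈ L)
  (hsp : ∀ Y ∈ L, ∀ u w, B (Y u) w + B u (Y w) = 0)

include hbr hsp in
theorem wg_br {Y : End K X} (hY : Y ∈ L) {a b : X} (h : wg B a b ∈ L) :
    wg B (Y a) b + wg B a (Y b) ∈ L := by
  have h1 := hbr Y hY _ h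
  have h2 : Y * wg B a b - wg B a b * Y = wg B (Y a) b + wg B a (Y b) := wg_bracket (hsp Y hY) a b
  rwa [h2] at h1

variable (hsy : ∀ x y, B x y = B y x)

include hsp hsy in
theorem skew_self {Y : End K X} (hY : Y ∈ L) (u : X) : B u (Y u) = 0 := by
  have h1 := hsp Y hY u u
  rw [hsy (Y u) u, ← two_mul] at h1
  exact (mul_eq_zero.1 h1).resolve_left two_ne_zero

include hbr hsp hsy in
/-- the first step -/
theorem step1 {e p q : X} (he : B e e = 0) (hp : B e p = 0) (hq : B e q = 0) (hLp : wg B e p ∈ L)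
    (hLq : wg B e q ∈ L) (hpq : B p q ≠ 0) {Y : End K X} (hY : Y ∈ L) : wg B e (Y e) ∈ L := by
  have h1 := wg_br hbr hsp hY hLq
  have h2 := hbr _ hLp _ h1
  have hsk : Skew B (wg B e p) := hsp _ hLp
  have h3 : wg B e p * (wg B (Y e) q + wg B e (Y q)) - (wg B (Y e) q + wg B e (Y q)) * wg B e p =
      wg B (wg B e p (Y e)) q + wg B (Y e) (wg B e p q) +
        (wg B (wg B e p e) (Y q) + wg B e (wg B e p (Y q))) := by
    rw [← wg_bracket hsk, ← wg_bracket hsk, mul_add, add_mul]
    change wg B e p ∘ₗ _ + wg B e p ∘ₗ _ - (_ ∘ₗ wg B e p + _ ∘ₗ wg B e p) = _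
    abel
  rw [h3] at h2
  have e1 : wg B e p (Y e) = B p (Y e) • e := by
    rw [wg_apply, skew_self hsp hsy hY, zero_smul, sub_zero]
  have e2 : wg B e p q = B p q • e := by
    rw [wg_apply, hq, zero_smul, sub_zero]
  have e3 : wg B e p e = 0 := by
    rw [wg_apply, he, hsy p e, hp, zero_smul, zero_smul, sub_zero]
  have e4 : wg B e p (Y q) = B p (Y q) • e - B e (Y q) • p := wg_apply _ _ _
  have e5 : wg B e (wg B e p (Y q)) = - (B e (Y q) • wg B e p) := by
    rw [e4, sub_eq_add_neg, wg_add_right, wg_smul_right, wg_self, smul_zero, zero_add, ← neg_smul,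
      wg_smul_right, neg_smul]
  rw [e1, e2, e3, e5, wg_zero_left, zero_add, wg_smul_left, wg_smul_right] at h2
  have h4 : B p q • wg B (Y e) e ∈ L := by
    have h5 := Submodule.add_mem _ (Submodule.sub_mem _ h2 (Submodule.smul_mem _ (B p (Y e)) hLq))
      (Submodule.smul_mem _ (B e (Y q)) hLp)
    convert h5 using 1
    abel
  have h5 := Submodule.smul_mem _ (B p q)⁻¹ h4
  rw [smul_smul, inv_mul_cancel₀ hpq, one_smul] at h5
  rw [wg_neg_swap]
  exact Submodule.neg_mem _ h5

include hbr hsp in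
/-- the second step -/
theorem step2 {e h p : X} (hep : B e p = 0) (hph : B p h = 0)
    (hpp : B p p ≠ 0) (hLe : wg B e p ∈ L) (hLh : wg B h p ∈ L) : wg B h e ∈ L := by
  have h1 := wg_br hbr hsp hLe hLh
  have e1 : wg B e p h = - (B e h • p) := by
    rw [wg_apply, hph, zero_smul, zero_sub]
  have e2 : wg B e p p = B p p • e := by
    rw [wg_apply, hep, zero_smul, sub_zero]
  rw [e1, e2, ← neg_smul, wg_smul_left, wg_self, smul_zero, zero_add, wg_smul_right] at h1
  have h5 := Submodule.smul_mem _ (B p p)⁻¹ h1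
  rwa [smul_smul, inv_mul_cancel₀ hpp, one_smul] at h5

variable (hnd : ∀ u, (∀ v, B u v = 0) → u = 0)
  (hB : ∀ g u v, B (R g u) (R g v) = χ g * B u v)
  (hconj : ∀ g : Γ, ∀ Y ∈ L, R g * Y * R g⁻¹ ∈ L)
  (hX : SI R (⊤ : Submodule K X))

include hB hconj in
theorem wg_conj_mem (g : Γ) {a b : X} (h : wg B a b ∈ L) : wg B (R g a) (R g b) ∈ L := by
  rw [wg_conj' hB]
  exact Submodule.smul_mem _ _ (hconj g _ h)

include hbr hsp hsy hnd hB hconj hX in
/-- **If the Lie algebra contains `e ∧ p`, where `e` is isotropic and `p` is orthogonal to `e` and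
not isotropic, it is the orthogonal Lie algebra.** -/
theorem full_so {e p : X} (he0 : e ≠ 0) (he : B e e = 0) (hep : B e p = 0) (hpp : B p p ≠ 0)
    (hLp : wg B e p ∈ L) : ∀ x y, wg B x y ∈ L := by
  classical
  have hrf : ∀ g, R g e ≠ 0 := by
    intro g h
    apply he0
    rw [← rinv' (R := R) g e, h, map_zero]
  have hker : ∀ g, LinearMap.ker (B (R g e)) ≠ ⊤ := by
    intro g h
    refine hrf g (hnd _ fun v => ?_)
    have h1 : v ∈ LinearMap.ker (B (R g e)) := by rw [h]; exact Submodule.mem_top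
    exact h1
  -- the first claim
  have hA : ∀ (g : Γ) (Y : End K X), Y ∈ L → wg B (R g e) (Y (R g e)) ∈ L := by
    intro g Y hY
    refine step1 hbr hsp hsy (p := R g p) (q := R g p) ?_ ?_ ?_ ?_ ?_ ?_ hY
    · rw [hB, he, mul_zero]
    · rw [hB, hep, mul_zero]
    · rw [hB, hep, mul_zero]
    · exact wg_conj_mem hB hconj g hLp
    · exact wg_conj_mem hB hconj g hLp
    · rw [hB]
      exact mul_ne_zero (χne' χ g) hpp
  have hAe : ∀ Y ∈ L, wg B e (Y e) ∈ L := by
    intro Y hY
    have h1 := hA 1 Y hY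
    rwa [map_one, Module.End.one_apply] at h1
  obtain ⟨g0, hg0⟩ := orbit_cover hX he0 {LinearMap.ker (B e)} (by
    intro W hW
    rw [Finset.mem_singleton] at hW
    rw [hW]
    have h1 := hker 1
    rwa [map_one, Module.End.one_apply] at h1)
  have hef : B e (R g0 e) ≠ 0 := fun h => hg0 _ (Finset.mem_singleton_self _) h
  set f := R g0 e with hf
  have hff : B f f = 0 := by rw [hf, hB, he, mul_zero]
  have hfe : B f e ≠ 0 := by rw [hsy]; exact hef
  have hAf : ∀ Y ∈ L, wg B f (Y f) ∈ L := fun Y hY => hA g0 Y hY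
  -- the common part
  let C : Submodule K X :=
    { carrier := {q | B e q = 0 ∧ B f q = 0 ∧ wg B e q ∈ L}
      zero_mem' := by
        refine ⟨map_zero _, map_zero _, ?_⟩
        rw [wg_zero_right]
        exact Submodule.zero_mem _
      add_mem' := by
        rintro a b ⟨h1, h2, h3⟩ ⟨h1', h2', h3'⟩
        refine ⟨by rw [map_add, h1, h1', add_zero], by rw [map_add, h2, h2', add_zero], ?_⟩
        rw [wg_add_right]
        exact Submodule.add_mem _ h3 h3'
      smul_mem' := by
        rintro c a ⟨h1, h2, h3⟩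
        refine ⟨by rw [map_smul, h1, smul_zero], by rw [map_smul, h2, smul_zero], ?_⟩
        rw [wg_smul_right]
        exact Submodule.smul_mem _ _ h3 }
  have hC : ∀ q, q ∈ C ↔ B e q = 0 ∧ B f q = 0 ∧ wg B e q ∈ L := fun q => Iff.rfl
  have hC1 : ∀ q ∈ C, wg B f q ∈ L := by
    rintro q ⟨h1, h2, h3⟩
    have h4 := hAf _ h3
    rw [wg_apply, hsy q f, h2, zero_smul, zero_sub, ← neg_smul, wg_smul_right] at h4
    have h5 := Submodule.smul_mem _ (-B e f)⁻¹ h4
    rwa [smul_smul, inv_mul_cancel₀ (neg_ne_zero.2 hef), one_smul] at h5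
  have hC1' : ∀ q, B e q = 0 → B f q = 0 → wg B f q ∈ L → q ∈ C := by
    intro q h1 h2 h3
    refine ⟨h1, h2, ?_⟩
    have h4 := hAe _ h3
    rw [wg_apply, hsy q e, h1, zero_smul, zero_sub, ← neg_smul, wg_smul_right] at h4
    have h5 := Submodule.smul_mem _ (-B f e)⁻¹ h4
    rwa [smul_smul, inv_mul_cancel₀ (neg_ne_zero.2 hfe), one_smul] at h5
  -- projection to the common part
  have hprE : ∀ z, B e z = 0 → wg B e z ∈ L → z - (B z f / B e f) • e ∈ C := by
    intro z h1 h2
    refine ⟨by rw [map_sub, map_smul, he, smul_zero, h1, sub_zero], ?_, ?_⟩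
    · rw [map_sub, map_smul, smul_eq_mul, hsy f z, hsy f e]
      field_simp
      ring
    · rw [sub_eq_add_neg, wg_add_right, ← neg_smul, wg_smul_right, wg_self, smul_zero, add_zero]
      exact h2
  have hprF : ∀ z, B f z = 0 → wg B f z ∈ L → z - (B z e / B f e) • f ∈ C := by
    intro z h1 h2
    refine hC1' _ ?_ ?_ ?_
    · rw [map_sub, map_smul, smul_eq_mul, hsy e z, hsy e f]
      field_simp
      ring
    · rw [map_sub, map_smul, hff, smul_zero, h1, sub_zero]
    · rw [sub_eq_add_neg, wg_add_right, ← neg_smul, wg_smul_right, wg_self, smul_zero, add_zero]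
      exact h2
  obtain ⟨p0, hp0, hp00⟩ : ∃ p0 ∈ C, B p0 p0 ≠ 0 := by
    refine ⟨_, hprE p hep hLp, ?_⟩
    simp only [map_sub, map_smul, LinearMap.sub_apply, LinearMap.smul_apply, he, hep, hsy p e,
      smul_zero, sub_zero]
    exact hpp
  set T : Submodule K X := Submodule.span K {e, f} ⊔ C with hT
  have heT : e ∈ T := Submodule.mem_sup_left (Submodule.subset_span (by simp))
  have hfT : f ∈ T := Submodule.mem_sup_left (Submodule.subset_span (by simp))
  have hCT : ∀ q ∈ C, q ∈ T := fun q hq => Submodule.mem_sup_right hq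
  have hzE : ∀ z, B e z = 0 → wg B e z ∈ L → z ∈ T := by
    intro z h1 h2
    have h3 := Submodule.add_mem _ (hCT _ (hprE z h1 h2)) (Submodule.smul_mem _ (B z f / B e f) heT)
    rwa [sub_add_cancel] at h3
  have hzF : ∀ z, B f z = 0 → wg B f z ∈ L → z ∈ T := by
    intro z h1 h2
    have h3 := Submodule.add_mem _ (hCT _ (hprF z h1 h2)) (Submodule.smul_mem _ (B z e / B f e) hfT)
    rwa [sub_add_cancel] at h3
  have hcl : ∀ (c : K) (h w : X), c ≠ 0 → w ∈ T → c • h - w ∈ T → h ∈ T := by
    intro c h w hc hw h1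
    have h2 := Submodule.smul_mem _ c⁻¹ (Submodule.add_mem _ h1 hw)
    rwa [sub_add_cancel, smul_smul, inv_mul_cancel₀ hc, one_smul] at h2
  -- the third claim
  have hC3 : ∀ g : Γ, B e (R g e) ≠ 0 → B f (R g e) ≠ 0 → R g e ∈ T := by
    intro g heh hfh
    set h := R g e with hh
    have hAh : ∀ Y ∈ L, wg B h (Y h) ∈ L := fun Y hY => hA g Y hY
    by_cases hcase : ∃ q ∈ C, B q h ≠ 0
    · obtain ⟨q, hq, hqh⟩ := hcase
      have h1 := hAh _ ((hC q).1 hq).2.2
      have h2 := hAh _ (hC1 q hq)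
      rw [wg_apply] at h1 h2
      have h3 : wg B h (B f h • e - B e h • f) ∈ L := by
        have h4 := Submodule.sub_mem _ (Submodule.smul_mem _ (B f h) h1)
          (Submodule.smul_mem _ (B e h) h2)
        rw [← wg_smul_right, ← wg_smul_right, sub_eq_add_neg, ← neg_one_smul K,
          ← wg_smul_right, ← wg_add_right] at h4
        have h6 : B f h • (B q h • e - B e h • q) + (-1 : K) • B e h • (B q h • f - B f h • q) =
            B q h • (B f h • e - B e h • f) := by module
        rw [h6, wg_smul_right] at h4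
        have h5 := Submodule.smul_mem _ (B q h)⁻¹ h4
        rwa [smul_smul, inv_mul_cancel₀ hqh, one_smul] at h5
      set v := B f h • e - B e h • f with hv
      have hvT : v ∈ T := Submodule.sub_mem _ (Submodule.smul_mem _ _ heT)
        (Submodule.smul_mem _ _ hfT)
      have h4 := hAe _ h3
      have h5 := hzE _ (skew_self hsp hsy h3 e) h4
      rw [wg_apply] at h5
      refine hcl _ h _ ?_ (Submodule.smul_mem _ (B h e) hvT) h5
      rw [hv, map_sub, map_smul, map_smul, LinearMap.sub_apply, LinearMap.smul_apply,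
        LinearMap.smul_apply, he, smul_zero, zero_sub, smul_eq_mul]
      exact neg_ne_zero.2 (mul_ne_zero heh hfe)
    · push Not at hcase
      have h1 := hAh _ ((hC p0).1 hp0).2.2
      rw [wg_apply, hcase p0 hp0, zero_smul, zero_sub, ← neg_smul, wg_smul_right] at h1
      have h2 := Submodule.smul_mem _ (-B e h)⁻¹ h1
      rw [smul_smul, inv_mul_cancel₀ (neg_ne_zero.2 heh), one_smul] at h2
      have h3 := step2 hbr hsp ((hC p0).1 hp0).1 (hcase p0 hp0) hp00 ((hC p0).1 hp0).2.2 h2
      have h4 := hAf _ h3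
      have h5 := hzF _ (skew_self hsp hsy h3 f) h4
      rw [wg_apply] at h5
      exact hcl _ h _ hef (Submodule.smul_mem _ (B h f) heT) h5
  have hTtop : T = ⊤ := by
    by_contra hne
    obtain ⟨g, hg⟩ := orbit_cover hX he0 {LinearMap.ker (B e), LinearMap.ker (B f), T} (by
      intro W hW
      rw [Finset.mem_insert, Finset.mem_insert, Finset.mem_singleton] at hW
      rcases hW with rfl | rfl | rfl
      · have h1 := hker 1
        rwa [map_one, Module.End.one_apply] at h1
      · exact hker g0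
      · exact hne)
    exact hg T (by simp) (hC3 g (fun h => hg (LinearMap.ker (B e)) (by simp) h)
      fun h => hg (LinearMap.ker (B f)) (by simp) h)
  have hD : ∀ q, B e q = 0 → wg B e q ∈ L := by
    intro q hq
    have h1 : q ∈ T := by rw [hTtop]; exact Submodule.mem_top
    obtain ⟨s, hs, c, hc, rfl⟩ := Submodule.mem_sup.1 h1
    obtain ⟨a, b, rfl⟩ := Submodule.mem_span_pair.1 hs
    obtain ⟨h2, h3, h4⟩ := (hC c).1 hc
    rw [map_add, map_add, map_smul, map_smul, he, smul_zero, zero_add, h2, add_zero,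
      smul_eq_mul] at hq
    have hb : b = 0 := (mul_eq_zero.1 hq).resolve_right hef
    rw [hb, zero_smul, add_zero, wg_add_right, wg_smul_right, wg_self, smul_zero, zero_add]
    exact h4
  have hEf : wg B e f ∈ L := by
    have h1 := step2 hbr hsp ((hC p0).1 hp0).1 (by rw [hsy]; exact ((hC p0).1 hp0).2.1) hp00
      ((hC p0).1 hp0).2.2 (hC1 p0 hp0)
    rw [wg_neg_swap]
    exact Submodule.neg_mem _ h1
  have hE : ∀ y, wg B e y ∈ L := by
    intro y
    have h1 : y = (y - (B e y / B e f) • f) + (B e y / B e f) • f := (sub_add_cancel _ _).symm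
    rw [h1, wg_add_right, wg_smul_right]
    refine Submodule.add_mem _ (hD _ ?_) (Submodule.smul_mem _ _ hEf)
    rw [map_sub, map_smul, smul_eq_mul, div_mul_cancel₀ _ hef, sub_self]
  let S : Submodule K X :=
    { carrier := {x | ∀ y, wg B x y ∈ L}
      zero_mem' := fun y => by rw [wg_zero_left]; exact Submodule.zero_mem _
      add_mem' := fun {a b} ha hb y => by rw [wg_add_left]; exact Submodule.add_mem _ (ha y) (hb y)
      smul_mem' := fun c a ha y => by rw [wg_smul_left]; exact Submodule.smul_mem _ _ (ha y) }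
  have hS : S = ⊥ ∨ S = ⊤ := by
    refine hX.2.2 S le_top ⟨⊤, inferInstance, fun g _ x hx y => ?_⟩
    have h1 := wg_conj_mem hB hconj g (hx (R g⁻¹ y))
    rwa [rinv] at h1
  rcases hS with h | h
  · exfalso
    have h1 : e ∈ S := hE
    rw [h, Submodule.mem_bot] at h1
    exact he0 h1
  · intro x y
    have h1 : x ∈ S := by rw [h]; exact Submodule.mem_top
    exact h1 y

end

end Pool.Agent.TH118.OR
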