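import Mathlib
import Pool.Agent.TH118.OR.Full
import Pool.Agent.TH118.ZC.Uni

/-!
# Unipotent elements with one Jordan block of size three
-/

set_option linter.unusedSectionVars false

namespace Pool.Agent.TH118.OR

open Module Finset Function Pool.Agent.TH125.Gal Pool.Agent.TH118.SG Pool.Agent.TH118.ZC

section full

open Pool.Agent.W522.U

variable {K : Type} [Field K] [CharZero K] {X : Type} [AddCommGroup X] [Module K X]
  [FiniteDimensional K X] {Γ : Type} [Group Γ] {R : Representation K Γ X} {χ : Γ →* K}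
  {L : Submodule K (End K X)} {B : X →ₗ[K] X →ₗ[K] K}
  (hbr : ∀ Y ∈ L, ∀ Z ∈ L, Y * Z - Z * Y ∈ L)
  (hsp : ∀ Y ∈ L, ∀ u w, B (Y u) w + B u (Y w) = 0) (hsy : ∀ x y, B x y = B y x)
  (hnd : ∀ u, (∀ v, B u v = 0) → u = 0)
  (hB : ∀ g u v, B (R g u) (R g v) = χ g * B u v)
  (hconj : ∀ g : Γ, ∀ Y ∈ L, R g * Y * R g⁻¹ ∈ L)
  (hX : SI R (⊤ : Submodule K X))

include hbr hsp hsy hnd hB hconj hX in
/-- **A nilpotent element of rank two whose square is not zero generates the orthogonal Lie
algebra.** -/
theorem nilp_full {N : End K X} (hN : N ∈ L) (hN3 : ∀ x, N (N (N x)) = 0)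
    (hN2 : ∃ x, N (N x) ≠ 0) (hrk : finrank K (LinearMap.range N) ≤ 2) : ∀ x y, wg B x y ∈ L := by
  obtain ⟨x0, hx0⟩ := hN2
  set e := N (N x0) with he
  set p := N x0 with hp
  have hsk := hsp N hN
  have hNe : N e = 0 := hN3 x0
  have hee : B e e = 0 := by
    have h1 := hsk p e
    rw [hNe, map_zero, add_zero] at h1
    exact h1
  have hep : B e p = 0 := by
    have h1 := skew_self hsp hsy hN p
    rw [hsy]
    exact h1
  have hrange : ∀ z, ∃ a b : K, N z = a • e + b • p := by
    have hli : LinearIndependent K ![e, p] := by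
      rw [LinearIndependent.pair_iff]
      intro s t hst
      have h1 := congrArg N hst
      rw [map_add, map_smul, map_smul, hNe, smul_zero, zero_add, map_zero] at h1
      have ht : t = 0 := (smul_eq_zero.1 h1).resolve_right hx0
      rw [ht, zero_smul, add_zero] at hst
      exact ⟨(smul_eq_zero.1 hst).resolve_right hx0, ht⟩
    have h1 : Submodule.span K {e, p} = LinearMap.range N := by
      refine Submodule.eq_of_le_of_finrank_le ?_ ?_
      · rw [Submodule.span_le]
        rintro _ (rfl | rfl)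
        · exact ⟨p, rfl⟩
        · exact ⟨x0, rfl⟩
      · have h2 := finrank_span_eq_card hli
        rw [Fintype.card_fin, Matrix.range_cons, Matrix.range_cons, Matrix.range_empty,
          Set.union_empty, Set.singleton_union] at h2
        rw [h2]
        exact hrk
    intro z
    have h2 : N z ∈ Submodule.span K {e, p} := by
      rw [h1]
      exact ⟨z, rfl⟩
    obtain ⟨a, b, h3⟩ := Submodule.mem_span_pair.1 h2
    exact ⟨a, b, h3.symm⟩
  have hpp : B p p ≠ 0 := by
    intro h0
    apply hx0
    refine hnd _ fun z => ?_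
    obtain ⟨a, b, h1⟩ := hrange z
    have h2 := hsk p z
    rw [h1, map_add, map_smul, map_smul, h0, hsy p e, hep, smul_zero, smul_zero, add_zero,
      add_zero] at h2
    exact h2
  have hx0e : B x0 e = - B p p := by
    have h1 := hsk x0 p
    exact eq_neg_of_add_eq_zero_right h1
  have hx0p : B x0 p = 0 := skew_self hsp hsy hN x0
  have hwg : wg B e p = B p p • N := by
    apply LinearMap.ext
    intro z
    obtain ⟨a, b, h1⟩ := hrange z
    have h2 := hsk p z
    have h3 := hsk x0 z
    rw [h1, map_add, map_smul, map_smul, hsy p e, hep, smul_zero, zero_add, smul_eq_mul] at h2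
    rw [h1, map_add, map_smul, map_smul, hx0e, hx0p, smul_zero, add_zero, smul_eq_mul] at h3
    rw [LinearMap.smul_apply, wg_apply, h1]
    have h4 : B e z = -(b * B p p) := by
      have h5 : B (N p) z = B e z := rfl
      rw [← h5]
      exact eq_neg_of_add_eq_zero_left h2
    have h5 : B p z = a * B p p := by
      have h6 : B (N x0) z = B p z := rfl
      rw [← h6]
      have h7 := eq_neg_of_add_eq_zero_left h3
      rw [h7]
      ring
    rw [h4, h5]
    module
  refine full_so hbr hsp hsy hnd hB hconj hX hx0 hee hep hpp ?_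
  rw [hwg]
  exact Submodule.smul_mem _ _ hN

end full

section unip

variable {K : Type} [Field K] [CharZero K] [IsAlgClosed K] {T : Type} [AddCommGroup T]
  [Module K T] [FiniteDimensional K T] {E : Type} [AddCommGroup E] [Module K E]
  [FiniteDimensional K E] {G : Type} [Group G]
  {B : T →ₗ[K] T →ₗ[K] K} {ρ : G →* (T →ₗ[K] T)} {σ : G →* (E →ₗ[K] E)} {χ : G →* K}

/-- powers of a unipotent element -/
theorem pow_three {γ : G} {Z : End K T} (hg : ∀ x, ρ γ x = x + Z x)
    (hZ : ∀ x, Z (Z (Z x)) = 0) (n : ℕ) (x : T) :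
    ρ (γ ^ n) x = x + (n : K) • (Z x - (2 : K)⁻¹ • Z (Z x)) +
      (n : K) ^ 2 • ((2 : K)⁻¹ • Z (Z x)) := by
  have h2 : (2 : K) ≠ 0 := two_ne_zero
  induction n generalizing x with
  | zero =>
    rw [pow_zero, map_one]
    simp
  | succ n ih =>
    rw [pow_succ, map_mul, Module.End.mul_apply, hg, ih]
    simp only [map_add, hZ, add_zero]
    push_cast
    match_scalars
    · ring
    · ring
    · field_simp
      ring

/-- **The logarithm of a unipotent element.** -/
theorem unip_L0 {γ : G} {Z : End K T} (hg : ∀ x, ρ γ x = x + Z x) (hZ : ∀ x, Z (Z (Z x)) = 0)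
    (hB : ∀ x y, B (ρ γ x) (ρ γ y) = B x y) {m : ℕ} (hσ : (σ γ - 1) ^ m = 0) :
    Z - (2 : K)⁻¹ • (Z * Z) ∈ L0 B ρ σ := by
  have h0 : ∀ x y, B (Z x) y + B x (Z y) + B (Z x) (Z y) = 0 := by
    intro x y
    have h1 := hB x y
    rw [hg, hg] at h1
    simp only [map_add, LinearMap.add_apply] at h1
    linear_combination h1
  have h1 : ∀ x y, B (Z (Z x)) (Z y) = 0 := by
    intro x y
    have h1 := h0 (Z (Z x)) y
    rwa [hZ, map_zero, LinearMap.zero_apply, LinearMap.zero_apply, zero_add, add_zero] at h1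
  have h2 : ∀ x y, B (Z x) (Z y) = -B (Z (Z x)) y := by
    intro x y
    have h3 := h0 (Z x) y
    rw [h1, add_zero] at h3
    exact eq_neg_of_add_eq_zero_right h3
  have h3 : ∀ x y, B x (Z y) = -B (Z x) y + B (Z (Z x)) y := by
    intro x y
    have h4 := h0 x y
    rw [h2] at h4
    linear_combination h4
  have hskew : ∀ x y, B ((Z - (2 : K)⁻¹ • (Z * Z)) x) y + B x ((Z - (2 : K)⁻¹ • (Z * Z)) y) = 0 := by
    intro x y
    simp only [LinearMap.sub_apply, LinearMap.smul_apply, Module.End.mul_apply, map_sub, map_smul,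
      smul_eq_mul]
    have h4 := h3 x y
    have h5 := h3 x (Z y)
    have h6 := h2 x y
    have h7 := h1 x y
    linear_combination h4 - (2 : K)⁻¹ * h5 + (2 : K)⁻¹ * h6 - (2 : K)⁻¹ * h7
  refine mem_L0.2 ⟨∑ k ∈ range m, (bin K k).coeff 1 • (σ γ - 1) ^ k,
    mem_PA.2 fun d => mem_PP.2 ⟨fun x y => ?_, fun h hh v => ?_⟩⟩
  · rw [zero_mul]
    exact hskew x y
  · obtain ⟨Δ, hΔ, h1⟩ := hh
    obtain ⟨n, hn, hgn⟩ := exists_pow hΔ γ
    rw [← sub_eq_zero, ← Module.forall_dual_apply_eq_zero_iff K]
    intro φ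
    let q : Polynomial K := ∑ k ∈ range m, Polynomial.C (φ (((σ γ - 1) ^ k) (h v))) * bin K k
    have hpq : pol h φ v (fun j => Z (v j) - (2 : K)⁻¹ • Z (Z (v j)))
        (fun j => (2 : K)⁻¹ • Z (Z (v j))) = q := by
      refine Polynomial.eq_of_infinite_eval_eq _ _ ?_
      refine Set.infinite_of_injective_forall_mem (f := fun l : ℕ => ((n * l : ℕ) : K)) ?_ ?_
      · intro l l' hl
        have h3 : ((n * l : ℕ) : K) = ((n * l' : ℕ) : K) := hl
        have h4 : n * l = n * l' := Nat.cast_injective h3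
        exact Nat.eq_of_mul_eq_mul_left hn h4
      · intro l
        have h3 : γ ^ (n * l) ∈ Δ := by
          rw [pow_mul]
          exact Subgroup.pow_mem _ hgn l
        have h4 := h1 _ h3 v
        have h5 : (fun j => ρ (γ ^ (n * l)) (v j)) =
            fun j => v j + ((n * l : ℕ) : K) • (Z (v j) - (2 : K)⁻¹ • Z (Z (v j))) +
              ((n * l : ℕ) : K) ^ 2 • ((2 : K)⁻¹ • Z (Z (v j))) := by
          funext j
          rw [pow_three hg hZ]
        rw [h5, map_pow, pow_bin hσ, LinearMap.sum_apply] at h4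
        rw [Set.mem_ofPred_eq, pol_eval]
        rw [h4, map_sum, Polynomial.eval_finsetSum]
        refine Finset.sum_congr rfl fun k _ => ?_
        rw [Polynomial.eval_mul, Polynomial.eval_C, bin_eval, LinearMap.smul_apply, map_smul,
          smul_eq_mul, mul_comm]
    have h6 := pol_coeff h φ v (fun j => Z (v j) - (2 : K)⁻¹ • Z (Z (v j)))
      (fun j => (2 : K)⁻¹ • Z (Z (v j)))
    rw [hpq, Polynomial.finsetSum_coeff] at h6
    have h7 : ∀ j, (Z - (2 : K)⁻¹ • (Z * Z)) (v j) = Z (v j) - (2 : K)⁻¹ • Z (Z (v j)) :=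
      fun _ => rfl
    simp only [h7]
    rw [map_sub, ← h6, LinearMap.sum_apply, map_sum, sub_eq_zero]
    refine Finset.sum_congr rfl fun k _ => ?_
    rw [Polynomial.coeff_C_mul, LinearMap.smul_apply, map_smul, smul_eq_mul, mul_comm]

end unip

section nilp

variable {K : Type} [Field K] {T : Type} [AddCommGroup T]
  [Module K T] {G : Type} [Group G] (ρ : G →* (T →ₗ[K] T)) {ι : Type}
  (b : Basis ι K T) (Z : End K T)

/-- The functions given by vectors with total depth at most `p`. -/
def FilN (D p : ℕ) : Submodule K (G → K) :=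
  Submodule.span K {φ | ∃ d ≤ D, ∃ (r : Fin d → ι) (v : Fin d → T) (a : Fin d → ℕ),
    (∀ j, (Z ^ (a j)) (v j) = 0) ∧ ∑ j, a j ≤ p ∧ φ = coefm ρ b r v}

variable {ρ b Z}

theorem filN_exp {γ : G} (hg : ∀ x, ρ γ x = x + Z x) {d : ℕ} (r : Fin d → ι) (v : Fin d → T) :
    LinearMap.funLeft K K (fun g : G => g * γ) (coefm ρ b r v) - coefm ρ b r v =
      ∑ s ∈ (univ : Finset (Finset (Fin d))).erase univ,
        coefm ρ b r (s.piecewise v fun j => Z (v j)) := by
  classical
  have h1 : LinearMap.funLeft K K (fun g : G => g * γ) (coefm ρ b r v) =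
      ∑ s : Finset (Fin d), coefm ρ b r (s.piecewise v fun j => Z (v j)) := by
    rw [right_coefm, ← MultilinearMap.map_add_univ]
    congr 1
    funext j
    exact hg (v j)
  rw [h1, ← Finset.add_sum_erase _ _ (Finset.mem_univ (univ : Finset (Fin d))),
    Finset.piecewise_univ, add_sub_cancel_left]

theorem filN_zero {γ : G} (hg : ∀ x, ρ γ x = x + Z x) {D : ℕ} {φ : G → K}
    (hφ : φ ∈ FilN ρ b Z D 0) : LinearMap.funLeft K K (fun g : G => g * γ) φ - φ = 0 := by
  classical
  rw [FilN] at hφ
  induction hφ using Submodule.span_induction with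
  | mem φ hφ =>
    obtain ⟨d, hd, r, v, a, ha, hs, rfl⟩ := hφ
    rw [filN_exp hg]
    refine Finset.sum_eq_zero fun s hs' => ?_
    have hs1 : s ≠ univ := Finset.ne_of_mem_erase hs'
    obtain ⟨j, hj⟩ : ∃ j, j ∉ s := by
      by_contra hcon
      push Not at hcon
      exact hs1 (Finset.eq_univ_iff_forall.2 hcon)
    refine (coefm ρ b r).map_coord_zero j ?_
    have h1 : a j = 0 := by
      have h2 := Finset.single_le_sum (f := a) (fun _ _ => Nat.zero_le _) (Finset.mem_univ j)
      omega
    have h2 := ha j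
    rw [h1, pow_zero, Module.End.one_apply] at h2
    rw [Finset.piecewise_eq_of_notMem _ _ _ hj, h2, map_zero]
  | zero => rw [map_zero, sub_zero]
  | add φ φ' _ _ h h' =>
    rw [map_add, add_sub_add_comm, h, h', add_zero]
  | smul c φ _ h =>
    rw [map_smul, ← smul_sub, h, smul_zero]

theorem filN_step {γ : G} (hg : ∀ x, ρ γ x = x + Z x) {D p : ℕ} {φ : G → K}
    (hφ : φ ∈ FilN ρ b Z D (p + 1)) :
    LinearMap.funLeft K K (fun g : G => g * γ) φ - φ ∈ FilN ρ b Z D p := by
  classical
  rw [FilN] at hφ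
  induction hφ using Submodule.span_induction with
  | mem φ hφ =>
    obtain ⟨d, hd, r, v, a, ha, hs, rfl⟩ := hφ
    rw [filN_exp hg]
    refine Submodule.sum_mem _ fun s hs' => ?_
    have hs1 : s ≠ univ := Finset.ne_of_mem_erase hs'
    obtain ⟨j, hj⟩ : ∃ j, j ∉ s := by
      by_contra hcon
      push Not at hcon
      exact hs1 (Finset.eq_univ_iff_forall.2 hcon)
    by_cases h0 : a j = 0
    · have h2 := ha j
      rw [h0, pow_zero, Module.End.one_apply] at h2
      rw [(coefm ρ b r).map_coord_zero j (by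
        rw [Finset.piecewise_eq_of_notMem _ _ _ hj, h2, map_zero])]
      exact Submodule.zero_mem _
    · refine Submodule.subset_span ⟨d, hd, r, _, s.piecewise a fun j => a j - 1, fun i => ?_, ?_,
        rfl⟩
      · by_cases hi : i ∈ s
        · rw [Finset.piecewise_eq_of_mem _ _ _ hi, Finset.piecewise_eq_of_mem _ _ _ hi]
          exact ha i
        · rw [Finset.piecewise_eq_of_notMem _ _ _ hi, Finset.piecewise_eq_of_notMem _ _ _ hi]
          have h2 := ha i
          rcases Nat.eq_zero_or_pos (a i) with h3 | h3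
          · rw [h3, pow_zero, Module.End.one_apply] at h2
            rw [h2, map_zero, map_zero]
          · obtain ⟨c, hc⟩ := Nat.exists_eq_succ_of_ne_zero h3.ne'
            rw [hc, Nat.succ_sub_one]
            rw [hc, pow_succ, Module.End.mul_apply] at h2
            exact h2
      · have h2 : ∑ i, (s.piecewise a fun j => a j - 1) i < ∑ i, a i := by
          refine Finset.sum_lt_sum (fun i _ => ?_) ⟨j, Finset.mem_univ _, ?_⟩
          · by_cases hi : i ∈ s
            · rw [Finset.piecewise_eq_of_mem _ _ _ hi]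
            · rw [Finset.piecewise_eq_of_notMem _ _ _ hi]
              exact Nat.sub_le _ _
          · rw [Finset.piecewise_eq_of_notMem _ _ _ hj]
            omega
        omega
  | zero => rw [map_zero, sub_zero]; exact Submodule.zero_mem _
  | add φ φ' _ _ h h' =>
    rw [map_add, add_sub_add_comm]
    exact Submodule.add_mem _ h h'
  | smul c φ _ h =>
    rw [map_smul, ← smul_sub]
    exact Submodule.smul_mem _ _ h

/-- **The action on the functions is unipotent.** -/
theorem sig_unip {γ : G} (hg : ∀ x, ρ γ x = x + Z x) {m : ℕ} (hZ : Z ^ m = 0) (D : ℕ) :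
    (sig ρ b D γ - 1) ^ (D * m + 1) = 0 := by
  classical
  have h1 : ∀ (q p : ℕ) (φ : ED ρ b D), q + p = D * m →
      (((sig ρ b D γ - 1) ^ q) φ : G → K) ∈ FilN ρ b Z D p := by
    intro q
    induction q with
    | zero =>
      intro p φ hp
      rw [pow_zero, Module.End.one_apply]
      rw [zero_add] at hp
      have h2 : ED ρ b D ≤ FilN ρ b Z D p := by
        rw [ED, Submodule.span_le]
        rintro _ ⟨d, hd, r, v, rfl⟩
        refine Submodule.subset_span ⟨d, hd, r, v, fun _ => m, fun j => ?_, ?_, rfl⟩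
        · rw [hZ, LinearMap.zero_apply]
        · rw [Finset.sum_const, Finset.card_univ, Fintype.card_fin, smul_eq_mul, hp]
          exact Nat.mul_le_mul_right _ hd
      exact h2 φ.2
    | succ q ih =>
      intro p φ hp
      rw [pow_succ', Module.End.mul_apply, LinearMap.sub_apply, Module.End.one_apply,
        Submodule.coe_sub]
      exact filN_step hg (ih (p + 1) φ (by omega))
  apply LinearMap.ext
  intro φ
  apply Subtype.ext
  rw [pow_succ', Module.End.mul_apply, LinearMap.sub_apply, Module.End.one_apply,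
    Submodule.coe_sub]
  exact filN_zero hg (h1 (D * m) 0 φ (add_zero _))

end nilp

end Pool.Agent.TH118.OR
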