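import Mathlib
import Pool.Agent.TH118.OR.Unip
import Pool.Agent.TH118.ZC.Main

/-!
# One-dimensional tori in the Zariski closure
-/

set_option linter.unusedSectionVars false

namespace Pool.Agent.TH118.OR

open Module Finset Function Pool.Agent.TH125.Gal Pool.Agent.TH118.SG Pool.Agent.TH118.ZC

section aev

variable {K : Type} [Field K] {E : Type} [AddCommGroup E] [Module K E]

theorem aeval_eig {Y : End K E} {x : E} {μ : K} (hx : Y x = μ • x) (q : Polynomial K) :
    Polynomial.aeval Y q x = q.eval μ • x := by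
  have h1 : ∀ n : ℕ, (Y ^ n) x = μ ^ n • x := by
    intro n
    induction n with
    | zero => simp
    | succ n ih => rw [pow_succ, Module.End.mul_apply, hx, map_smul, ih, smul_smul, pow_succ,
        mul_comm]
  induction q using Polynomial.induction_on' with
  | add p q hp hq => rw [map_add, LinearMap.add_apply, hp, hq, Polynomial.eval_add, add_smul]
  | monomial n c =>
    rw [Polynomial.aeval_monomial, Module.End.mul_apply, h1, Module.algebraMap_end_apply, smul_smul,
      Polynomial.eval_monomial]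

end aev

section torus

variable {K : Type} [Field K] [CharZero K] {T : Type} [AddCommGroup T] [Module K T]
  {E : Type} [AddCommGroup E] [Module K E] {B : T →ₗ[K] T →ₗ[K] K} {e f : T}

/-- The three components. -/
def Pc (B : T →ₗ[K] T →ₗ[K] K) (e f : T) : Fin 3 → End K T :=
  ![1 - rk B f e - rk B e f, rk B f e, rk B e f]

/-- the weights -/
def wt : Fin 3 → ℤ := ![0, 1, -1]

theorem Pc0 : Pc B e f 0 = 1 - rk B f e - rk B e f := rfl

theorem Pc1 : Pc B e f 1 = rk B f e := rfl

theorem Pc2 : Pc B e f 2 = rk B e f := rfl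

theorem wt0 : wt 0 = 0 := rfl

theorem wt1 : wt 1 = 1 := rfl

theorem wt2 : wt 2 = -1 := rfl

/-- The element of the torus. -/
def tor (B : T →ₗ[K] T →ₗ[K] K) (e f : T) (t : K) : End K T :=
  ∑ i : Fin 3, (t ^ (wt i)) • Pc B e f i

theorem tor_apply (t : K) (x : T) : tor B e f t x =
    x + ((t - 1) * B f x) • e + ((t⁻¹ - 1) * B e x) • f := by
  rw [tor, Fin.sum_univ_three, Pc0, Pc1, Pc2, wt0, wt1, wt2, zpow_zero, zpow_one, zpow_neg,
    zpow_one]
  simp only [LinearMap.add_apply, LinearMap.smul_apply, LinearMap.sub_apply, rk_apply,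
    Module.End.one_apply]
  module

theorem sum_Pc (x : T) : ∑ i : Fin 3, Pc B e f i x = x := by
  rw [Fin.sum_univ_three, Pc0, Pc1, Pc2]
  simp only [LinearMap.sub_apply, rk_apply, Module.End.one_apply]
  abel

theorem wg_Pc (he : B e e = 0) (hf : B f f = 0) (hef : B e f = 1) (hfe : B f e = 1) (i : Fin 3)
    (x : T) : wg B e f (Pc B e f i x) = (wt i : K) • Pc B e f i x := by
  fin_cases i
  · simp [Pc, wt, wg_apply, he, hf, hef, hfe]
  · simp [Pc, wt, wg_apply, he, hfe]
  · simp [Pc, wt, wg_apply, hf, hef]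

/-- **The action of the torus on the values of an equivariant map.** -/
theorem tor_eq (he : B e e = 0) (hf : B f f = 0) (hef : B e f = 1) (hfe : B f e = 1) {d : ℕ}
    (h : MultilinearMap K (fun _ : Fin d => T) E) {Y' : End K E}
    (hY : ∀ v, ∑ j, h (update v j (wg B e f (v j))) = Y' (h v)) {t : K} (ht : t ≠ 0)
    {q : Polynomial K} {D : ℕ} (hd : d ≤ D)
    (hq : ∀ n : ℤ, -(D : ℤ) ≤ n → n ≤ D → q.eval (n : K) = t ^ n) (v : Fin d → T) :
    h (fun j => tor B e f t (v j)) = Polynomial.aeval Y' q (h v) := by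
  have h1 : h v = ∑ r : Fin d → Fin 3, h fun j => Pc B e f (r j) (v j) := by
    have h3 := h.map_sum (fun j (i : Fin 3) => Pc B e f i (v j))
    rw [← h3]
    congr 1
    funext j
    exact (sum_Pc (v j)).symm
  have h2 : h (fun j => tor B e f t (v j)) = ∑ r : Fin d → Fin 3,
      (∏ j, t ^ wt (r j)) • h fun j => Pc B e f (r j) (v j) := by
    have h3 : (fun j => tor B e f t (v j)) =
        fun j => ∑ i : Fin 3, (t ^ wt i) • Pc B e f i (v j) := by
      funext j
      rw [tor, LinearMap.sum_apply]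
      rfl
    have h5 := h.map_sum (fun j (i : Fin 3) => (t ^ wt i) • Pc B e f i (v j))
    rw [h3, h5]
    exact Finset.sum_congr rfl fun r _ => h.map_smul_univ _ _
  rw [h2, h1, map_sum]
  refine Finset.sum_congr rfl fun r _ => ?_
  have h4 : Y' (h fun j => Pc B e f (r j) (v j)) =
      ((∑ j, wt (r j) : ℤ) : K) • h fun j => Pc B e f (r j) (v j) := by
    rw [← hY]
    push_cast
    rw [Finset.sum_smul]
    refine Finset.sum_congr rfl fun j _ => ?_
    rw [wg_Pc he hf hef hfe, MultilinearMap.map_update_smul, update_eq_self]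
  have hw : ∀ i : Fin 3, -1 ≤ wt i ∧ wt i ≤ 1 := by
    intro i
    fin_cases i <;> simp [wt]
  have h5 : -(D : ℤ) ≤ ∑ j, wt (r j) := by
    have h6 : ∑ j : Fin d, (-1 : ℤ) ≤ ∑ j, wt (r j) :=
      Finset.sum_le_sum fun j _ => (hw _).1
    rw [Finset.sum_const, Finset.card_univ, Fintype.card_fin] at h6
    simp only [smul_neg, nsmul_eq_mul, mul_one] at h6
    have h7 : (d : ℤ) ≤ D := by exact_mod_cast hd
    linarith
  have h6 : ∑ j, wt (r j) ≤ (D : ℤ) := by
    have h6 : ∑ j, wt (r j) ≤ ∑ j : Fin d, (1 : ℤ) :=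
      Finset.sum_le_sum fun j _ => (hw _).2
    rw [Finset.sum_const, Finset.card_univ, Fintype.card_fin] at h6
    simp only [nsmul_eq_mul, mul_one] at h6
    have h7 : (d : ℤ) ≤ D := by exact_mod_cast hd
    linarith
  rw [aeval_eig h4, hq _ h5 h6]
  congr 1
  have h7 : ∀ s : Finset (Fin d), ∏ j ∈ s, t ^ wt (r j) = t ^ (∑ j ∈ s, wt (r j)) := by
    intro s
    induction s using Finset.induction_on with
    | empty => simp
    | insert j s hj ih => rw [Finset.prod_insert hj, Finset.sum_insert hj, ih, zpow_add₀ ht]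
  exact h7 _

/-- interpolation -/
theorem exists_q (t : K) (D : ℕ) : ∃ q : Polynomial K,
    ∀ n : ℤ, -(D : ℤ) ≤ n → n ≤ D → q.eval (n : K) = t ^ n := by
  classical
  refine ⟨Lagrange.interpolate (Finset.Icc (-(D : ℤ)) D) (fun n : ℤ => (n : K))
    (fun n : ℤ => t ^ n), fun n h1 h2 => ?_⟩
  exact Lagrange.eval_interpolate_at_node _ (fun x _ y _ h => Int.cast_injective h)
    (Finset.mem_Icc.2 ⟨h1, h2⟩)

end torus

section clos

variable {K : Type} [Field K] [CharZero K] [IsAlgClosed K] {T : Type} [AddCommGroup T]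
  [Module K T] [FiniteDimensional K T] {G : Type} [Group G]
  {B C : T →ₗ[K] T →ₗ[K] K} {ρ : G →* (T →ₗ[K] T)} {ι : Type} [Fintype ι]
  (b : Basis ι K T) {e f : T}

/-- The torus is in the closure. -/
theorem torus_mem (he : B e e = 0) (hf : B f f = 0) (hef : B e f = 1) (hfe : B f e = 1)
    (hL : ∀ D : ℕ, wg B e f ∈ L0 C ρ (sig ρ b (D + 1))) {t : K} (ht : t ≠ 0) :
    tor B e f t ∈ zariskiClosure b (Set.range ρ) := by
  intro p hp
  obtain ⟨n, c, d, r, v, hΦ⟩ := PF_repr b (ev_mem b p)
  set D := ∑ k, d k with hD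
  have hd : ∀ k, d k ≤ D + 1 := fun k => le_trans (Finset.single_le_sum (f := d)
    (fun _ _ => Nat.zero_le _) (Finset.mem_univ k)) (Nat.le_succ _)
  obtain ⟨Y', hY'⟩ := mem_L0.1 (hL D)
  obtain ⟨q, hq⟩ := exists_q t (D + 1)
  have h1 : ∑ k, c k • coefD ρ b (hd k) (r k) (v k) = 0 := by
    apply Subtype.ext
    funext g
    have h2 : ev b p (ρ g) = 0 := hp _ ⟨g, rfl⟩
    rw [hΦ] at h2
    rw [Submodule.coe_sum, Finset.sum_apply]
    exact h2
  have h2 : ∑ k, c k • coefD ρ b (hd k) (r k) (fun j => tor B e f t (v k j)) = 0 := by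
    have h3 : ∀ k, coefD ρ b (hd k) (r k) (fun j => tor B e f t (v k j)) =
        Polynomial.aeval Y' q (coefD ρ b (hd k) (r k) (v k)) := by
      intro k
      exact tor_eq he hf hef hfe (coefD ρ b (hd k) (r k))
        (fun w => (mem_PP.1 (mem_PA.1 hY' (d k))).2 _ (eqv_coefD ρ b (hd k) (r k)) w) ht (hd k) hq
        (v k)
    simp only [h3]
    rw [← map_zero (Polynomial.aeval Y' q), ← h1, map_sum]
    exact Finset.sum_congr rfl fun k _ => (map_smul _ _ _).symm
  have h3 := congrFun (congrArg Subtype.val h2) 1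
  rw [Submodule.coe_sum, Finset.sum_apply] at h3
  rw [hΦ]
  have h4 : ∀ k, ((c k • coefD ρ b (hd k) (r k) (fun j => tor B e f t (v k j)) : ED ρ b (D + 1)) : G → K) 1 =
      c k * ∏ j, b.repr (tor B e f t (v k j)) (r k j) := by
    intro k
    change c k * coefm ρ b (r k) (fun j => tor B e f t (v k j)) 1 = _
    rw [coefm_apply]
    simp only [map_one, Module.End.one_apply]
  rw [Finset.sum_congr rfl fun k _ => h4 k] at h3
  exact h3

/-- A Laurent curve which meets the closure infinitely often is contained in it. -/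
theorem curve_subset {A : Set (End K T)} {y : End K T} {S : Set K} (hS : S.Infinite)
    (h : ∀ t ∈ S, t ≠ 0 → y * tor B e f t ∈ zariskiClosure b A) {t : K} (ht : t ≠ 0) :
    y * tor B e f t ∈ zariskiClosure b A := by
  intro p hp
  obtain ⟨n, c, d, r, v, hΦ⟩ := PF_repr b (ev_mem b p)
  set D := ∑ k, d k with hD
  have hd : ∀ k, d k ≤ D := fun k => Finset.single_le_sum (f := d) (fun _ _ => Nat.zero_le _)
    (Finset.mem_univ k)
  let Q : Polynomial K := ∑ k, Polynomial.C (c k) * Polynomial.X ^ (D - d k) *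
    ∏ j, (Polynomial.C (b.repr (y (v k j) - B f (v k j) • y e - B e (v k j) • y f) (r k j)) *
        Polynomial.X +
      Polynomial.C (b.repr (B f (v k j) • y e) (r k j)) * Polynomial.X ^ 2 +
      Polynomial.C (b.repr (B e (v k j) • y f) (r k j)))
  have hQ : ∀ t : K, t ≠ 0 → Q.eval t = t ^ D * ev b p (y * tor B e f t) := by
    intro t ht
    rw [hΦ, Finset.mul_sum, Polynomial.eval_finsetSum]
    refine Finset.sum_congr rfl fun k _ => ?_
    rw [Polynomial.eval_mul, Polynomial.eval_mul, Polynomial.eval_C, Polynomial.eval_pow,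
      Polynomial.eval_X, Polynomial.eval_prod]
    have h1 : t ^ D = t ^ (D - d k) * t ^ (d k) := by
      rw [← pow_add, Nat.sub_add_cancel (hd k)]
    have h2 : t ^ (d k) * ∏ j, b.repr ((y * tor B e f t) (v k j)) (r k j) =
        ∏ j, (t * b.repr ((y * tor B e f t) (v k j)) (r k j)) := by
      rw [Finset.prod_mul_distrib, Finset.prod_const, Finset.card_univ, Fintype.card_fin]
    have h3 : ∀ j, Polynomial.eval t
        (Polynomial.C (b.repr (y (v k j) - B f (v k j) • y e - B e (v k j) • y f) (r k j)) *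
          Polynomial.X + Polynomial.C (b.repr (B f (v k j) • y e) (r k j)) * Polynomial.X ^ 2 +
          Polynomial.C (b.repr (B e (v k j) • y f) (r k j))) =
        t * b.repr ((y * tor B e f t) (v k j)) (r k j) := by
      intro j
      rw [Module.End.mul_apply, tor_apply, Polynomial.eval_add, Polynomial.eval_add,
        Polynomial.eval_mul, Polynomial.eval_mul, Polynomial.eval_C, Polynomial.eval_C,
        Polynomial.eval_C, Polynomial.eval_X, Polynomial.eval_pow, Polynomial.eval_X]
      simp only [map_add, map_sub, map_smul, Finsupp.add_apply, Finsupp.sub_apply,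
        Finsupp.smul_apply, smul_eq_mul]
      field_simp
      ring
    rw [Finset.prod_congr rfl fun j _ => h3 j, ← h2, h1]
    ring
  have hQ0 : Q = 0 := by
    refine Polynomial.eq_zero_of_infinite_isRoot Q ((hS.sdiff (Set.finite_singleton 0)).mono ?_)
    rintro s ⟨hs, hs0⟩
    have hs0' : s ≠ 0 := hs0
    change Q.eval s = 0
    rw [hQ s hs0', h s hs hs0' p hp, mul_zero]
  have h1 := hQ t ht
  rw [hQ0, Polynomial.eval_zero] at h1
  exact (mul_eq_zero.1 h1.symm).resolve_left (pow_ne_zero _ ht)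

end clos

end Pool.Agent.TH118.OR
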