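import Mathlib
import Pool.Agent.TH118.OR.Torus

/-!
# The special orthogonal group is generated by tori
-/

set_option linter.unusedSectionVars false

namespace Pool.Agent.TH118.OR

open Module Finset Function Pool.Agent.TH125.Gal

variable {K : Type} [Field K] [CharZero K] {T : Type} [AddCommGroup T] [Module K T]
  {B : T →ₗ[K] T →ₗ[K] K}

theorem refl_mul_self {u : T} (hu : B u u ≠ 0) : refl B u * refl B u = 1 :=
  LinearMap.ext fun x => refl_refl hu x

theorem refl_iso (hsy : ∀ x y, B x y = B y x) {u : T} (hu : B u u ≠ 0) (x y : T) :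
    B (refl B u x) (refl B u y) = B x y := by
  rw [refl_apply, refl_apply]
  simp only [map_sub, map_smul, LinearMap.sub_apply, LinearMap.smul_apply, smul_eq_mul]
  rw [hsy x u]
  field_simp
  ring

theorem refl_det [FiniteDimensional K T] {u : T} (hu : B u u ≠ 0) :
    LinearMap.det (refl B u) = -1 := by
  have h1 : refl B u = LinearMap.transvection ((-(2 / B u u)) • B u) u := by
    apply LinearMap.ext
    intro x
    rw [refl_apply, LinearMap.transvection.apply, LinearMap.smul_apply, smul_eq_mul, neg_mul,
      neg_smul, sub_eq_add_neg]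
  rw [h1, LinearMap.transvection.det, LinearMap.smul_apply, smul_eq_mul, neg_mul,
    div_mul_cancel₀ _ hu]
  norm_num

/-- products of reflections -/
theorem prod_inv {l : List T} (hl : ∀ u ∈ l, B u u ≠ 0) :
    (l.reverse.map (refl B)).prod * (l.map (refl B)).prod = 1 := by
  induction l with
  | nil => simp
  | cons a l ih =>
    rw [List.reverse_cons, List.map_append, List.prod_append, List.map_cons, List.map_cons,
      List.map_nil, List.prod_cons, List.prod_cons, List.prod_nil, mul_one, mul_assoc,
      ← mul_assoc (refl B a), refl_mul_self (hl a (by simp)), one_mul]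
    exact ih fun u hu => hl u (by simp [hu])

theorem prod_det [FiniteDimensional K T] {l : List T} (hl : ∀ u ∈ l, B u u ≠ 0) :
    LinearMap.det (l.map (refl B)).prod = (-1 : K) ^ l.length := by
  induction l with
  | nil => simp
  | cons a l ih =>
    rw [List.map_cons, List.prod_cons, map_mul, refl_det (hl a (by simp)),
      ih fun u hu => hl u (by simp [hu]), List.length_cons, pow_succ, mul_comm]

theorem prod_mem (M : Submonoid (End K T))
    (hM : ∀ u v, B u u ≠ 0 → B v v ≠ 0 → refl B u * refl B v ∈ M) :
    ∀ (n : ℕ) (l : List T), l.length = 2 * n → (∀ u ∈ l, B u u ≠ 0) →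
      (l.map (refl B)).prod ∈ M := by
  intro n
  induction n with
  | zero =>
    intro l hl _
    rw [mul_zero] at hl
    rw [List.length_eq_zero_iff.1 hl, List.map_nil, List.prod_nil]
    exact M.one_mem
  | succ n ih =>
    intro l hl h
    match l, hl, h with
    | a :: c :: l, hl, h =>
      rw [List.map_cons, List.map_cons, List.prod_cons, List.prod_cons, ← mul_assoc]
      refine M.mul_mem (hM a c (h a (by simp)) (h c (by simp))) (ih l ?_ fun u hu => h u ?_)
      · simp only [List.length_cons] at hl
        omega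
      · simp [hu]

/-- **Products of reflections which fix the first vectors of an orthogonal basis.** -/
theorem exists_list (hsy : ∀ x y, B x y = B y x) {n : ℕ} (v : Fin n → T)
    (hv : ∀ i j, i ≠ j → B (v i) (v j) = 0) (hv0 : ∀ i, B (v i) (v i) ≠ 0) {s : End K T}
    (hs : ∀ x y, B (s x) (s y) = B x y) (k : ℕ) (hk : k ≤ n) :
    ∃ l : List T, (∀ u ∈ l, B u u ≠ 0) ∧ ∀ i : Fin n, (i : ℕ) < k →
      ((l.map (refl B)).prod * s) (v i) = v i := by
  induction k with
  | zero => exact ⟨[], by simp, fun i hi => absurd hi (Nat.not_lt_zero _)⟩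
  | succ k ih =>
    obtain ⟨l, hl, hfix⟩ := ih (Nat.le_of_succ_le hk)
    set g := (l.map (refl B)).prod * s with hg
    have hgB : ∀ x y, B (g x) (g y) = B x y := by
      have h1 : ∀ l : List T, (∀ u ∈ l, B u u ≠ 0) → ∀ x y,
          B ((l.map (refl B)).prod x) ((l.map (refl B)).prod y) = B x y := by
        intro l
        induction l with
        | nil => intro _ x y; simp
        | cons a l ih =>
          intro hl x y
          rw [List.map_cons, List.prod_cons, Module.End.mul_apply, Module.End.mul_apply,
            refl_iso hsy (hl a (by simp)), ih fun u hu => hl u (by simp [hu])]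
      intro x y
      rw [hg, Module.End.mul_apply, Module.End.mul_apply, h1 l hl, hs]
    set x := v ⟨k, hk⟩ with hx
    have hxx : B x x ≠ 0 := hv0 _
    have hperp : ∀ i : Fin n, (i : ℕ) < k → B (g x) (v i) = 0 ∧ B x (v i) = 0 := by
      intro i hi
      have h1 : B x (v i) = 0 := hv _ _ (fun h => by rw [← h] at hi; exact lt_irrefl _ hi)
      refine ⟨?_, h1⟩
      rw [← hfix i hi, hgB, h1]
    have hfx : ∀ y : T, ∀ i : Fin n, B y (v i) = 0 → refl B y (v i) = v i := by
      intro y i h
      rw [refl_apply, h, mul_zero, zero_smul, sub_zero]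
    have hlt : ∀ i : Fin n, (i : ℕ) < k + 1 → (i : ℕ) < k ∨ v i = x := by
      intro i hi
      rcases Nat.lt_succ_iff_lt_or_eq.1 hi with h | h
      · exact Or.inl h
      · right
        rw [hx]
        congr 1
        exact Fin.ext h
    by_cases h1 : B (g x - x) (g x - x) = 0
    · have h2 : B (g x + x) (g x + x) ≠ 0 := by
        intro h2
        simp only [map_sub, map_add, LinearMap.sub_apply, LinearMap.add_apply, hgB] at h1 h2
        have h3 : (4 : K) * B x x = 0 := by linear_combination h1 + h2
        rcases mul_eq_zero.1 h3 with h4 | h4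
        · norm_num at h4
        · exact hxx h4
      have h3 : refl B (g x + x) (g x) = -x := by
        rw [refl_apply]
        have h4 : 2 / B (g x + x) (g x + x) * B (g x + x) (g x) = 1 := by
          rw [div_mul_eq_mul_div, div_eq_one_iff_eq h2]
          simp only [map_add, LinearMap.add_apply, hgB]
          rw [hsy x (g x)]
          ring
        rw [h4, one_smul]
        abel
      refine ⟨x :: (g x + x) :: l, ?_, fun i hi => ?_⟩
      · intro u hu
        rw [List.mem_cons, List.mem_cons] at hu
        rcases hu with rfl | rfl | hu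
        · exact hxx
        · exact h2
        · exact hl u hu
      · rw [List.map_cons, List.map_cons, List.prod_cons, List.prod_cons, mul_assoc, mul_assoc,
          ← hg, Module.End.mul_apply, Module.End.mul_apply]
        rcases hlt i hi with h4 | h4
        · rw [hfix i h4, hfx _ i (by rw [map_add, LinearMap.add_apply, (hperp i h4).1,
            (hperp i h4).2, add_zero]), hfx _ i (hperp i h4).2]
        · rw [h4, h3, map_neg, refl_apply]
          have h5 : 2 / B x x * B x x = 2 := by field_simp
          rw [h5, two_smul]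
          abel
    · have h3 : refl B (g x - x) (g x) = x := by
        rw [refl_apply]
        have h4 : 2 / B (g x - x) (g x - x) * B (g x - x) (g x) = 1 := by
          rw [div_mul_eq_mul_div, div_eq_one_iff_eq h1]
          simp only [map_sub, LinearMap.sub_apply, hgB]
          rw [hsy x (g x)]
          ring
        rw [h4, one_smul]
        abel
      refine ⟨(g x - x) :: l, ?_, fun i hi => ?_⟩
      · intro u hu
        rw [List.mem_cons] at hu
        rcases hu with rfl | hu
        · exact h1
        · exact hl u hu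
      · rw [List.map_cons, List.prod_cons, mul_assoc, ← hg, Module.End.mul_apply]
        rcases hlt i hi with h4 | h4
        · rw [hfix i h4, hfx _ i (by rw [map_sub, LinearMap.sub_apply, (hperp i h4).1,
            (hperp i h4).2, sub_zero])]
        · rw [h4, h3]

/-- **The special orthogonal group is generated by products of two reflections.** -/
theorem so_mem [FiniteDimensional K T] (hsy : ∀ x y, B x y = B y x)
    (hnd : ∀ u, (∀ v, B u v = 0) → u = 0) (M : Submonoid (End K T))
    (hM : ∀ u v, B u u ≠ 0 → B v v ≠ 0 → refl B u * refl B v ∈ M) {s : End K T}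
    (hs : ∀ x y, B (s x) (s y) = B x y) (hdet : LinearMap.det s = 1) : s ∈ M := by
  have hinv : Invertible (2 : K) := invertibleOfNonzero two_ne_zero
  obtain ⟨v, hv⟩ := LinearMap.BilinForm.exists_orthogonal_basis (B := B)
    ⟨fun x y => hsy x y⟩
  have hv' : ∀ i j, i ≠ j → B (v i) (v j) = 0 := fun i j hij => hv hij
  have hv0 : ∀ i, B (v i) (v i) ≠ 0 := by
    intro i h
    apply v.ne_zero i
    refine hnd _ fun w => ?_
    rw [← v.sum_repr w, map_sum]
    refine Finset.sum_eq_zero fun j _ => ?_
    rw [map_smul]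
    by_cases hij : i = j
    · subst hij
      rw [h, smul_zero]
    · rw [hv' i j hij, smul_zero]
  obtain ⟨l, hl, hfix⟩ := exists_list hsy v hv' hv0 hs (finrank K T) le_rfl
  have h1 : (l.map (refl B)).prod * s = 1 := v.ext fun i => hfix i i.2
  have h2 := prod_det hl
  have h3 := congrArg LinearMap.det h1
  rw [map_mul, h2, hdet, mul_one, map_one] at h3
  have h4 : Even l.length := by
    by_contra hodd
    rw [Nat.not_even_iff_odd] at hodd
    rw [hodd.neg_one_pow] at h3
    norm_num at h3
  obtain ⟨m, hm⟩ := h4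
  have h5 : s = (l.reverse.map (refl B)).prod := by
    have h6 := prod_inv hl
    calc s = ((l.reverse.map (refl B)).prod * (l.map (refl B)).prod) * s := by rw [h6, one_mul]
      _ = (l.reverse.map (refl B)).prod := by rw [mul_assoc, h1, mul_one]
  rw [h5]
  refine prod_mem M hM m _ ?_ ?_
  · rw [List.length_reverse, hm, two_mul]
  · intro u hu
    exact hl u (List.mem_reverse.1 hu)

/-- The product of two reflections is in a torus if the plane is nondegenerate. -/
theorem pair_tor [IsAlgClosed K] (hsy : ∀ x y, B x y = B y x) (M : Submonoid (End K T))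
    (hM : ∀ e f, B e e = 0 → B f f = 0 → B e f = 1 → ∀ t : K, t ≠ 0 → tor B e f t ∈ M)
    {u v : T} (hu : B u u ≠ 0) (hv : B v v ≠ 0) (hD : B u u * B v v ≠ B u v ^ 2) :
    refl B u * refl B v ∈ M := by
  obtain ⟨c, hc⟩ := IsAlgClosed.exists_pow_nat_eq (B u u) (n := 2) (by norm_num)
  obtain ⟨c', hc'⟩ := IsAlgClosed.exists_pow_nat_eq (B v v) (n := 2) (by norm_num)
  have hc0 : c ≠ 0 := by
    rintro rfl
    exact hu (by rw [← hc]; norm_num)
  have hc0' : c' ≠ 0 := by
    rintro rfl
    exact hv (by rw [← hc']; norm_num)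
  rw [← refl_smul (inv_ne_zero hc0) u, ← refl_smul (inv_ne_zero hc0') v]
  set u' := c⁻¹ • u with hu'
  set v' := c'⁻¹ • v with hv'
  have huu : B u' u' = 1 := by
    rw [hu', map_smul, map_smul, LinearMap.smul_apply, smul_eq_mul, smul_eq_mul, ← hc]
    field_simp
  have hvv : B v' v' = 1 := by
    rw [hv', map_smul, map_smul, LinearMap.smul_apply, smul_eq_mul, smul_eq_mul, ← hc']
    field_simp
  set d := B u' v' with hd
  have hd1 : d ^ 2 ≠ 1 := by
    intro h
    apply hD
    rw [hd, hu', hv', map_smul, map_smul, LinearMap.smul_apply, smul_eq_mul, smul_eq_mul] at h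
    rw [← hc, ← hc']
    field_simp at h
    linear_combination -h
  obtain ⟨r, hr⟩ := IsAlgClosed.exists_pow_nat_eq (d ^ 2 - 1) (n := 2) (by norm_num)
  have hr0 : r ≠ 0 := by
    rintro rfl
    apply hd1
    have h1 : d ^ 2 - 1 = 0 := by rw [← hr]; norm_num
    exact sub_eq_zero.1 h1
  have hvu : B v' u' = d := by rw [hsy]
  have hll : (-d + r) * (-d - r) = 1 := by linear_combination -hr
  have hl0 : -d + r ≠ 0 := left_ne_zero_of_mul_eq_one hll
  set e := v' + (-d + r) • u' with he
  set f := (-(2 * r ^ 2))⁻¹ • (v' + (-d - r) • u') with hf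
  have hr2 : -(2 * r ^ 2) ≠ 0 := neg_ne_zero.2 (mul_ne_zero two_ne_zero (pow_ne_zero _ hr0))
  have hee : B e e = 0 := by
    rw [he]
    simp only [map_add, map_smul, LinearMap.add_apply, LinearMap.smul_apply, smul_eq_mul, huu, hvv,
      hvu, ← hd]
    linear_combination hr
  have hff : B f f = 0 := by
    rw [hf]
    simp only [map_add, map_smul, LinearMap.add_apply, LinearMap.smul_apply, smul_eq_mul, huu, hvv,
      hvu, ← hd]
    have h1 : 1 + (-d - r) * d + (-d - r) * (d + (-d - r) * 1) = 0 := by linear_combination hr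
    linear_combination ((-(2 * r ^ 2))⁻¹ * (-(2 * r ^ 2))⁻¹) * h1
  have hef : B e f = 1 := by
    rw [he, hf]
    simp only [map_add, map_smul, LinearMap.add_apply, LinearMap.smul_apply, smul_eq_mul, huu, hvv,
      hvu, ← hd]
    rw [inv_mul_eq_div, div_eq_one_iff_eq hr2]
    linear_combination hr
  have key : refl B u' * refl B v' = tor B e f ((-d + r) ^ 2) := by
    apply LinearMap.ext
    intro x
    have hinv : ((-d + r) ^ 2)⁻¹ = (-d - r) ^ 2 := by
      refine inv_eq_of_mul_eq_one_right ?_
      rw [← mul_pow, hll, one_pow]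
    rw [tor_apply, Module.End.mul_apply, refl_apply, refl_apply, hinv, huu, hvv, hf, he]
    simp only [map_add, map_sub, map_smul, LinearMap.add_apply, LinearMap.smul_apply, smul_eq_mul,
      ← hd]
    have h1 : (2 * r ^ 2) ≠ 0 := mul_ne_zero two_ne_zero (pow_ne_zero _ hr0)
    match_scalars
    · ring
    · field_simp
      linear_combination (-2 * B v' x + 2 * d * B u' x) * hr
    · field_simp
      linear_combination (2 * d * B v' x - 2 * (r ^ 2 + d ^ 2) * B u' x) * hr
  rw [key]
  exact hM e f hee hff hef _ (pow_ne_zero _ hl0)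

/-- The product of two reflections is a product of elements of tori. -/
theorem pair_mem' [IsAlgClosed K] (hsy : ∀ x y, B x y = B y x)
    (hnd : ∀ u, (∀ v, B u v = 0) → u = 0) (M : Submonoid (End K T))
    (hM : ∀ e f, B e e = 0 → B f f = 0 → B e f = 1 → ∀ t : K, t ≠ 0 → tor B e f t ∈ M)
    {u v : T} (hu : B u u ≠ 0) (hv : B v v ≠ 0) : refl B u * refl B v ∈ M := by
  by_cases hD : B u u * B v v ≠ B u v ^ 2
  · exact pair_tor hsy M hM hu hv hD
  push Not at hD
  obtain ⟨c, hc⟩ : ∃ c, c = B u v / B u u := ⟨_, rfl⟩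
  obtain ⟨w, hw⟩ : ∃ w, w = v - c • u := ⟨_, rfl⟩
  have huw : B u w = 0 := by
    rw [hw, map_sub, map_smul, smul_eq_mul, hc, div_mul_cancel₀ _ hu, sub_self]
  have hww : B w w = 0 := by
    have h1 : B w w = B v w := by
      have h2 : B w w = B (v - c • u) w := by rw [← hw]
      rw [h2, map_sub, map_smul, LinearMap.sub_apply, LinearMap.smul_apply, huw, smul_zero,
        sub_zero]
    rw [h1, hw, map_sub, map_smul, smul_eq_mul, hc, hsy v u]
    field_simp
    linear_combination hD
  by_cases hw0 : w = 0
  · have h1 : v = c • u := sub_eq_zero.1 (by rw [← hw, hw0])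
    have hc0 : c ≠ 0 := by
      intro h
      rw [h1, h, zero_smul, map_zero] at hv
      exact hv rfl
    rw [h1, refl_smul hc0, refl_mul_self hu]
    exact M.one_mem
  obtain ⟨y0, hy0⟩ : ∃ y, B w y ≠ 0 := by
    by_contra hcon
    push Not at hcon
    exact hw0 (hnd w hcon)
  obtain ⟨y1, hy1⟩ : ∃ y1, y1 = y0 - (B u y0 / B u u) • u := ⟨_, rfl⟩
  have huy1 : B u y1 = 0 := by
    rw [hy1, map_sub, map_smul, smul_eq_mul, div_mul_cancel₀ _ hu, sub_self]
  have hwy1 : B w y1 ≠ 0 := by
    rw [hy1, map_sub, map_smul, hsy w u, huw, smul_zero, sub_zero]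
    exact hy0
  obtain ⟨y, hy⟩ : ∃ y, y = (B w y1)⁻¹ • (y1 - (B y1 y1 / (2 * B w y1)) • w) := ⟨_, rfl⟩
  have huy : B u y = 0 := by
    rw [hy, map_smul, map_sub, map_smul, huy1, huw, smul_zero, sub_zero, smul_zero]
  have hwy : B w y = 1 := by
    rw [hy, map_smul, map_sub, map_smul, hww, smul_zero, sub_zero, smul_eq_mul,
      inv_mul_cancel₀ hwy1]
  have hyy : B y y = 0 := by
    rw [hy]
    simp only [map_smul, map_sub, LinearMap.smul_apply, LinearMap.sub_apply, smul_eq_mul, hww]
    rw [hsy y1 w]
    field_simp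
    ring
  have hvw : B v = B (w + c • u) := by rw [hw, sub_add_cancel]
  obtain ⟨a, ha0, ha⟩ : ∃ a : K, a ≠ 0 ∧ 2 * a * B v v ≠ 1 := by
    by_cases h1 : 2 * 1 * B v v = 1
    · refine ⟨2, two_ne_zero, fun h2 => ?_⟩
      have h3 : (1 : K) = 0 := by linear_combination h2 - 2 * h1
      exact one_ne_zero h3
    · exact ⟨1, one_ne_zero, h1⟩
  obtain ⟨z, hz⟩ : ∃ z, z = a • w + y := ⟨_, rfl⟩
  have huz : B u z = 0 := by rw [hz, map_add, map_smul, huw, huy, smul_zero, add_zero]
  have hzz : B z z = 2 * a := by
    rw [hz]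
    simp only [map_add, map_smul, LinearMap.add_apply, LinearMap.smul_apply, smul_eq_mul, hww, hyy,
      hwy, hsy y w]
    ring
  have hzz0 : B z z ≠ 0 := by
    rw [hzz]
    exact mul_ne_zero two_ne_zero ha0
  have hzv : B z v = 1 := by
    rw [hsy, hvw, hz]
    simp only [map_add, map_smul, LinearMap.add_apply, LinearMap.smul_apply, smul_eq_mul, hww, huw,
      hwy, huy]
    ring
  have h1 : refl B u * refl B z ∈ M := by
    refine pair_tor hsy M hM hu hzz0 ?_
    rw [huz]
    intro h
    rw [zero_pow two_ne_zero] at h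
    exact (mul_ne_zero hu hzz0) h
  have h2 : refl B z * refl B v ∈ M := by
    refine pair_tor hsy M hM hzz0 hv ?_
    rw [hzv, hzz, one_pow]
    exact ha
  have h3 := M.mul_mem h1 h2
  rwa [mul_assoc, ← mul_assoc (refl B z), refl_mul_self hzz0, one_mul] at h3

end Pool.Agent.TH118.OR
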