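import Mathlib
import Pool.Agent.TH118.OR.Full
import Pool.Agent.TH118.SG.Whole

/-!
# An element with two simple eigenvalues in the orthogonal case
-/

set_option linter.unusedSectionVars false

namespace Pool.Agent.TH118.OR

open Module Pool.Agent.W522.U Pool.Agent.TH125.Gal Pool.Agent.TH118.SG
open Pool.Agent.TH118.IS Pool.Agent.TH118.CR

variable {K : Type} [Field K] [CharZero K] [IsAlgClosed K] {X : Type} [AddCommGroup X] [Module K X]
  [FiniteDimensional K X] {Γ : Type} [Group Γ] {R : Representation K Γ X} {χ : Γ →* K}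
  {L : Submodule K (End K X)} {B : X →ₗ[K] X →ₗ[K] K}

/-- `e` and `f` are eigenvectors of `γ` for different dual eigenvalues; on a complement of
the space spanned by them `γ` is the multiplication by `a`. -/
structure Two (R : Representation K Γ X) (χ : Γ →* K) (B : X →ₗ[K] X →ₗ[K] K) (γ : Γ) (a α β : K)
    (e f : X) : Prop where
  he : R γ e = α • e
  hf : R γ f = β • f
  hαβ : α * β = χ γ
  ha : a * a = χ γ
  hne : α ≠ β
  hef : B e f ≠ 0
  dec : ∀ z, ∃ x y : K, ∃ w, R γ w = a • w ∧ z = x • e + y • f + w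

variable {γ : Γ} {a α β : K} {e f : X}

theorem Two.symm (hsy : ∀ x y, B x y = B y x) (T : Two R χ B γ a α β e f) :
    Two R χ B γ a β α f e where
  he := T.hf
  hf := T.he
  hαβ := by rw [mul_comm]; exact T.hαβ
  ha := T.ha
  hne := T.hne.symm
  hef := by rw [hsy]; exact T.hef
  dec := by
    intro z
    obtain ⟨x, y, w, h1, h2⟩ := T.dec z
    exact ⟨y, x, w, h1, by rw [h2, add_comm (x • e)]⟩

theorem Two.α0 (T : Two R χ B γ a α β e f) : α ≠ 0 := by
  rintro rfl
  have h := T.hαβ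
  rw [zero_mul] at h
  exact χne' χ γ h.symm

theorem Two.β0 (T : Two R χ B γ a α β e f) : β ≠ 0 := by
  rintro rfl
  have h := T.hαβ
  rw [mul_zero] at h
  exact χne' χ γ h.symm

theorem Two.a0 (T : Two R χ B γ a α β e f) : a ≠ 0 := by
  rintro rfl
  have h := T.ha
  rw [mul_zero] at h
  exact χne' χ γ h.symm

theorem Two.αa (T : Two R χ B γ a α β e f) : α ≠ a := by
  rintro rfl
  have h : α * (α - β) = 0 := by linear_combination T.ha - T.hαβ
  exact T.hne (sub_eq_zero.1 ((mul_eq_zero.1 h).resolve_left T.α0))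

theorem Two.βa (T : Two R χ B γ a α β e f) : β ≠ a := by
  rintro rfl
  have h : β * (α - β) = 0 := by linear_combination T.hαβ - T.ha
  exact T.hne (sub_eq_zero.1 ((mul_eq_zero.1 h).resolve_left T.β0))

/-- eigenvectors whose eigenvalues are not dual are orthogonal -/
theorem perp (hB : ∀ g u v, B (R g u) (R g v) = χ g * B u v) {x y : K} {u v : X}
    (hu : R γ u = x • u) (hv : R γ v = y • v) (hxy : x * y ≠ χ γ) : B u v = 0 := by
  have h1 := hB γ u v
  rw [hu, hv, map_smul, map_smul, LinearMap.smul_apply, smul_eq_mul, smul_eq_mul] at h1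
  have h2 : (x * y - χ γ) * B u v = 0 := by linear_combination h1
  exact (mul_eq_zero.1 h2).resolve_left (sub_ne_zero.2 hxy)

section

variable (hB : ∀ g u v, B (R g u) (R g v) = χ g * B u v)

include hB

theorem Two.ee (T : Two R χ B γ a α β e f) : B e e = 0 := by
  refine perp hB T.he T.he fun h => ?_
  have h1 : α * (α - β) = 0 := by linear_combination h - T.hαβ
  exact T.hne (sub_eq_zero.1 ((mul_eq_zero.1 h1).resolve_left T.α0))

theorem Two.ew (T : Two R χ B γ a α β e f) {w : X} (hw : R γ w = a • w) : B e w = 0 := by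
  refine perp hB T.he hw fun h => ?_
  have h1 : α * (β - a) = 0 := by linear_combination T.hαβ - h
  exact T.βa (sub_eq_zero.1 ((mul_eq_zero.1 h1).resolve_left T.α0))

/-- vectors orthogonal to everything -/
theorem Two.nd (T : Two R χ B γ a α β e f) (hnd : ∀ u, (∀ v, B u v = 0) → u = 0) {u : X}
    (h1 : B u e = 0) (h2 : B u f = 0) (h3 : ∀ w, R γ w = a • w → B u w = 0) : u = 0 := by
  refine hnd u fun v => ?_
  obtain ⟨x, y, w, hw, rfl⟩ := T.dec v
  rw [map_add, map_add, map_smul, map_smul, h1, h2, h3 w hw, smul_zero, smul_zero, add_zero,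
    add_zero]

end

/-- The vectors `p` fixed by `γ` up to the scalar `a` with `e ∧ p` in the Lie algebra. -/
def Pt (R : Representation K Γ X) (L : Submodule K (End K X)) (B : X →ₗ[K] X →ₗ[K] K) (γ : Γ)
    (a : K) (e : X) : Submodule K X where
  carrier := {p | R γ p = a • p ∧ wg B e p ∈ L}
  zero_mem' := by
    refine ⟨by rw [map_zero, smul_zero], ?_⟩
    rw [wg_zero_right]
    exact Submodule.zero_mem _
  add_mem' := by
    rintro p q ⟨h1, h2⟩ ⟨h3, h4⟩
    refine ⟨by rw [map_add, h1, h3, smul_add], ?_⟩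
    rw [wg_add_right]
    exact Submodule.add_mem _ h2 h4
  smul_mem' := by
    rintro c p ⟨h1, h2⟩
    refine ⟨by rw [map_smul, h1, smul_comm], ?_⟩
    rw [wg_smul_right]
    exact Submodule.smul_mem _ _ h2

theorem mem_Pt {p : X} : p ∈ Pt R L B γ a e ↔ R γ p = a • p ∧ wg B e p ∈ L := Iff.rfl

section

variable (hbr : ∀ Y ∈ L, ∀ Z ∈ L, Y * Z - Z * Y ∈ L)
  (hsp : ∀ Y ∈ L, ∀ u w, B (Y u) w + B u (Y w) = 0) (hsy : ∀ x y, B x y = B y x)
  (hnd : ∀ u, (∀ v, B u v = 0) → u = 0)
  (hB : ∀ g u v, B (R g u) (R g v) = χ g * B u v)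
  (hconj : ∀ g : Γ, ∀ Y ∈ L, R g * Y * R g⁻¹ ∈ L)

include hsp hsy hnd hB in
/-- The eigenvectors of the conjugation. -/
theorem Two.form (T : Two R χ B γ a α β e f) {ν : K} (hν : ν * β = a) {N : End K X}
    (hN : N ∈ Lnu R L γ ν) : ∃ p ∈ Pt R L B γ a e, N = wg B e p := by
  have hνa : ν * a = α := by
    have h1 : β * (ν * a - α) = 0 := by linear_combination a * hν + T.ha - T.hαβ
    exact sub_eq_zero.1 ((mul_eq_zero.1 h1).resolve_left T.β0)
  have hNf : R γ (N f) = a • N f := by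
    rw [hN.2, T.hf, map_smul, smul_smul, hν]
  have hfe : B f e ≠ 0 := by rw [hsy]; exact T.hef
  have T' := T.symm hsy
  have hNw : ∀ w, R γ w = a • w → R γ (N w) = α • N w := by
    intro w hw
    rw [hN.2, hw, map_smul, smul_smul, hνa]
  set p := (-(B e f)⁻¹) • N f with hp
  have hpa : R γ p = a • p := by rw [hp, map_smul, hNf, smul_comm]
  have hNe : N e = 0 := by
    refine T.nd hB hnd ?_ ?_ ?_
    · rw [hsy]
      exact skew_self hsp hsy hN.1 e
    · have h1 := hsp N hN.1 e f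
      rwa [T.ew hB hNf, add_zero] at h1
    · intro w hw
      have h1 := hsp N hN.1 e w
      rwa [perp hB T.he (hNw w hw) (fun h => by
        have h2 : α * (α - β) = 0 := by linear_combination h - T.hαβ
        exact T.hne (sub_eq_zero.1 ((mul_eq_zero.1 h2).resolve_left T.α0))), add_zero] at h1
  have hNf' : N f = wg B e p f := by
    rw [wg_apply, hsy p f, T'.ew hB hpa, zero_smul, zero_sub, hp, smul_smul, ← neg_smul]
    have h1 : -(B e f * -(B e f)⁻¹) = 1 := by
      have := T.hef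
      field_simp
    rw [h1, one_smul]
  have hNw' : ∀ w, R γ w = a • w → N w = wg B e p w := by
    intro w hw
    rw [wg_apply, T.ew hB hw, zero_smul, sub_zero, ← sub_eq_zero]
    refine T.nd hB hnd ?_ ?_ ?_
    · rw [map_sub, map_smul, LinearMap.sub_apply, LinearMap.smul_apply, T.ee hB, smul_zero,
        sub_zero]
      have h1 := hsp N hN.1 w e
      rwa [hNe, map_zero, add_zero] at h1
    · rw [map_sub, map_smul, LinearMap.sub_apply, LinearMap.smul_apply, hp, map_smul,
        LinearMap.smul_apply, smul_eq_mul, smul_eq_mul]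
      have h1 := hsp N hN.1 w f
      rw [hsy w (N f)] at h1
      have h2 := T.hef
      have h3 : -(B e f)⁻¹ * B (N f) w * B e f = - B (N f) w := by field_simp
      rw [h3, sub_neg_eq_add]
      exact h1
    · intro w' hw'
      rw [map_sub, map_smul, LinearMap.sub_apply, LinearMap.smul_apply, T.ew hB hw', smul_zero,
        sub_zero]
      refine perp hB (hNw w hw) hw' fun h => ?_
      have h2 : α * (β - a) = 0 := by linear_combination T.hαβ - h
      exact T.βa (sub_eq_zero.1 ((mul_eq_zero.1 h2).resolve_left T.α0))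
  have hNp : N = wg B e p := by
    apply LinearMap.ext
    intro z
    obtain ⟨x, y, w, hw, rfl⟩ := T.dec z
    rw [map_add, map_add, map_smul, map_smul, map_add, map_add, map_smul, map_smul, hNe, ← hNf',
      ← hNw' w hw, wg_apply e p e, T.ee hB, hsy p e, T.ew hB hpa, zero_smul, zero_smul, sub_zero]
  exact ⟨p, ⟨hpa, by rw [← hNp]; exact hN.1⟩, hNp⟩

variable {k : ℕ} (hk : 0 < k) (hγ : R γ ^ k = 1)

include hsp hsy hnd hB hconj hk hγ in
/-- The image of `f`. -/
theorem Two.image_f (T : Two R χ B γ a α β e f) (ha : a ^ k = 1) {Y : End K X} (hY : Y ∈ L) :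
    ∃ y : K, ∃ p ∈ Pt R L B γ a e, Y f = y • f + p := by
  have hkK : (k : K) ≠ 0 := Nat.cast_ne_zero.2 hk.ne'
  have hf0 : f ≠ 0 := by
    rintro rfl
    exact T.hef (map_zero _)
  have he0 : e ≠ 0 := by
    rintro rfl
    exact T.hef (by rw [map_zero, LinearMap.zero_apply])
  have hfe : f ∈ eig R γ ⊤ β := mem_eig.2 ⟨Submodule.mem_top, T.hf⟩
  have hee : e ∈ eig R γ ⊤ α := mem_eig.2 ⟨Submodule.mem_top, T.he⟩
  have hβk : β ^ k = 1 := eig_root hγ (Submodule.ne_bot_iff _ |>.2 ⟨f, hfe, hf0⟩)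
  have hαk : α ^ k = 1 := eig_root hγ (Submodule.ne_bot_iff _ |>.2 ⟨e, hee, he0⟩)
  obtain ⟨x, y, w, hw, h1⟩ := T.dec (Y f)
  have T' := T.symm hsy
  have hx : x = 0 := by
    have h2 := skew_self hsp hsy hY f
    rw [h1, map_add, map_add, map_smul, map_smul, T'.ee hB, T'.ew hB hw, smul_zero, add_zero,
      add_zero, smul_eq_mul] at h2
    exact (mul_eq_zero.1 h2).resolve_right T'.hef
  rw [hx, zero_smul, zero_add] at h1
  refine ⟨y, w, ?_, h1⟩
  have hwe : w ∈ eig R γ ⊤ a := mem_eig.2 ⟨Submodule.mem_top, hw⟩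
  have h3 : avg R γ k (a * β⁻¹) Y f = (k : K) • w := by
    rw [avg_eig T.β0 hfe, h1, prj_add, prj_eig hβk ha T.a0 (Submodule.smul_mem _ y hfe),
      prj_eig ha ha T.a0 hwe, if_neg T.βa, if_pos rfl, zero_smul, zero_add]
  have h4 : avg R γ k (a * β⁻¹) Y ∈ Lnu R L γ (a * β⁻¹) :=
    avg_Lnu hconj hγ (by rw [mul_pow, inv_pow, ha, hβk, inv_one, mul_one])
      (mul_ne_zero T.a0 (inv_ne_zero T.β0)) hY
  obtain ⟨p, hp, h5⟩ := T.form hsp hsy hnd hB (by rw [inv_mul_cancel_right₀ T.β0]) h4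
  rw [h5, wg_apply, hsy p f, T'.ew hB hp.1, zero_smul, zero_sub] at h3
  have h6 : w = ((k : K)⁻¹ * (-B e f)) • p := by
    rw [mul_smul, neg_smul, h3, smul_smul, inv_mul_cancel₀ hkK, one_smul]
  rw [h6]
  exact Submodule.smul_mem _ _ hp

include hbr hsp hsy hnd hB hconj hk hγ in
/-- The image of the partners of `e`, if they are isotropic. -/
theorem Two.image_p (T : Two R χ B γ a α β e f) (ha : a ^ k = 1)
    (hiso : ∀ p ∈ Pt R L B γ a e, ∀ q ∈ Pt R L B γ a e, B p q = 0) {Y : End K X} (hY : Y ∈ L)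
    {p : X} (hp : p ∈ Pt R L B γ a e) : ∃ y : K, ∃ q ∈ Pt R L B γ a e, Y p = y • f + q := by
  have hkK : (k : K) ≠ 0 := Nat.cast_ne_zero.2 hk.ne'
  have hf0 : f ≠ 0 := by
    rintro rfl
    exact T.hef (map_zero _)
  have he0 : e ≠ 0 := by
    rintro rfl
    exact T.hef (by rw [map_zero, LinearMap.zero_apply])
  have hfe : f ∈ eig R γ ⊤ β := mem_eig.2 ⟨Submodule.mem_top, T.hf⟩
  have hee : e ∈ eig R γ ⊤ α := mem_eig.2 ⟨Submodule.mem_top, T.he⟩
  have hβk : β ^ k = 1 := eig_root hγ (Submodule.ne_bot_iff _ |>.2 ⟨f, hfe, hf0⟩)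
  have hαk : α ^ k = 1 := eig_root hγ (Submodule.ne_bot_iff _ |>.2 ⟨e, hee, he0⟩)
  obtain ⟨x, y, w, hw, h1⟩ := T.dec (Y p)
  have T' := T.symm hsy
  have hx : x = 0 := by
    obtain ⟨y', q, hq, h2⟩ := T.image_f hsp hsy hnd hB hconj hk hγ ha hY
    have h3 := hsp Y hY p f
    rw [h2, h1, hsy (x • e + y • f + w) f] at h3
    simp only [map_add, map_smul, smul_eq_mul] at h3
    rw [T'.ee hB, T'.ew hB hw, hsy p f, T'.ew hB hp.1, hiso p hp q hq] at h3
    have h4 : x * B f e = 0 := by linear_combination h3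
    exact (mul_eq_zero.1 h4).resolve_right T'.hef
  rw [hx, zero_smul, zero_add] at h1
  refine ⟨y, w, ?_, h1⟩
  have hwe : w ∈ eig R γ ⊤ a := mem_eig.2 ⟨Submodule.mem_top, hw⟩
  have hpe : p ∈ eig R γ ⊤ a := mem_eig.2 ⟨Submodule.mem_top, hp.1⟩
  have h3 : avg R γ k (a * a⁻¹) Y p = (k : K) • w := by
    rw [avg_eig T.a0 hpe, h1, prj_add, prj_eig hβk ha T.a0 (Submodule.smul_mem _ y hfe),
      prj_eig ha ha T.a0 hwe, if_neg T.βa, if_pos rfl, zero_smul, zero_add]
  rw [mul_inv_cancel₀ T.a0] at h3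
  have h4 : avg R γ k 1 Y ∈ Lnu R L γ 1 := avg_Lnu hconj hγ (one_pow _) one_ne_zero hY
  set Z := avg R γ k 1 Y with hZ
  -- the image of `e`
  obtain ⟨c, hc⟩ : ∃ c : K, Z e = c • e := by
    have h5 := Lnu_maps h4 hee
    rw [mul_one, mem_eig] at h5
    obtain ⟨x', y', w', hw', h6⟩ := T.dec (Z e)
    refine ⟨x', ?_⟩
    have h7 : Z e - x' • e = 0 := by
      refine T.nd hB hnd ?_ ?_ ?_
      · rw [map_sub, map_smul, LinearMap.sub_apply, LinearMap.smul_apply, T.ee hB, smul_zero,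
          sub_zero, hsy]
        exact skew_self hsp hsy h4.1 e
      · have h8 : Z e - x' • e = y' • f + w' := by rw [h6]; abel
        rw [h8, map_add, map_smul, LinearMap.add_apply, LinearMap.smul_apply, T'.ee hB, smul_zero,
          zero_add, hsy, T'.ew hB hw']
      · intro w'' hw''
        rw [map_sub, map_smul, LinearMap.sub_apply, LinearMap.smul_apply, T.ew hB hw'', smul_zero,
          sub_zero]
        refine perp hB h5.2 hw'' fun h => ?_
        have h2 : α * (β - a) = 0 := by linear_combination T.hαβ - h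
        exact T.βa (sub_eq_zero.1 ((mul_eq_zero.1 h2).resolve_left T.α0))
    exact sub_eq_zero.1 h7
  have h5 := wg_br hbr hsp h4.1 hp.2
  rw [hc, wg_smul_left] at h5
  have h6 := Submodule.sub_mem _ h5 (Submodule.smul_mem _ c hp.2)
  rw [add_sub_cancel_left, h3, wg_smul_right] at h6
  refine ⟨hw, ?_⟩
  have h7 := Submodule.smul_mem _ (k : K)⁻¹ h6
  rwa [smul_smul, inv_mul_cancel₀ hkK, one_smul] at h7

end

end Pool.Agent.TH118.OR
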