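import Mathlib
import Pool.Agent.TH118.OR.Two

/-!
# An element with two simple eigenvalues generates the orthogonal Lie algebra
-/

set_option linter.unusedSectionVars false

namespace Pool.Agent.TH118.OR

open Module Pool.Agent.W522.U Pool.Agent.TH125.Gal Pool.Agent.TH118.SG
open Pool.Agent.TH118.IS Pool.Agent.TH118.CR

variable {K : Type} [Field K] [CharZero K] [IsAlgClosed K] {X : Type} [AddCommGroup X] [Module K X]
  [FiniteDimensional K X] {Γ : Type} [Group Γ] {R : Representation K Γ X} {χ : Γ →* K}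
  {L : Submodule K (End K X)} {B : X →ₗ[K] X →ₗ[K] K} {γ : Γ} {a α β : K} {e f : X}

variable (hbr : ∀ Y ∈ L, ∀ Z ∈ L, Y * Z - Z * Y ∈ L)
  (hsp : ∀ Y ∈ L, ∀ u w, B (Y u) w + B u (Y w) = 0) (hsy : ∀ x y, B x y = B y x)
  (hnd : ∀ u, (∀ v, B u v = 0) → u = 0)
  (hB : ∀ g u v, B (R g u) (R g v) = χ g * B u v)
  (hconj : ∀ g : Γ, ∀ Y ∈ L, R g * Y * R g⁻¹ ∈ L)

section

variable (hPQ : ∀ w, R γ w = a • w → ∃ p ∈ Pt R L B γ a e, ∃ q ∈ Pt R L B γ a f, w = p + q)
  (hP : ∀ p ∈ Pt R L B γ a e, ∀ q ∈ Pt R L B γ a e, B p q = 0)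
  (hQ : ∀ p ∈ Pt R L B γ a f, ∀ q ∈ Pt R L B γ a f, B p q = 0)

include hsy hnd hB hPQ hP in
/-- The pairing of the two isotropic spaces. -/
theorem Two.pair (T : Two R χ B γ a α β e f) {p : X} (hp : p ∈ Pt R L B γ a e) (hp0 : p ≠ 0) :
    ∃ q ∈ Pt R L B γ a f, B p q ≠ 0 := by
  by_contra hcon
  push Not at hcon
  apply hp0
  refine T.nd hB hnd ?_ ?_ ?_
  · rw [hsy]
    exact T.ew hB hp.1
  · rw [hsy]
    exact (T.symm hsy).ew hB hp.1
  · intro w hw
    obtain ⟨p', hp', q', hq', rfl⟩ := hPQ w hw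
    rw [map_add, hP p hp p' hp', hcon q' hq', add_zero]

include hsy hnd hB hPQ hP in
theorem Two.contains (T : Two R χ B γ a α β e f) (h2 : 2 ≤ finrank K (Pt R L B γ a e))
    {V : Submodule K X} (hV : ∀ Y ∈ L, ∀ v ∈ V, Y v ∈ V) {v p q : X} {x y : K} (hv : v ∈ V)
    (hp : p ∈ Pt R L B γ a e) (hq : q ∈ Pt R L B γ a f) (hvv : v = x • e + y • f + (p + q))
    (hy : y ≠ 0) : f ∈ V ∧ Pt R L B γ a e ≤ V := by
  have T' := T.symm hsy
  obtain ⟨p1, hp1, hp10, hp1q⟩ : ∃ p1 ∈ Pt R L B γ a e, p1 ≠ 0 ∧ B q p1 = 0 := by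
    have h1 : LinearMap.ker ((B q) ∘ₗ (Pt R L B γ a e).subtype) ≠ ⊥ :=
      LinearMap.ker_ne_bot_of_finrank_lt (by rw [finrank_self]; omega)
    obtain ⟨u, hu, hu0⟩ := Submodule.exists_mem_ne_zero_of_ne_bot h1
    exact ⟨u, u.2, fun h => hu0 (Subtype.ext h), hu⟩
  have e1 : B p1 v = 0 := by
    rw [hvv]
    simp only [map_add, map_smul, smul_eq_mul]
    rw [hsy p1 e, T.ew hB hp1.1, hsy p1 f, T'.ew hB hp1.1, hP p1 hp1 p hp, hsy p1 q, hp1q]
    ring
  have e2 : B e v = y * B e f := by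
    rw [hvv]
    simp only [map_add, map_smul, smul_eq_mul]
    rw [T.ee hB, T.ew hB hp.1, T.ew hB hq.1]
    ring
  have hp1V : p1 ∈ V := by
    have h1 := hV _ hp1.2 v hv
    rw [wg_apply, e1, e2, zero_smul, zero_sub, ← neg_smul] at h1
    have h3 := Submodule.smul_mem _ (-(y * B e f))⁻¹ h1
    rwa [smul_smul, inv_mul_cancel₀ (neg_ne_zero.2 (mul_ne_zero hy T.hef)), one_smul] at h3
  obtain ⟨q1, hq1, hq11⟩ := T.pair hsy hnd hB hPQ hP hp1 hp10
  have hfV : f ∈ V := by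
    have h1 := hV _ hq1.2 p1 hp1V
    rw [wg_apply, T'.ew hB hp1.1, zero_smul, sub_zero, hsy] at h1
    have h3 := Submodule.smul_mem _ (B p1 q1)⁻¹ h1
    rwa [smul_smul, inv_mul_cancel₀ hq11, one_smul] at h3
  refine ⟨hfV, fun p2 hp2 => ?_⟩
  have h1 := hV _ hp2.2 f hfV
  rw [wg_apply, hsy p2 f, T'.ew hB hp2.1, zero_smul, zero_sub, ← neg_smul] at h1
  have h3 := Submodule.smul_mem _ (-(B e f))⁻¹ h1
  rwa [smul_smul, inv_mul_cancel₀ (neg_ne_zero.2 T.hef), one_smul] at h3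

include hsy hnd hB hPQ hP hQ in
/-- A stable subspace contains one of the two. -/
theorem Two.dichotomy (T : Two R χ B γ a α β e f) (h2 : 2 ≤ finrank K (Pt R L B γ a e))
    (h2' : 2 ≤ finrank K (Pt R L B γ a f))
    {V : Submodule K X} (hV : ∀ Y ∈ L, ∀ v ∈ V, Y v ∈ V) (hV0 : V ≠ ⊥) :
    (f ∈ V ∧ Pt R L B γ a e ≤ V) ∨ (e ∈ V ∧ Pt R L B γ a f ≤ V) := by
  have T' := T.symm hsy
  have hPQ' : ∀ w, R γ w = a • w → ∃ p ∈ Pt R L B γ a f, ∃ q ∈ Pt R L B γ a e, w = p + q := by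
    intro w hw
    obtain ⟨p, hp, q, hq, h⟩ := hPQ w hw
    exact ⟨q, hq, p, hp, by rw [h, add_comm]⟩
  have hF : ∀ v ∈ V, ∀ x y : K, ∀ p ∈ Pt R L B γ a e, ∀ q ∈ Pt R L B γ a f,
      v = x • e + y • f + (p + q) → y ≠ 0 → f ∈ V ∧ Pt R L B γ a e ≤ V :=
    fun v hv x y p hp q hq h hy => T.contains hsy hnd hB hPQ hP h2 hV hv hp hq h hy
  have hE : ∀ v ∈ V, ∀ x y : K, ∀ p ∈ Pt R L B γ a e, ∀ q ∈ Pt R L B γ a f,
      v = x • e + y • f + (p + q) → x ≠ 0 → e ∈ V ∧ Pt R L B γ a f ≤ V :=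
    fun v hv x y p hp q hq h hx => T'.contains hsy hnd hB hPQ' hQ h2' hV hv hq hp (x := y) (y := x)
      (by rw [h]; abel) hx
  obtain ⟨v, hv, hv0⟩ := Submodule.exists_mem_ne_zero_of_ne_bot hV0
  obtain ⟨x, y, w, hw, h1⟩ := T.dec v
  obtain ⟨p, hp, q, hq, rfl⟩ := hPQ w hw
  by_cases hy : y = 0
  swap
  · exact Or.inl (hF v hv x y p hp q hq h1 hy)
  by_cases hx : x = 0
  swap
  · exact Or.inr (hE v hv x y p hp q hq h1 hx)
  rw [hx, hy, zero_smul, zero_smul, zero_add, zero_add] at h1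
  by_cases hc1 : ∃ p1 ∈ Pt R L B γ a e, B p1 q ≠ 0
  · obtain ⟨p1, hp1, h3⟩ := hc1
    have h4 := hV _ hp1.2 v hv
    rw [wg_apply, h1, map_add, map_add, hP p1 hp1 p hp, zero_add, T.ew hB hp.1, T.ew hB hq.1,
      add_zero, zero_smul, sub_zero] at h4
    have h5 := Submodule.smul_mem _ (B p1 q)⁻¹ h4
    rw [smul_smul, inv_mul_cancel₀ h3, one_smul] at h5
    exact Or.inr (hE e h5 1 0 0 (Submodule.zero_mem _) 0 (Submodule.zero_mem _)
      (by rw [one_smul, zero_smul, add_zero, add_zero, add_zero]) one_ne_zero)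
  by_cases hc2 : ∃ q1 ∈ Pt R L B γ a f, B q1 p ≠ 0
  · obtain ⟨q1, hq1, h3⟩ := hc2
    have h4 := hV _ hq1.2 v hv
    rw [wg_apply, h1, map_add, map_add, hQ q1 hq1 q hq, add_zero, T'.ew hB hp.1, T'.ew hB hq.1,
      add_zero, zero_smul, sub_zero] at h4
    have h5 := Submodule.smul_mem _ (B q1 p)⁻¹ h4
    rw [smul_smul, inv_mul_cancel₀ h3, one_smul] at h5
    exact Or.inl (hF f h5 0 1 0 (Submodule.zero_mem _) 0 (Submodule.zero_mem _)
      (by rw [one_smul, zero_smul, add_zero, add_zero, zero_add]) one_ne_zero)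
  push Not at hc1 hc2
  exfalso
  apply hv0
  rw [h1]
  refine T.nd hB hnd ?_ ?_ ?_
  · rw [hsy, map_add, T.ew hB hp.1, T.ew hB hq.1, add_zero]
  · rw [hsy, map_add, T'.ew hB hp.1, T'.ew hB hq.1, add_zero]
  · intro w hw
    obtain ⟨p2, hp2, q2, hq2, rfl⟩ := hPQ w hw
    simp only [map_add, LinearMap.add_apply]
    rw [hP p hp p2 hp2, hsy p q2, hc2 q2 hq2, hsy q p2, hc1 p2 hp2, hQ q hq q2 hq2]
    ring

include hsy hnd hB hPQ hP in
theorem Two.finrank_le (T : Two R χ B γ a α β e f) :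
    finrank K (Pt R L B γ a e) ≤ finrank K (Pt R L B γ a f) := by
  let φ : Pt R L B γ a e →ₗ[K] Dual K (Pt R L B γ a f) :=
    (B.domRestrict₁₂ (Pt R L B γ a e) (Pt R L B γ a f))
  have h1 : Function.Injective φ := by
    rw [injective_iff_map_eq_zero]
    intro p hp
    by_contra hp0
    obtain ⟨q, hq, hpq⟩ := T.pair hsy hnd hB hPQ hP p.2 (fun h => hp0 (Subtype.ext h))
    apply hpq
    have h2 := congrArg (fun ψ => ψ (⟨q, hq⟩ : Pt R L B γ a f)) hp
    exact h2
  have h2 := LinearMap.finrank_le_finrank_of_injective h1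
  rwa [Subspace.dual_finrank_eq] at h2

theorem Two.finrank_sup (T : Two R χ B γ a α β e f) :
    finrank K (Submodule.span K {f} ⊔ Pt R L B γ a e : Submodule K X) =
      finrank K (Pt R L B γ a e) + 1 := by
  have h1 := Submodule.finrank_sup_add_finrank_inf_eq (Submodule.span K {f}) (Pt R L B γ a e)
  have h2 : Submodule.span K {f} ⊓ Pt R L B γ a e = ⊥ := by
    rw [eq_bot_iff]
    rintro u ⟨hu, hu'⟩
    obtain ⟨c, rfl⟩ := Submodule.mem_span_singleton.1 hu
    rw [Submodule.mem_bot]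
    have h3 := hu'.1
    rw [map_smul, T.hf] at h3
    have h4 : (β - a) • (c • f) = 0 := by
      rw [sub_smul, ← h3, smul_comm, sub_self]
    exact (smul_eq_zero.1 h4).resolve_left (sub_ne_zero.2 T.βa)
  have hf0 : f ≠ 0 := by
    rintro rfl
    exact T.hef (map_zero _)
  rw [h2, finrank_bot, add_zero, finrank_span_singleton hf0] at h1
  omega

end

variable {k : ℕ} (hk : 0 < k) (hγ : R γ ^ k = 1) (hX : SI R (⊤ : Submodule K X))

include hbr hsp hsy hnd hB hconj hk hγ hX in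
/-- The two isotropic spaces cannot span. -/
theorem Two.absurd (T : Two R χ B γ a α β e f) (ha : a ^ k = 1)
    (hPQ : ∀ w, R γ w = a • w → ∃ p ∈ Pt R L B γ a e, ∃ q ∈ Pt R L B γ a f, w = p + q)
    (hP : ∀ p ∈ Pt R L B γ a e, ∀ q ∈ Pt R L B γ a e, B p q = 0)
    (hQ : ∀ p ∈ Pt R L B γ a f, ∀ q ∈ Pt R L B γ a f, B p q = 0)
    (h3 : 3 ≤ finrank K (eig R γ (⊤ : Submodule K X) a)) : False := by
  classical
  have T' := T.symm hsy
  have hPQ' : ∀ w, R γ w = a • w → ∃ p ∈ Pt R L B γ a f, ∃ q ∈ Pt R L B γ a e, w = p + q := by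
    intro w hw
    obtain ⟨p, hp, q, hq, h⟩ := hPQ w hw
    exact ⟨q, hq, p, hp, by rw [h, add_comm]⟩
  have hle := T.finrank_le hsy hnd hB hPQ hP
  have hle' := T'.finrank_le hsy hnd hB hPQ' hQ
  have hsum : finrank K (eig R γ (⊤ : Submodule K X) a) ≤
      finrank K (Pt R L B γ a e) + finrank K (Pt R L B γ a f) := by
    refine le_trans (Submodule.finrank_mono ?_) (Submodule.finrank_add_le_finrank_add_finrank _ _)
    intro w hw
    obtain ⟨p, hp, q, hq, rfl⟩ := hPQ w (mem_eig.1 hw).2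
    exact Submodule.add_mem_sup hp hq
  set U2 : Submodule K X := Submodule.span K {f} ⊔ Pt R L B γ a e with hU2
  set U1 : Submodule K X := Submodule.span K {e} ⊔ Pt R L B γ a f with hU1
  have hd2 : finrank K U2 = finrank K (Pt R L B γ a e) + 1 := T.finrank_sup
  have hd1 : finrank K U1 = finrank K (Pt R L B γ a f) + 1 := T'.finrank_sup
  have hst : ∀ Y ∈ L, ∀ u ∈ U2, Y u ∈ U2 := by
    intro Y hY u hu
    obtain ⟨s, hs, p, hp, rfl⟩ := Submodule.mem_sup.1 hu
    obtain ⟨c, rfl⟩ := Submodule.mem_span_singleton.1 hs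
    obtain ⟨y, p', hp', h5⟩ := T.image_f hsp hsy hnd hB hconj hk hγ ha hY
    obtain ⟨y', q', hq', h6⟩ := T.image_p hbr hsp hsy hnd hB hconj hk hγ ha hP hY hp
    have hfU : f ∈ U2 := Submodule.mem_sup_left (Submodule.mem_span_singleton_self _)
    rw [map_add, map_smul, h5, h6]
    exact Submodule.add_mem _ (Submodule.smul_mem _ _ (Submodule.add_mem _
      (Submodule.smul_mem _ _ hfU) (Submodule.mem_sup_right hp')))
      (Submodule.add_mem _ (Submodule.smul_mem _ _ hfU) (Submodule.mem_sup_right hq'))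
  have hfU : f ∈ U2 := Submodule.mem_sup_left (Submodule.mem_span_singleton_self _)
  have hf0 : f ≠ 0 := by
    rintro rfl
    exact T.hef (map_zero _)
  have hmem : ∀ g, U2.map (R g) ∈ ({U1, U2} : Finset (Submodule K X)) := by
    intro g
    have h4 : ∀ Y ∈ L, ∀ v ∈ U2.map (R g), Y v ∈ U2.map (R g) := by
      rintro Y hY _ ⟨u, hu, rfl⟩
      have h5 := hconj g⁻¹ Y hY
      rw [inv_inv] at h5
      refine ⟨_, hst _ h5 u hu, ?_⟩
      rw [Module.End.mul_apply, Module.End.mul_apply, rinv]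
    have h5 : U2.map (R g) ≠ ⊥ := by
      intro h6
      have h7 : R g f ∈ U2.map (R g) := Submodule.mem_map_of_mem hfU
      rw [h6, Submodule.mem_bot] at h7
      apply hf0
      rw [← rinv' (R := R) g f, h7, map_zero]
    have h6 := finrank_map_r (R := R) g U2
    rw [Finset.mem_insert, Finset.mem_singleton]
    rcases T.dichotomy hsy hnd hB hPQ hP hQ (by omega) (by omega) h4 h5 with ⟨h7, h8⟩ | ⟨h7, h8⟩
    · right
      refine (Submodule.eq_of_le_of_finrank_le (sup_le ?_ h8) ?_).symm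
      · rw [Submodule.span_le, Set.singleton_subset_iff]
        exact h7
      · rw [h6]
    · left
      refine (Submodule.eq_of_le_of_finrank_le (sup_le ?_ h8) ?_).symm
      · rw [Submodule.span_le, Set.singleton_subset_iff]
        exact h7
      · rw [h6]
        change finrank K U2 ≤ finrank K U1
        omega
  rcases trivial_of_finite hX _ hmem with h | h
  · rw [h, Submodule.mem_bot] at hfU
    exact hf0 hfU
  · have h4 : e ∈ U2 := by rw [h]; exact Submodule.mem_top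
    obtain ⟨s, hs, p, hp, h5⟩ := Submodule.mem_sup.1 h4
    obtain ⟨c, rfl⟩ := Submodule.mem_span_singleton.1 hs
    apply T'.hef
    rw [← h5, map_add, map_smul, T'.ee hB, T'.ew hB hp.1, smul_zero, add_zero]

/-- eigenvectors for the eigenvalue `α` -/
theorem Two.eig_e (hnd : ∀ u, (∀ v, B u v = 0) → u = 0)
    (hB : ∀ g u v, B (R g u) (R g v) = χ g * B u v) (T : Two R χ B γ a α β e f) {u : X}
    (hu : R γ u = α • u) : ∃ c : K, u = c • e := by
  refine ⟨B u f / B e f, ?_⟩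
  rw [← sub_eq_zero]
  refine T.nd hB hnd ?_ ?_ ?_
  · rw [map_sub, map_smul, LinearMap.sub_apply, LinearMap.smul_apply, T.ee hB, smul_zero, sub_zero]
    refine perp hB hu T.he fun h => ?_
    have h1 : α * (α - β) = 0 := by linear_combination h - T.hαβ
    exact T.hne (sub_eq_zero.1 ((mul_eq_zero.1 h1).resolve_left T.α0))
  · rw [map_sub, map_smul, LinearMap.sub_apply, LinearMap.smul_apply, smul_eq_mul,
      div_mul_cancel₀ _ T.hef, sub_self]
  · intro w hw
    rw [map_sub, map_smul, LinearMap.sub_apply, LinearMap.smul_apply, T.ew hB hw, smul_zero,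
      sub_zero]
    refine perp hB hu hw fun h => ?_
    have h1 : α * (β - a) = 0 := by linear_combination T.hαβ - h
    exact T.βa (sub_eq_zero.1 ((mul_eq_zero.1 h1).resolve_left T.α0))

include hbr hsp hsy hnd hB hconj hk hγ hX in
/-- The partners span. -/
theorem Two.span (T : Two R χ B γ a α β e f)
    (hns : ∃ Y ∈ L, ¬∃ c : K, ∀ u : X, Y u = c • u) :
    ∀ w, R γ w = a • w → ∃ p ∈ Pt R L B γ a e, ∃ q ∈ Pt R L B γ a f, w = p + q := by
  have T' := T.symm hsy
  have he0 : e ≠ 0 := by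
    rintro rfl
    exact T.hef (by rw [map_zero, LinearMap.zero_apply])
  have h1 : finrank K (eig R γ (⊤ : Submodule K X) α) = 1 := by
    have h2 : eig R γ (⊤ : Submodule K X) α = Submodule.span K {e} := by
      ext u
      rw [mem_eig, Submodule.mem_span_singleton]
      constructor
      · rintro ⟨-, hu⟩
        obtain ⟨c, hc⟩ := T.eig_e hnd hB hu
        exact ⟨c, hc.symm⟩
      · rintro ⟨c, rfl⟩
        exact ⟨Submodule.mem_top, by rw [map_smul, T.he, smul_comm]⟩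
    rw [h2, finrank_span_singleton he0]
  have h2 := exists_Lnu hconj hk hγ hX hns h1
  have h3 := le_W0 hconj hbr hk hγ hnd hB T.ha hsp hX h2
  intro w hw
  have h4 : w ∈ W0 R L γ a := h3 (mem_eig.2 ⟨Submodule.mem_top, hw⟩)
  have h5 : W0 R L γ a ≤ Pt R L B γ a e ⊔ Pt R L B γ a f := by
    rw [W0, Submodule.span_le]
    rintro _ ⟨ν, hν, hν0, N, hN, u, hu, rfl⟩
    have hu' := (mem_eig.1 hu).2
    by_cases hμα : a * ν⁻¹ = α
    · rw [hμα] at hu'
      obtain ⟨c, rfl⟩ := T.eig_e hnd hB hu'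
      obtain ⟨q, hq, rfl⟩ := T'.form hsp hsy hnd hB (ν := ν) (by rw [← hμα]; field_simp) hN
      refine Submodule.mem_sup_right ?_
      rw [map_smul, wg_apply, hsy q e, T.ew hB hq.1, zero_smul, zero_sub, ← neg_smul]
      exact Submodule.smul_mem _ _ (Submodule.smul_mem _ _ hq)
    by_cases hμβ : a * ν⁻¹ = β
    · rw [hμβ] at hu'
      obtain ⟨c, rfl⟩ := T'.eig_e hnd hB hu'
      obtain ⟨q, hq, rfl⟩ := T.form hsp hsy hnd hB (ν := ν) (by rw [← hμβ]; field_simp) hN
      refine Submodule.mem_sup_left ?_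
      rw [map_smul, wg_apply, hsy q f, T'.ew hB hq.1, zero_smul, zero_sub, ← neg_smul]
      exact Submodule.smul_mem _ _ (Submodule.smul_mem _ _ hq)
    have hu0 : u = 0 := by
      refine T.nd hB hnd ?_ ?_ ?_
      · refine perp hB hu' T.he fun h => hμβ ?_
        have h6 : α * (a * ν⁻¹ - β) = 0 := by linear_combination h - T.hαβ
        exact sub_eq_zero.1 ((mul_eq_zero.1 h6).resolve_left T.α0)
      · refine perp hB hu' T.hf fun h => hμα ?_
        have h6 : β * (a * ν⁻¹ - α) = 0 := by linear_combination h - T.hαβ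
        exact sub_eq_zero.1 ((mul_eq_zero.1 h6).resolve_left T.β0)
      · intro w hw
        refine perp hB hu' hw fun h => hν ?_
        have h6 : a * (a * ν⁻¹ - a) = 0 := by linear_combination h - T.ha
        have h7 := sub_eq_zero.1 ((mul_eq_zero.1 h6).resolve_left T.a0)
        have h8 : a * (1 - ν) = 0 := by
          have h9 : a = a * ν := by
            nth_rw 1 [← inv_mul_cancel_right₀ hν0 a]
            rw [h7]
          linear_combination h9
        have h9 := (mul_eq_zero.1 h8).resolve_left T.a0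
        exact (sub_eq_zero.1 h9).symm
    rw [hu0, map_zero]
    exact Submodule.zero_mem _
  obtain ⟨p, hp, q, hq, h6⟩ := Submodule.mem_sup.1 (h5 h4)
  exact ⟨p, hp, q, hq, h6.symm⟩

include hbr hsp hsy hnd hB hconj hk hγ hX in
/-- **The orthogonal Lie algebra from an element with two simple eigenvalues.** -/
theorem Two.full (T : Two R χ B γ a α β e f)
    (hns : ∃ Y ∈ L, ¬∃ c : K, ∀ u : X, Y u = c • u)
    (h3 : 3 ≤ finrank K (eig R γ (⊤ : Submodule K X) a)) : ∀ x y, wg B x y ∈ L := by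
  have T' := T.symm hsy
  have he0 : e ≠ 0 := by
    rintro rfl
    exact T.hef (by rw [map_zero, LinearMap.zero_apply])
  have hf0 : f ≠ 0 := by
    rintro rfl
    exact T.hef (map_zero _)
  have ha : a ^ k = 1 := by
    refine eig_root (U := (⊤ : Submodule K X)) hγ fun h => ?_
    rw [h, finrank_bot] at h3
    omega
  by_cases hc1 : ∃ p ∈ Pt R L B γ a e, B p p ≠ 0
  · obtain ⟨p, hp, hpp⟩ := hc1
    exact full_so hbr hsp hsy hnd hB hconj hX he0 (T.ee hB) (T.ew hB hp.1) hpp hp.2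
  by_cases hc2 : ∃ p ∈ Pt R L B γ a f, B p p ≠ 0
  · obtain ⟨p, hp, hpp⟩ := hc2
    exact full_so hbr hsp hsy hnd hB hconj hX hf0 (T'.ee hB) (T'.ew hB hp.1) hpp hp.2
  exfalso
  push Not at hc1 hc2
  have hpol : ∀ S : Submodule K X, (∀ p ∈ S, B p p = 0) → ∀ p ∈ S, ∀ q ∈ S, B p q = 0 := by
    intro S hS p hp q hq
    have h4 := hS _ (Submodule.add_mem _ hp hq)
    rw [map_add, map_add, LinearMap.add_apply, LinearMap.add_apply, hS p hp, hS q hq,
      hsy q p] at h4
    have h5 : (2 : K) * B p q = 0 := by linear_combination h4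
    exact (mul_eq_zero.1 h5).resolve_left two_ne_zero
  exact T.absurd hbr hsp hsy hnd hB hconj hk hγ hX ha
    (T.span hbr hsp hsy hnd hB hconj hk hγ hX hns) (hpol _ hc1) (hpol _ hc2) h3

end Pool.Agent.TH118.OR
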