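import Mathlib
import Pool.Agent.TH118.OR.Gen
import Pool.Agent.TH118.OR.Two2

/-!
# The Zariski closure contains the special orthogonal group and the scalars
-/

set_option linter.unusedSectionVars false

namespace Pool.Agent.TH118.OR

open Module Finset Function Pool.Agent.TH125.Gal Pool.Agent.TH118.SG Pool.Agent.TH118.ZC

section defs

variable {K : Type} [Field K] {T : Type} [AddCommGroup T] [Module K T]

/-- The proper similitudes of the form `B`: the products of scalars different from zero and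
isometries of determinant one. -/
def properSimilitudes (B : T →ₗ[K] T →ₗ[K] K) : Set (End K T) :=
  {x | ∃ (z : K) (s : End K T), z ≠ 0 ∧ (∀ u v, B (s u) (s v) = B u v) ∧ LinearMap.det s = 1 ∧
    x = z • s}

end defs

variable {K : Type} [Field K] [CharZero K] [IsAlgClosed K] {T : Type} [AddCommGroup T]
  [Module K T] [FiniteDimensional K T] {G : Type} [Group G]
  {B : T →ₗ[K] T →ₗ[K] K} {ρ : G →* (T →ₗ[K] T)} {χ : G →* K} {ι : Type} [Fintype ι]
  (b : Basis ι K T)

/-- The closure of the image of a subgroup, as a monoid. -/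
def clM (ρ : G →* (T →ₗ[K] T)) (Δ : Subgroup G) : Submonoid (End K T) where
  carrier := zariskiClosure b (ρ '' Δ)
  one_mem' := subset_zc b _ ⟨1, Δ.one_mem, map_one ρ⟩
  mul_mem' := by
    intro x y hx hy
    refine zc_mul b ?_ hx hy
    rintro _ ⟨g, hg, rfl⟩ _ ⟨g', hg', rfl⟩
    exact ⟨g * g', Δ.mul_mem hg hg', map_mul ρ g g'⟩

theorem mem_clM {Δ : Subgroup G} {x : End K T} :
    x ∈ clM b ρ Δ ↔ x ∈ zariskiClosure b (ρ '' Δ) := Iff.rfl

/-- Tori in the closure are in the closure of the subgroups of finite index. -/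
theorem torus_index {e f : T} {Δ : Subgroup G} (hΔ : Δ.FiniteIndex)
    (h : ∀ t : K, t ≠ 0 → tor B e f t ∈ zariskiClosure b (Set.range ρ)) {t : K} (ht : t ≠ 0) :
    tor B e f t ∈ clM b ρ Δ := by
  classical
  have := hΔ
  have : Fintype (G ⧸ Δ) := Subgroup.fintypeQuotientOfFiniteIndex
  have hinf : Infinite ({0}ᶜ : Set K) := (Set.finite_singleton (0 : K)).infinite_compl.to_subtype
  choose q hq using fun t : ({0}ᶜ : Set K) => exists_coset b hΔ (h t t.2)
  obtain ⟨q₀, hq₀⟩ := Finite.exists_infinite_fiber q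
  have h1 : (q ⁻¹' {q₀}).Infinite := Set.infinite_coe_iff.1 hq₀
  have h1' : ((fun t : ({0}ᶜ : Set K) => (t : K)) '' (q ⁻¹' {q₀})).Infinite :=
    h1.image Subtype.val_injective.injOn
  set g := Quotient.out q₀ with hg
  have h2 : ∀ t : K, t ≠ 0 → ρ g⁻¹ * tor B e f t ∈ zariskiClosure b (ρ '' Δ) := by
    intro t ht
    refine curve_subset b h1' ?_ ht
    rintro _ ⟨s, hs, rfl⟩ _
    have h3 := hq s
    have h4 : q s = q₀ := hs
    rw [h4] at h3
    exact h3
  have h3 := h2 1 one_ne_zero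
  have h31 : tor B e f 1 = 1 := by
    apply LinearMap.ext
    intro x
    rw [tor_apply, sub_self, inv_one, sub_self, zero_mul, zero_mul, zero_smul, zero_smul, add_zero,
      add_zero]
    rfl
  rw [h31, mul_one] at h3
  obtain ⟨n, hn, hgn⟩ := exists_pow hΔ g
  have h4 : ρ g ∈ clM b ρ Δ := by
    have h5 : ρ g⁻¹ ^ (n - 1) ∈ clM b ρ Δ := Submonoid.pow_mem _ (mem_clM b |>.2 h3) _
    have h6 : ρ g = ρ (g ^ n) * ρ g⁻¹ ^ (n - 1) := by
      rw [← map_pow, ← map_mul, inv_pow]
      congr 1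
      obtain ⟨m, rfl⟩ : ∃ m, n = m + 1 := ⟨n - 1, by omega⟩
      rw [Nat.add_sub_cancel, pow_succ']
      group
    rw [h6]
    exact Submonoid.mul_mem _ (subset_zc b _ ⟨_, hgn, rfl⟩) h5
  have h6 : tor B e f t = ρ g * (ρ g⁻¹ * tor B e f t) := by
    rw [← mul_assoc, ← map_mul, mul_inv_cancel, map_one, one_mul]
  rw [h6]
  exact Submonoid.mul_mem _ h4 (h2 t ht)

/-- the square of an isometry has determinant one -/
theorem det_sq (hsy : ∀ x y, B x y = B y x) (hnd : ∀ u, (∀ v, B u v = 0) → u = 0)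
    {s : End K T} (hs : ∀ x y, B (s x) (s y) = B x y) : LinearMap.det (s * s) = 1 := by
  have hinv : Invertible (2 : K) := invertibleOfNonzero two_ne_zero
  obtain ⟨v, hv⟩ := LinearMap.BilinForm.exists_orthogonal_basis (B := B)
    ⟨fun x y => hsy x y⟩
  have hv' : ∀ i j, i ≠ j → B (v i) (v j) = 0 := fun i j hij => hv hij
  have hv0 : ∀ i, B (v i) (v i) ≠ 0 := by
    intro i h
    apply v.ne_zero i
    refine hnd _ fun w => ?_
    rw [← v.sum_repr w, map_sum]
    refine Finset.sum_eq_zero fun j _ => ?_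
    rw [map_smul]
    by_cases hij : i = j
    · subst hij
      rw [h, smul_zero]
    · rw [hv' i j hij, smul_zero]
  obtain ⟨l, hl, hfix⟩ := exists_list hsy v hv' hv0 hs (finrank K T) le_rfl
  have h1 : (l.map (refl B)).prod * s = 1 := v.ext fun i => hfix i i.2
  have h2 := prod_det hl
  have h3 := congrArg LinearMap.det h1
  rw [map_mul, h2, map_one] at h3
  have h4 : LinearMap.det s = (-1 : K) ^ l.length := by
    have h5 : (-1 : K) ^ l.length * (-1) ^ l.length = 1 := by
      rw [← mul_pow]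
      norm_num
    calc LinearMap.det s = ((-1 : K) ^ l.length * (-1) ^ l.length) * LinearMap.det s := by
          rw [h5, one_mul]
      _ = (-1) ^ l.length := by rw [mul_assoc, h3, mul_one]
  rw [map_mul, h4, ← mul_pow]
  norm_num

/-- **The Zariski closure of a subgroup of finite index contains all proper similitudes.** -/
theorem proper_subset (hsy : ∀ x y, B x y = B y x) (hnd : ∀ u, (∀ v, B u v = 0) → u = 0)
    (hB : ∀ g x y, B (ρ g x) (ρ g y) = χ g * B x y) (hχ : (Set.range χ).Infinite)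
    (hall : ∀ (D : ℕ) (x y : T), wg B x y ∈ L0 B ρ (sig ρ b D))
    {Δ : Subgroup G} (hΔ : Δ.FiniteIndex) : properSimilitudes B ⊆ zariskiClosure b (ρ '' Δ) := by
  have htor : ∀ e f, B e e = 0 → B f f = 0 → B e f = 1 → ∀ t : K, t ≠ 0 →
      tor B e f t ∈ clM b ρ Δ := by
    intro e f he hf hef t ht
    refine torus_index b hΔ (fun t ht => ?_) ht
    exact torus_mem b he hf hef (by rw [hsy]; exact hef) (fun D => hall (D + 1) e f) ht
  have hso : ∀ s : End K T, (∀ u v, B (s u) (s v) = B u v) → LinearMap.det s = 1 →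
      s ∈ clM b ρ Δ := fun s hs hdet =>
    so_mem hsy hnd (clM b ρ Δ) (fun u v hu hv => pair_mem' hsy hnd _ htor hu hv) hs hdet
  rintro x ⟨z, s, hz, hs, hdet, rfl⟩
  have h0 : z • s = 0 + z • s := (zero_add _).symm
  rw [h0]
  refine line_subset b (S := χ '' Δ) (infinite_image hχ hΔ) ?_ z
  rintro _ ⟨g, hg, rfl⟩
  rw [zero_add]
  have hχg : χ g ≠ 0 := χne' χ g
  obtain ⟨c, hc⟩ := IsAlgClosed.exists_pow_nat_eq (χ g) (n := 2) (by norm_num)
  have hχg' : χ g * χ g⁻¹ = 1 := by rw [← map_mul, mul_inv_cancel, map_one]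
  set k : End K T := c • ρ g⁻¹ with hk
  have hkB : ∀ x y, B (k x) (k y) = B x y := by
    intro x y
    rw [hk, LinearMap.smul_apply, LinearMap.smul_apply, map_smul, map_smul, LinearMap.smul_apply,
      hB, smul_eq_mul, smul_eq_mul]
    linear_combination (χ g⁻¹ * B x y) * hc + B x y * hχg'
  have h1 : k * k * s ∈ clM b ρ Δ := by
    refine hso _ (fun x y => ?_) ?_
    · rw [Module.End.mul_apply, Module.End.mul_apply, Module.End.mul_apply, Module.End.mul_apply,
        hkB, hkB, hs]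
    · rw [map_mul, det_sq hsy hnd hkB, hdet, one_mul]
  have h2 : ρ (g * g) ∈ clM b ρ Δ := subset_zc b _ ⟨_, Δ.mul_mem hg hg, rfl⟩
  have h3 := Submonoid.mul_mem _ h2 h1
  have h4 : ρ (g * g) * (k * k * s) = χ g • s := by
    apply LinearMap.ext
    intro x
    have h5 : ∀ y, ρ g (ρ g⁻¹ y) = y := fun y => Pool.Agent.TH118.SG.rinv g y
    simp only [hk, map_mul, Module.End.mul_apply, LinearMap.smul_apply, map_smul, h5]
    rw [smul_smul, ← pow_two, hc]
  rw [h4] at h3
  exact h3

/-- Some element of finite order has exactly two other eigenvalues, which are simple and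
different. -/
def HasTwoSimple (ρ : Representation K G T) (χ : G →* K) : Prop :=
  ∃ γ : G, (∃ k : ℕ, 0 < k ∧ ρ γ ^ k = 1) ∧ ∃ a α β : K, a * a = χ γ ∧ α * β = χ γ ∧ α ≠ β ∧
    Module.End.eigenspace (ρ γ) α ≠ ⊥ ∧ Module.End.eigenspace (ρ γ) β ≠ ⊥ ∧
    finrank K (Module.End.eigenspace (ρ γ) a) + 2 = finrank K T

/-- Some element is unipotent with one Jordan block of size three and all others of size one. -/
def HasBlockThree (ρ : Representation K G T) (χ : G →* K) : Prop :=
  ∃ γ : G, χ γ = 1 ∧ (ρ γ - 1) ^ 3 = 0 ∧ (ρ γ - 1) ^ 2 ≠ 0 ∧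
    finrank K (LinearMap.range (ρ γ - 1)) ≤ 2

/-- The decomposition given by an element with two simple eigenvalues. -/
theorem exists_two (hnd : ∀ u, (∀ v, B u v = 0) → u = 0)
    (hB : ∀ g x y, B (ρ g x) (ρ g y) = χ g * B x y) {γ : G} {a α β : K} (ha : a * a = χ γ)
    (hαβ : α * β = χ γ) (hne : α ≠ β) (hα : Module.End.eigenspace (ρ γ) α ≠ ⊥)
    (hβ : Module.End.eigenspace (ρ γ) β ≠ ⊥)
    (hd : finrank K (Module.End.eigenspace (ρ γ) a) + 2 = finrank K T) :
    ∃ e f, Two (X := T) ρ χ B γ a α β e f := by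
  obtain ⟨e, he, he0⟩ := Submodule.exists_mem_ne_zero_of_ne_bot hα
  obtain ⟨f, hf, hf0⟩ := Submodule.exists_mem_ne_zero_of_ne_bot hβ
  rw [Module.End.mem_eigenspace_iff] at he hf
  have hχ : χ γ ≠ 0 := χne' χ γ
  have hα0 : α ≠ 0 := left_ne_zero_of_mul (hαβ.trans_ne hχ)
  have hβ0 : β ≠ 0 := right_ne_zero_of_mul (hαβ.trans_ne hχ)
  have hαa : α - a ≠ 0 := by
    intro h
    have h1 : α = a := sub_eq_zero.1 h
    apply hne
    have h2 : α * (α - β) = 0 := by
      rw [mul_sub, hαβ, ← ha, h1, sub_self]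
    exact sub_eq_zero.1 ((mul_eq_zero.1 h2).resolve_left hα0)
  have hβa : β - a ≠ 0 := by
    intro h
    have h1 : β = a := sub_eq_zero.1 h
    apply hne
    have h2 : β * (α - β) = 0 := by
      rw [mul_sub, mul_comm β α, hαβ, ← ha, h1, sub_self]
    exact sub_eq_zero.1 ((mul_eq_zero.1 h2).resolve_left hβ0)
  have hli : LinearIndependent K ![e, f] := by
    rw [LinearIndependent.pair_iff]
    intro s t hst
    have h1 := congrArg (ρ γ) hst
    rw [map_add, map_smul, map_smul, he, hf, map_zero] at h1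
    have h2 : (t * (β - α)) • f = 0 := by
      have h3 : s • α • e + t • β • f - α • (s • e + t • f) = (t * (β - α)) • f := by module
      rw [← h3, h1, hst, smul_zero, sub_zero]
    have ht : t = 0 := by
      rcases mul_eq_zero.1 ((smul_eq_zero.1 h2).resolve_right hf0) with h | h
      · exact h
      · exact absurd (sub_eq_zero.1 h).symm hne
    rw [ht, zero_smul, add_zero] at hst
    exact ⟨(smul_eq_zero.1 hst).resolve_right he0, ht⟩
  have hinf : Submodule.span K {e, f} ⊓ Module.End.eigenspace (ρ γ) a = ⊥ := by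
    rw [eq_bot_iff]
    rintro x ⟨hx, hx'⟩
    obtain ⟨s, t, rfl⟩ := Submodule.mem_span_pair.1 hx
    rw [SetLike.mem_coe, Module.End.mem_eigenspace_iff, map_add, map_smul, map_smul, he, hf] at hx'
    have h1 : (s * (α - a)) • e + (t * (β - a)) • f = 0 := by
      have h3 : (s * (α - a)) • e + (t * (β - a)) • f =
        s • α • e + t • β • f - a • (s • e + t • f) := by module
      rw [h3, hx', sub_self]
    obtain ⟨h2, h3⟩ := LinearIndependent.pair_iff.1 hli _ _ h1
    have hs : s = 0 := (mul_eq_zero.1 h2).resolve_right hαa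
    have ht : t = 0 := (mul_eq_zero.1 h3).resolve_right hβa
    rw [Submodule.mem_bot, hs, ht, zero_smul, zero_smul, add_zero]
  have hspan : finrank K (Submodule.span K {e, f}) = 2 := by
    have h2 := finrank_span_eq_card hli
    rwa [Fintype.card_fin, Matrix.range_cons, Matrix.range_cons, Matrix.range_empty,
      Set.union_empty, Set.singleton_union] at h2
  have htop : Submodule.span K {e, f} ⊔ Module.End.eigenspace (ρ γ) a = ⊤ := by
    refine Submodule.eq_top_of_finrank_eq ?_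
    have h1 := Submodule.finrank_sup_add_finrank_inf_eq (Submodule.span K {e, f})
      (Module.End.eigenspace (ρ γ) a)
    rw [hinf, finrank_bot, hspan] at h1
    omega
  have hdec : ∀ z, ∃ x y : K, ∃ w, ρ γ w = a • w ∧ z = x • e + y • f + w := by
    intro z
    have h1 : z ∈ Submodule.span K {e, f} ⊔ Module.End.eigenspace (ρ γ) a := by
      rw [htop]
      exact Submodule.mem_top
    obtain ⟨u, hu, w, hw, rfl⟩ := Submodule.mem_sup.1 h1
    obtain ⟨x, y, rfl⟩ := Submodule.mem_span_pair.1 hu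
    exact ⟨x, y, w, Module.End.mem_eigenspace_iff.1 hw, rfl⟩
  refine ⟨e, f, ⟨he, hf, hαβ, ha, hne, ?_, hdec⟩⟩
  intro hef
  apply he0
  refine hnd e fun v => ?_
  obtain ⟨x, y, w, hw, rfl⟩ := hdec v
  have h1 : B e e = 0 := by
    refine perp (R := ρ) hB he he fun h => hne ?_
    have h2 : α * (α - β) = 0 := by linear_combination h - hαβ
    exact sub_eq_zero.1 ((mul_eq_zero.1 h2).resolve_left hα0)
  have h2 : B e w = 0 := by
    refine perp (R := ρ) hB he hw fun h => hβa ?_
    have h2 : α * (β - a) = 0 := by linear_combination hαβ - h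
    exact (mul_eq_zero.1 h2).resolve_left hα0
  rw [map_add, map_add, map_smul, map_smul, h1, hef, h2, smul_zero, smul_zero, add_zero, add_zero]

variable {E : Type} [AddCommGroup E] [Module K E] [FiniteDimensional K E] {σ : G →* (E →ₗ[K] E)}

/-- The whole orthogonal Lie algebra from an element of finite order. -/
theorem two_all (hsy : ∀ x y, B x y = B y x) (hnd : ∀ u, (∀ v, B u v = 0) → u = 0)
    (hB : ∀ g x y, B (ρ g x) (ρ g y) = χ g * B x y)
    (hX : Pool.Agent.W522.U.SI (X := T) ρ (⊤ : Submodule K T)) (h5 : 5 ≤ finrank K T)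
    (h : HasTwoSimple (T := T) ρ χ) (hF : HasHyperbolic (T := T) ρ) (x y : T) :
    wg B x y ∈ L0 B ρ σ := by
  obtain ⟨γ, ⟨k, hk, hγ⟩, a, α, β, ha, hαβ, hne, hα, hβ, hd⟩ := h
  obtain ⟨F, u, v, l, m, hu0, hv0, hu, hv, hlm⟩ := hF
  obtain ⟨e, f, S⟩ := exists_two hnd hB ha hαβ hne hα hβ hd
  have hB0 : ∃ y, B u y ≠ 0 := by
    by_contra hcon
    push Not at hcon
    exact hu0 (hnd u hcon)
  have he0 : e ≠ 0 := by
    rintro rfl
    exact S.hef (by rw [map_zero, LinearMap.zero_apply])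
  have hα1 : finrank K (Pool.Agent.TH118.IS.eig (X := T) ρ γ ⊤ α) = 1 := by
    have h2 : Pool.Agent.TH118.IS.eig (X := T) ρ γ (⊤ : Submodule K T) α =
        Submodule.span K {e} := by
      ext u
      rw [Pool.Agent.TH118.IS.mem_eig, Submodule.mem_span_singleton]
      constructor
      · rintro ⟨-, hu⟩
        obtain ⟨c, hc⟩ := S.eig_e hnd hB hu
        exact ⟨c, hc.symm⟩
      · rintro ⟨c, rfl⟩
        exact ⟨Submodule.mem_top, by rw [map_smul, S.he, smul_comm]⟩
    rw [h2, finrank_span_singleton he0]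
  obtain ⟨Y, hY, hYn⟩ := exists_PA (σ := σ) (χ := χ) hB F hu0 hv0 hu hv hlm
  obtain ⟨ν, hν, hνb⟩ := exists_Lnu (R := ρ) (L := LA B ρ σ) (γ := γ)
    (fun g Y hY => LA_conj (χ := χ) hB g Y hY) hk hγ hX ⟨Y, hY, hYn⟩ hα1
  obtain ⟨N, hN, hN0⟩ := Submodule.exists_mem_ne_zero_of_ne_bot hνb
  have hNL : N ∈ L0 B ρ σ := L0_of_Lnu (χ := χ) hB ⟨u, hB0⟩ hν hN
  have hns : ∃ Y ∈ L0 B ρ σ, ¬∃ c : K, ∀ u : T, Y u = c • u := by
    refine ⟨N, hNL, ?_⟩
    rintro ⟨c, hc⟩
    apply hN0
    have hc0 : c = 0 := by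
      obtain ⟨y, hy⟩ := hB0
      have h3 := L0_skew N hNL u y
      rw [hc, hc, map_smul, map_smul, LinearMap.smul_apply, smul_eq_mul] at h3
      have h4 : (2 * c) * B u y = 0 := by linear_combination h3
      exact (mul_eq_zero.1 ((mul_eq_zero.1 h4).resolve_right hy)).resolve_left two_ne_zero
    apply LinearMap.ext
    intro z
    rw [hc, hc0, zero_smul, LinearMap.zero_apply]
  refine S.full (L := L0 B ρ σ) L0_bracket L0_skew hsy hnd hB (L0_conj hB) hk hγ hX hns ?_ x y
  have h6 : Pool.Agent.TH118.IS.eig (X := T) ρ γ (⊤ : Submodule K T) a =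
      Module.End.eigenspace (ρ γ) a := top_inf_eq _
  rw [h6]
  omega

/-- The whole orthogonal Lie algebra from a unipotent element. -/
theorem three_all (hsy : ∀ x y, B x y = B y x) (hnd : ∀ u, (∀ v, B u v = 0) → u = 0)
    (hB : ∀ g x y, B (ρ g x) (ρ g y) = χ g * B x y)
    (hX : Pool.Agent.W522.U.SI (X := T) ρ (⊤ : Submodule K T))
    (h : HasBlockThree (T := T) ρ χ) (D : ℕ) (x y : T) :
    wg B x y ∈ L0 B ρ (sig ρ b D) := by
  obtain ⟨γ, hχ, hZ3, hZ2, hrk⟩ := h
  set Z : End K T := ρ γ - 1 with hZ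
  have hg : ∀ x, ρ γ x = x + Z x := by
    intro x
    rw [hZ, LinearMap.sub_apply, Module.End.one_apply]
    abel
  have h3 : ∀ x, Z (Z (Z x)) = 0 := by
    intro x
    have h1 := LinearMap.congr_fun hZ3 x
    rwa [pow_succ, pow_two, Module.End.mul_apply, Module.End.mul_apply, LinearMap.zero_apply] at h1
  obtain ⟨x0, hx0⟩ : ∃ x, Z (Z x) ≠ 0 := by
    by_contra hcon
    push Not at hcon
    apply hZ2
    apply LinearMap.ext
    intro x
    rw [pow_two, Module.End.mul_apply, hcon, LinearMap.zero_apply]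
  have hL := unip_L0 (σ := sig ρ b D) (B := B) hg h3 (fun x y => by rw [hB, hχ, one_mul])
    (sig_unip (b := b) hg hZ3 D)
  set N : End K T := Z - (2 : K)⁻¹ • (Z * Z) with hN
  have hNa : ∀ x, N x = Z x - (2 : K)⁻¹ • Z (Z x) := fun _ => rfl
  have hNN : ∀ x, N (N x) = Z (Z x) := by
    intro x
    rw [hNa, hNa]
    simp only [map_sub, map_smul, h3, smul_zero, sub_zero]
  refine nilp_full (R := ρ) (χ := χ) L0_bracket L0_skew hsy hnd hB (L0_conj hB) hX hL
    (fun x => ?_) ⟨x0, ?_⟩ ?_ x y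
  · rw [hNN, hNa]
    simp only [map_sub, map_smul, h3, smul_zero, sub_zero]
  · rw [hNN]
    exact hx0
  · refine le_trans (Submodule.finrank_mono ?_) hrk
    rintro _ ⟨x, rfl⟩
    refine ⟨x - (2 : K)⁻¹ • Z x, ?_⟩
    rw [map_sub, map_smul]
    rfl

/-- In odd dimension all similitudes are proper. -/
theorem sim_proper (hsy : ∀ x y, B x y = B y x) (hnd : ∀ u, (∀ v, B u v = 0) → u = 0)
    (hodd : Odd (finrank K T)) : similitudes B ⊆ properSimilitudes B := by
  rintro x ⟨c, hc0, hx⟩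
  obtain ⟨z, hz⟩ := IsAlgClosed.exists_pow_nat_eq c (n := 2) (by norm_num)
  have hz0 : z ≠ 0 := by
    rintro rfl
    apply hc0
    rw [← hz]
    norm_num
  set s : End K T := z⁻¹ • x with hs
  have hsB : ∀ u v, B (s u) (s v) = B u v := by
    intro u v
    rw [hs, LinearMap.smul_apply, LinearMap.smul_apply, map_smul, map_smul, LinearMap.smul_apply,
      hx, smul_eq_mul, smul_eq_mul, ← hz]
    field_simp
  have hxs : x = z • s := by
    rw [hs, smul_smul, mul_inv_cancel₀ hz0, one_smul]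
  have hdet := det_sq hsy hnd hsB
  rw [map_mul] at hdet
  rcases mul_self_eq_one_iff.1 hdet with h | h
  · exact ⟨z, s, hz0, hsB, h, hxs⟩
  · refine ⟨-z, -s, neg_ne_zero.2 hz0, fun u v => ?_, ?_, ?_⟩
    · rw [LinearMap.neg_apply, LinearMap.neg_apply, map_neg, map_neg, LinearMap.neg_apply,
        neg_neg, hsB]
    · have h1 : -s = (-1 : K) • s := by rw [neg_one_smul]
      rw [h1, LinearMap.det_smul, h, hodd.neg_one_pow]
      norm_num
    · rw [hxs, smul_neg, neg_smul, neg_neg]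

/-- **The Zariski closure.** -/
theorem closure_proper (hsy : ∀ x y, B x y = B y x) (hnd : ∀ u, (∀ v, B u v = 0) → u = 0)
    (hB : ∀ g x y, B (ρ g x) (ρ g y) = χ g * B x y) (hχ : (Set.range χ).Infinite)
    (hX : Pool.Agent.W522.U.SI (X := T) ρ (⊤ : Submodule K T))
    (h : HasBlockThree (T := T) ρ χ ∨
      (HasTwoSimple (T := T) ρ χ ∧ 5 ≤ finrank K T ∧ HasHyperbolic (T := T) ρ))
    {Δ : Subgroup G} (hΔ : Δ.FiniteIndex) : properSimilitudes B ⊆ zariskiClosure b (ρ '' Δ) := by
  refine proper_subset b hsy hnd hB hχ (fun D x y => ?_) hΔ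
  rcases h with h | ⟨h, h5, hF⟩
  · exact three_all b hsy hnd hB hX h D x y
  · exact two_all hsy hnd hB hX h5 h hF x y

/-- **The closures of the image and of the groups between it and the group of similitudes.** -/
theorem closure_eq' (hsy : ∀ x y, B x y = B y x) (hnd : ∀ u, (∀ v, B u v = 0) → u = 0)
    {Δ : Subgroup G} (h : properSimilitudes B ⊆ zariskiClosure b (ρ '' Δ)) {M : Set (End K T)}
    (h1 : ρ '' Δ ⊆ M) (h2 : M ⊆ similitudes B)
    (h3 : Odd (finrank K T) ∨ M ⊆ properSimilitudes B) :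
    zariskiClosure b (ρ '' Δ) = zariskiClosure b M := by
  refine le_antisymm (zc_mono b (h1.trans (subset_zc b M))) (zc_mono b ?_)
  rcases h3 with h3 | h3
  · exact (h2.trans (sim_proper hsy hnd h3)).trans h
  · exact h3.trans h

end Pool.Agent.TH118.OR
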