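import Mathlib
import Pool.Agent.TH118.OR.Clos
import Pool.Agent.TH118.ZC.Fib

/-!
# Direct sums: the special orthogonal group of the first summand
-/

set_option linter.unusedSectionVars false

namespace Pool.Agent.TH118.OR

open Module Finset Function Pool.Agent.TH125.Gal Pool.Agent.TH118.SG Pool.Agent.TH118.ZC

variable {K : Type} [Field K] [CharZero K] [IsAlgClosed K] {M : Type} [AddCommGroup M]
  [Module K M] [FiniteDimensional K M] {N : Type} [AddCommGroup N] [Module K N]
  [FiniteDimensional K N] {G : Type} [Group G] {R : G →* End K M} {S : G →* End K N}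
  {χ : G →* K} {ω : M →ₗ[K] M →ₗ[K] K} {ι : Type} [Fintype ι] (b : Basis ι K (M × N))

theorem exz_wg (e f : M) : (exz (wg ω e f) : End K (M × N)) = wg (fB ω) (e, 0) (f, 0) := by
  apply LinearMap.ext
  rintro ⟨m, n⟩
  rw [exz_apply, wg_apply, wg_apply]
  refine Prod.ext ?_ ?_
  · change _ = _ • _ - _ • _
    rfl
  · change (0 : N) = _ • (0 : N) - _ • (0 : N)
    rw [smul_zero, smul_zero, sub_zero]

/-- An element of finite order with exactly two other eigenvalues, simple and different. -/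
def TwoSimpleAt (R : G →* End K M) (χ : G →* K) (γ : G) : Prop :=
  (∃ k : ℕ, 0 < k ∧ R γ ^ k = 1) ∧ ∃ a α β : K, a * a = χ γ ∧ α * β = χ γ ∧ α ≠ β ∧
    Module.End.eigenspace (R γ) α ≠ ⊥ ∧ Module.End.eigenspace (R γ) β ≠ ⊥ ∧
    finrank K (Module.End.eigenspace (R γ) a) + 2 = finrank K M

/-- A unipotent element with one Jordan block of size three and all others of size one. -/
def BlockThreeAt (R : G →* End K M) (χ : G →* K) (γ : G) : Prop :=
  χ γ = 1 ∧ (R γ - 1) ^ 3 = 0 ∧ (R γ - 1) ^ 2 ≠ 0 ∧ finrank K (LinearMap.range (R γ - 1)) ≤ 2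

section all

variable (hsy : ∀ x y, ω x y = ω y x) (hnd : ∀ u, (∀ v, ω u v = 0) → u = 0)
  (hω : ∀ g x y, ω (R g x) (R g y) = χ g * ω x y)
  (hX : Pool.Agent.W522.U.SI (X := M) R (⊤ : Submodule K M))

include hsy hnd hω hX in
theorem sum_two (h5 : 5 ≤ finrank K M) {γ : G} (hS : S γ = 1)
    (h : TwoSimpleAt R χ γ) (hF : HasHyperbolic (T := M) R) (D : ℕ) (x y : M) :
    wg ω x y ∈ LM R S ω b D := by
  obtain ⟨⟨k, hk, hγ⟩, a, α, β, ha, hαβ, hne, hα, hβ, hd⟩ := h
  obtain ⟨e, f, Tw⟩ := exists_two (T := M) hnd hω ha hαβ hne hα hβ hd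
  have hω0 : ∃ x y, ω x y ≠ 0 := by
    obtain ⟨F, x, y, l, m, hx0, -⟩ := hF
    by_contra hcon
    push Not at hcon
    exact hx0 (hnd x (hcon x))
  have he0 : e ≠ 0 := by
    rintro rfl
    exact Tw.hef (by rw [map_zero, LinearMap.zero_apply])
  have hα1 : finrank K (Pool.Agent.TH118.IS.eig (X := M) R γ ⊤ α) = 1 := by
    have h2 : Pool.Agent.TH118.IS.eig (X := M) R γ (⊤ : Submodule K M) α =
        Submodule.span K {e} := by
      ext u
      rw [Pool.Agent.TH118.IS.mem_eig, Submodule.mem_span_singleton]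
      constructor
      · rintro ⟨-, hu⟩
        obtain ⟨c, hc⟩ := Tw.eig_e hnd hω hu
        exact ⟨c, hc.symm⟩
      · rintro ⟨c, rfl⟩
        exact ⟨Submodule.mem_top, by rw [map_smul, Tw.he, smul_comm]⟩
    rw [h2, finrank_span_singleton he0]
  obtain ⟨ν, hν, hνb⟩ := exists_Lnu (R := R) (L := LR R S ω b D) (γ := γ)
    (fun g Y hY => LR_conj b hω g Y hY) hk hγ hX (LR_nonscalar (S := S) b hω (D := D) hF) hα1
  obtain ⟨Z, hZ, hZ0⟩ := Submodule.exists_mem_ne_zero_of_ne_bot hνb
  obtain ⟨h1, h2⟩ := Lnu_root hγ hZ hZ0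
  have hZL : Z ∈ LM R S ω b D := LM_of_Lnu b hω hω0 hS hk hγ hν h2 h1 hZ
  have hns : ∃ Y ∈ LM R S ω b D, ¬∃ c : K, ∀ u : M, Y u = c • u := by
    refine ⟨Z, hZL, ?_⟩
    rintro ⟨c, hc⟩
    apply hZ0
    have hc0 : c = 0 := by
      obtain ⟨u, y, hy⟩ := hω0
      have h3 := LM_skew b Z hZL u y
      rw [hc, hc, map_smul, map_smul, LinearMap.smul_apply, smul_eq_mul] at h3
      have h4 : (2 * c) * ω u y = 0 := by linear_combination h3
      exact (mul_eq_zero.1 ((mul_eq_zero.1 h4).resolve_right hy)).resolve_left two_ne_zero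
    apply LinearMap.ext
    intro z
    rw [hc, hc0, zero_smul, LinearMap.zero_apply]
  refine Tw.full (L := LM R S ω b D) (LM_bracket b) (LM_skew b) hsy hnd hω (LM_conj b hω) hk hγ hX
    hns ?_ x y
  have h6 : Pool.Agent.TH118.IS.eig (X := M) R γ (⊤ : Submodule K M) a =
      Module.End.eigenspace (R γ) a := top_inf_eq _
  rw [h6]
  omega

include hsy hnd hω hX in
theorem sum_three {γ : G} (hS : S γ = 1) (h : BlockThreeAt R χ γ) (D : ℕ) (x y : M) :
    wg ω x y ∈ LM R S ω b D := by
  obtain ⟨hχ, hZ3, hZ2, hrk⟩ := h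
  set Z : End K M := R γ - 1 with hZ
  have h3 : ∀ x, Z (Z (Z x)) = 0 := by
    intro x
    have h1 := LinearMap.congr_fun hZ3 x
    rwa [pow_succ, pow_two, Module.End.mul_apply, Module.End.mul_apply, LinearMap.zero_apply] at h1
  obtain ⟨x0, hx0⟩ : ∃ x, Z (Z x) ≠ 0 := by
    by_contra hcon
    push Not at hcon
    apply hZ2
    apply LinearMap.ext
    intro x
    rw [pow_two, Module.End.mul_apply, hcon, LinearMap.zero_apply]
  have hg : ∀ x, dsum R S γ x = x + (exz Z : End K (M × N)) x := by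
    intro x
    rw [dsum_apply, exz_apply, hS, hZ, LinearMap.sub_apply]
    refine Prod.ext ?_ ?_
    · change R γ x.1 = x.1 + (R γ x.1 - x.1)
      abel
    · change x.2 = x.2 + 0
      rw [add_zero]
  have h3' : ∀ x, (exz Z : End K (M × N)) ((exz Z : End K (M × N)) ((exz Z : End K (M × N)) x)) =
      0 := by
    intro x
    rw [exz_apply, exz_apply, exz_apply, h3]
    rfl
  have hZ3' : (exz Z : End K (M × N)) ^ 3 = 0 := by
    apply LinearMap.ext
    intro x
    rw [pow_succ, pow_two, Module.End.mul_apply, Module.End.mul_apply, LinearMap.zero_apply]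
    exact h3' x
  have hL := unip_L0 (σ := sig (dsum R S) b (D + 1)) (B := fB ω) hg h3' (fun x y => by
    rw [fB_apply, fB_apply, dsum_apply, dsum_apply, hω, hχ, one_mul])
    (sig_unip (b := b) hg hZ3' (D + 1))
  set Nn : End K M := Z - (2 : K)⁻¹ • (Z * Z) with hN
  have hNL : Nn ∈ LM R S ω b D := by
    rw [mem_LM]
    have h1 : (exz Nn : End K (M × N)) = exz Z - (2 : K)⁻¹ • (exz Z * exz Z) := by
      apply LinearMap.ext
      intro x
      change ((Z x.1 - (2 : K)⁻¹ • Z (Z x.1), 0) : M × N) =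
        (Z x.1, 0) - (2 : K)⁻¹ • (Z (Z x.1), 0)
      refine Prod.ext ?_ ?_
      · rfl
      · change (0 : N) = 0 - (2 : K)⁻¹ • (0 : N)
        rw [smul_zero, sub_zero]
    rw [h1]
    exact hL
  have hNa : ∀ x, Nn x = Z x - (2 : K)⁻¹ • Z (Z x) := fun _ => rfl
  have hNN : ∀ x, Nn (Nn x) = Z (Z x) := by
    intro x
    rw [hNa, hNa]
    simp only [map_sub, map_smul, h3, smul_zero, sub_zero]
  refine nilp_full (R := R) (χ := χ) (LM_bracket b) (LM_skew b) hsy hnd hω (LM_conj b hω) hX hNL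
    (fun x => ?_) ⟨x0, ?_⟩ ?_ x y
  · rw [hNN, hNa]
    simp only [map_sub, map_smul, h3, smul_zero, sub_zero]
  · rw [hNN]
    exact hx0
  · refine le_trans (Submodule.finrank_mono ?_) hrk
    rintro _ ⟨x, rfl⟩
    refine ⟨x - (2 : K)⁻¹ • Z x, ?_⟩
    rw [map_sub, map_smul]
    rfl

end all

theorem tor_prod {e f : M} (t : K) :
    (tor ω e f t).prodMap (1 : End K N) = tor (fB ω) (e, 0) (f, 0) t := by
  apply LinearMap.ext
  rintro ⟨m, n⟩
  rw [LinearMap.prodMap_apply, tor_apply, tor_apply]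
  refine Prod.ext ?_ ?_
  · change _ = _ + _ • _ + _ • _
    rfl
  · change n = n + _ • (0 : N) + _ • (0 : N)
    rw [smul_zero, smul_zero, add_zero, add_zero]

/-- The elements of the closure which are the identity on the second summand. -/
def cl1 (R : G →* End K M) (S : G →* End K N) (b : Basis ι K (M × N)) (Δ : Subgroup G) :
    Submonoid (End K M) where
  carrier := {s | s.prodMap (1 : End K N) ∈ clM b (dsum R S) Δ}
  one_mem' := by
    rw [Set.mem_ofPred_eq]
    have h1 : (1 : End K M).prodMap (1 : End K N) = 1 := LinearMap.prodMap_one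
    rw [h1]
    exact Submonoid.one_mem _
  mul_mem' := by
    intro s s' hs hs'
    rw [Set.mem_ofPred_eq] at hs hs' ⊢
    have h1 := Submonoid.mul_mem (clM b (dsum R S) Δ) hs hs'
    have h2 : (s * s').prodMap (1 : End K N) =
        s.prodMap (1 : End K N) * s'.prodMap (1 : End K N) := by
      apply LinearMap.ext
      rintro ⟨m, n⟩
      rfl
    rw [h2]
    exact h1

theorem mem_cl1 {Δ : Subgroup G} {s : End K M} : s ∈ cl1 R S b Δ ↔
    s.prodMap (1 : End K N) ∈ clM b (dsum R S) Δ := Iff.rfl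

/-- **The special orthogonal group of the first summand is in the closure.** -/
theorem so_sum (hsy : ∀ x y, ω x y = ω y x) (hnd : ∀ u, (∀ v, ω u v = 0) → u = 0)
    (hall : ∀ (D : ℕ) (x y : M), wg ω x y ∈ LM R S ω b D)
    {Δ : Subgroup G} (hΔ : Δ.FiniteIndex) {s : End K M}
    (hs : ∀ x y, ω (s x) (s y) = ω x y) (hdet : LinearMap.det s = 1) :
    s.prodMap (1 : End K N) ∈ clM b (dsum R S) Δ := by
  have htor : ∀ e f, ω e e = 0 → ω f f = 0 → ω e f = 1 → ∀ t : K, t ≠ 0 →
      tor ω e f t ∈ cl1 R S b Δ := by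
    intro e f he hf hef t ht
    rw [mem_cl1, tor_prod]
    have he' : fB (N := N) ω (e, 0) (e, 0) = 0 := by rw [fB_apply]; exact he
    have hf' : fB (N := N) ω (f, 0) (f, 0) = 0 := by rw [fB_apply]; exact hf
    have hef' : fB (N := N) ω (e, 0) (f, 0) = 1 := by rw [fB_apply]; exact hef
    have hfe' : fB (N := N) ω (f, 0) (e, 0) = 1 := by rw [fB_apply]; exact (hsy f e).trans hef
    have hL : ∀ D : ℕ, wg (fB (N := N) ω) (e, 0) (f, 0) ∈
        L0 (fB ω) (dsum R S) (sig (dsum R S) b (D + 1)) := by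
      intro D
      rw [← exz_wg]
      exact hall D e f
    have hT : ∀ t : K, t ≠ 0 → tor (fB (N := N) ω) (e, 0) (f, 0) t ∈
        zariskiClosure b (Set.range (dsum R S)) := by
      intro t ht
      exact torus_mem b he' hf' hef' hfe' hL ht
    exact torus_index b hΔ hT ht
  rw [← mem_cl1]
  exact so_mem hsy hnd (cl1 R S b Δ)
    (fun u v hu hv => pair_mem' hsy hnd (cl1 R S b Δ) htor hu hv) hs hdet

/-- the determinant of an isometry -/
theorem det_pm (hsy : ∀ x y, ω x y = ω y x) (hnd : ∀ u, (∀ v, ω u v = 0) → u = 0)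
    {s : End K M} (hs : ∀ x y, ω (s x) (s y) = ω x y) :
    LinearMap.det s = 1 ∨ LinearMap.det s = -1 := by
  have h := det_sq hsy hnd hs
  rw [map_mul] at h
  exact mul_self_eq_one_iff.1 h

section fib

variable (hsy : ∀ x y, ω x y = ω y x) (hnd : ∀ u, (∀ v, ω u v = 0) → u = 0)
  (hω : ∀ g x y, ω (R g x) (R g y) = ω x y) {Δ : Subgroup G}
  (hso : ∀ s : End K M, (∀ x y, ω (s x) (s y) = ω x y) → LinearMap.det s = 1 →
    s.prodMap (1 : End K N) ∈ clM b (dsum R S) Δ)

include hsy hnd hω hso in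
/-- **The fibre product over the determinant.** -/
theorem so_fib {κ : Type} [Fintype κ] (bN : Basis κ K N) (c : MvPolynomial (κ × κ) K)
    (hc : ∀ g ∈ Δ, ev bN c (S g) = LinearMap.det (R g)) {x : End K M} {y : End K N}
    (hy : y ∈ zariskiClosure bN (S '' Δ)) (hx : ∀ u v, ω (x u) (x v) = ω u v)
    (hxy : LinearMap.det x = ev bN c y) :
    x.prodMap y ∈ zariskiClosure b (dsum R S '' Δ) := by
  classical
  intro p hp
  let ent : End K N → κ × κ → K := fun y kl => bN.repr (y (bN kl.2)) kl.1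
  let l : ι × ι → MvPolynomial (κ × κ) K := fun ij =>
    MvPolynomial.C (b.repr (x (b ij.2).1, 0) ij.1) +
    ∑ k : κ, ∑ m : κ, MvPolynomial.C (bN.repr (b ij.2).2 m * b.repr (0, bN k) ij.1) *
      MvPolynomial.X (k, m)
  have hl : ∀ (ij : ι × ι) (y : End K N), MvPolynomial.eval (ent y) (l ij) =
      b.repr ((x.prodMap y) (b ij.2)) ij.1 := by
    intro ij y
    have h1 : (0, y (b ij.2).2) = ∑ k : κ, ∑ m : κ, (bN.repr (b ij.2).2 m * ent y (k, m)) •
        ((0, bN k) : M × N) := by
      have h2 : y (b ij.2).2 = ∑ k : κ, ∑ m : κ, (bN.repr (b ij.2).2 m * ent y (k, m)) • bN k := by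
        conv_lhs => rw [← bN.sum_repr (b ij.2).2]
        rw [map_sum, Finset.sum_comm]
        refine Finset.sum_congr rfl fun m _ => ?_
        rw [map_smul]
        conv_lhs => rw [← bN.sum_repr (y (bN m))]
        rw [Finset.smul_sum]
        refine Finset.sum_congr rfl fun k _ => ?_
        rw [smul_smul]
      have h3 : ∀ n : N, ((0, n) : M × N) = LinearMap.inr K M N n := fun n => rfl
      rw [h3, h2, map_sum]
      refine Finset.sum_congr rfl fun k _ => ?_
      rw [map_sum]
      refine Finset.sum_congr rfl fun m _ => ?_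
      rw [map_smul]
      rfl
    have h2 : (x.prodMap y) (b ij.2) = ((x (b ij.2).1, 0) : M × N) + (0, y (b ij.2).2) := by
      rw [LinearMap.prodMap_apply, Prod.mk_add_mk, add_zero, zero_add]
    rw [h2, map_add b.repr, Finsupp.add_apply]
    change _ = _ + b.coord ij.1 (0, y (b ij.2).2)
    rw [h1, map_sum (b.coord ij.1), map_add, MvPolynomial.eval_C,
      map_sum (MvPolynomial.eval (ent y))]
    congr 1
    refine Finset.sum_congr rfl fun k _ => ?_
    rw [map_sum (b.coord ij.1), map_sum (MvPolynomial.eval (ent y))]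
    refine Finset.sum_congr rfl fun m _ => ?_
    rw [map_smul, smul_eq_mul, MvPolynomial.eval_mul, MvPolynomial.eval_C, MvPolynomial.eval_X]
    change _ = _ * b.repr (0, bN k) ij.1
    ring
  let q : MvPolynomial (κ × κ) K := MvPolynomial.bind₁ l p
  have hq : ∀ y, ev bN q y = ev b p (x.prodMap y) := by
    intro y
    unfold ev
    change MvPolynomial.eval (ent y) (MvPolynomial.bind₁ l p) = _
    rw [← MvPolynomial.aeval_eq_bind₁, MvPolynomial.aeval_def, MvPolynomial.hom_eval₂,
      MvPolynomial.eval_eq', MvPolynomial.eval₂_eq']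
    refine Finset.sum_congr rfl fun d _ => ?_
    congr 1
    · change MvPolynomial.eval _ (MvPolynomial.C _) = _
      rw [MvPolynomial.eval_C]
    · refine Finset.prod_congr rfl fun ij _ => ?_
      congr 1
      exact hl ij y
  have hev : ∀ (f g : MvPolynomial (κ × κ) K) (y : End K N),
      ev bN (f * g) y = ev bN f y * ev bN g y := fun f g y => map_mul _ f g
  have hev' : ∀ (f : MvPolynomial (κ × κ) K) (d : K) (y : End K N),
      ev bN (f + MvPolynomial.C d) y = ev bN f y + d := fun f d y => by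
    unfold ev
    rw [map_add, MvPolynomial.eval_C]
  set δ := LinearMap.det x with hδ
  have hδ2 : δ * δ = 1 := by
    have h := det_sq hsy hnd hx
    rwa [map_mul] at h
  have h0 : ev bN ((c + MvPolynomial.C δ) * q) y = 0 := by
    refine hy _ ?_
    rintro _ ⟨g, hg, rfl⟩
    rw [hev, hev', hc g hg]
    have h1 := det_pm hsy hnd (hω g)
    have h2 : δ = 1 ∨ δ = -1 := det_pm hsy hnd hx
    by_cases h3 : LinearMap.det (R g) = δ
    · have h4 := hso (R g⁻¹ * x) (fun u v => by
        rw [Module.End.mul_apply, Module.End.mul_apply, hω, hx]) (by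
        rw [map_mul]
        have h5 : LinearMap.det (R g⁻¹) * LinearMap.det (R g) = 1 := by
          rw [← map_mul, ← map_mul, inv_mul_cancel, map_one, map_one]
        rw [h3] at h5
        exact h5)
      have h5 := Submonoid.mul_mem _ (show dsum R S g ∈ clM b (dsum R S) Δ from
        subset_zc b _ ⟨g, hg, rfl⟩) h4
      have h6 : dsum R S g * (R g⁻¹ * x).prodMap (1 : End K N) = x.prodMap (S g) := by
        apply LinearMap.ext
        rintro ⟨m, n⟩
        rw [Module.End.mul_apply, LinearMap.prodMap_apply, LinearMap.prodMap_apply, dsum_apply,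
          Module.End.mul_apply, ← Module.End.mul_apply, ← map_mul, mul_inv_cancel, map_one]
        rfl
      rw [h6] at h5
      rw [hq, h5 p hp, mul_zero]
    · have h4 : LinearMap.det (R g) + δ = 0 := by
        rcases h1 with h1 | h1 <;> rcases h2 with h2 | h2
        · exact absurd (h1.trans h2.symm) h3
        · rw [h1, h2, add_neg_cancel]
        · rw [h1, h2, neg_add_cancel]
        · exact absurd (h1.trans h2.symm) h3
      rw [h4, zero_mul]
  rw [hev, hev', ← hxy, hq] at h0
  refine (mul_eq_zero.1 h0).resolve_left ?_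
  rw [← two_mul]
  refine mul_ne_zero two_ne_zero fun h => ?_
  rw [h, mul_zero] at hδ2
  exact zero_ne_one hδ2

include hsy hnd hω hso in
/-- **The closures of the image and of the larger group.** -/
theorem so_closure {κ : Type} [Fintype κ] (bN : Basis κ K N) (c : MvPolynomial (κ × κ) K)
    (hc : ∀ g ∈ Δ, ev bN c (S g) = LinearMap.det (R g)) {Q : Set (End K M × End K N)}
    (h1 : ∀ g ∈ Δ, (R g, S g) ∈ Q)
    (h2 : ∀ x ∈ Q, x.2 ∈ zariskiClosure bN (S '' Δ) ∧ (∀ u v, ω (x.1 u) (x.1 v) = ω u v) ∧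
      LinearMap.det x.1 = ev bN c x.2) :
    zariskiClosure b ((fun g => (R g).prodMap (S g)) '' Δ) =
      zariskiClosure b ((fun x => x.1.prodMap x.2) '' Q) := by
  refine le_antisymm ?_ ?_
  · refine zc_mono b ?_
    rintro _ ⟨g, hg, rfl⟩
    exact subset_zc b _ ⟨(R g, S g), h1 g hg, rfl⟩
  · refine zc_mono b ?_
    rintro _ ⟨x, hx, rfl⟩
    obtain ⟨hy, hs, hd⟩ := h2 x hx
    exact so_fib b hsy hnd hω hso bN c hc hy hs hd

end fib

end Pool.Agent.TH118.OR
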