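import Mathlib
import Pool.Agent.TH118.OR.Sum

/-!
# Groups of pairs which contain the image
-/

set_option linter.unusedSectionVars false

namespace Pool.Agent.TH118.OR

open Module Finset Function Pool.Agent.TH125.Gal Pool.Agent.TH118.SG Pool.Agent.TH118.ZC

variable {K : Type} [Field K] [CharZero K] [IsAlgClosed K] {M : Type} [AddCommGroup M]
  [Module K M] [FiniteDimensional K M] {N : Type} [AddCommGroup N] [Module K N]
  [FiniteDimensional K N] {G : Type} [Group G] {R : G →* End K M} {S : G →* End K N}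
  {χ : G →* K} {ω : M →ₗ[K] M →ₗ[K] K} {ι : Type} [Fintype ι] (b : Basis ι K (M × N))

/-- The restriction of a polynomial to the operators with a given first component. -/
theorem exists_restr {κ : Type} [Fintype κ] (bN : Basis κ K N) (x : End K M)
    (p : MvPolynomial (ι × ι) K) :
    ∃ q : MvPolynomial (κ × κ) K, ∀ y, ev bN q y = ev b p (x.prodMap y) := by
  classical
  let ent : End K N → κ × κ → K := fun y kl => bN.repr (y (bN kl.2)) kl.1
  let l : ι × ι → MvPolynomial (κ × κ) K := fun ij =>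
    MvPolynomial.C (b.repr (x (b ij.2).1, 0) ij.1) +
    ∑ k : κ, ∑ m : κ, MvPolynomial.C (bN.repr (b ij.2).2 m * b.repr (0, bN k) ij.1) *
      MvPolynomial.X (k, m)
  have hl : ∀ (ij : ι × ι) (y : End K N), MvPolynomial.eval (ent y) (l ij) =
      b.repr ((x.prodMap y) (b ij.2)) ij.1 := by
    intro ij y
    have h1 : (0, y (b ij.2).2) = ∑ k : κ, ∑ m : κ, (bN.repr (b ij.2).2 m * ent y (k, m)) •
        ((0, bN k) : M × N) := by
      have h2 : y (b ij.2).2 = ∑ k : κ, ∑ m : κ, (bN.repr (b ij.2).2 m * ent y (k, m)) • bN k := by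
        conv_lhs => rw [← bN.sum_repr (b ij.2).2]
        rw [map_sum, Finset.sum_comm]
        refine Finset.sum_congr rfl fun m _ => ?_
        rw [map_smul]
        conv_lhs => rw [← bN.sum_repr (y (bN m))]
        rw [Finset.smul_sum]
        refine Finset.sum_congr rfl fun k _ => ?_
        rw [smul_smul]
      have h3 : ∀ n : N, ((0, n) : M × N) = LinearMap.inr K M N n := fun n => rfl
      rw [h3, h2, map_sum]
      refine Finset.sum_congr rfl fun k _ => ?_
      rw [map_sum]
      refine Finset.sum_congr rfl fun m _ => ?_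
      rw [map_smul]
      rfl
    have h2 : (x.prodMap y) (b ij.2) = ((x (b ij.2).1, 0) : M × N) + (0, y (b ij.2).2) := by
      rw [LinearMap.prodMap_apply, Prod.mk_add_mk, add_zero, zero_add]
    rw [h2, map_add b.repr, Finsupp.add_apply]
    change _ = _ + b.coord ij.1 (0, y (b ij.2).2)
    rw [h1, map_sum (b.coord ij.1), map_add, MvPolynomial.eval_C,
      map_sum (MvPolynomial.eval (ent y))]
    congr 1
    refine Finset.sum_congr rfl fun k _ => ?_
    rw [map_sum (b.coord ij.1), map_sum (MvPolynomial.eval (ent y))]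
    refine Finset.sum_congr rfl fun m _ => ?_
    rw [map_smul, smul_eq_mul, MvPolynomial.eval_mul, MvPolynomial.eval_C, MvPolynomial.eval_X]
    change _ = _ * b.repr (0, bN k) ij.1
    ring
  refine ⟨MvPolynomial.bind₁ l p, fun y => ?_⟩
  unfold ev
  change MvPolynomial.eval (ent y) (MvPolynomial.bind₁ l p) = _
  rw [← MvPolynomial.aeval_eq_bind₁, MvPolynomial.aeval_def, MvPolynomial.hom_eval₂,
    MvPolynomial.eval_eq', MvPolynomial.eval₂_eq']
  refine Finset.sum_congr rfl fun d _ => ?_
  congr 1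
  · change MvPolynomial.eval _ (MvPolynomial.C _) = _
    rw [MvPolynomial.eval_C]
  · refine Finset.prod_congr rfl fun ij _ => ?_
    congr 1
    exact hl ij y

/-- The inverse of an isometry. -/
theorem exists_inv (hnd : ∀ u, (∀ v, ω u v = 0) → u = 0) {x : End K M}
    (hx : ∀ u v, ω (x u) (x v) = ω u v) (hdet : LinearMap.det x = 1) :
    ∃ x' : End K M, x * x' = 1 ∧ (∀ u v, ω (x' u) (x' v) = ω u v) ∧ LinearMap.det x' = 1 := by
  have hinj : Function.Injective x := by
    rw [injective_iff_map_eq_zero]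
    intro u hu
    refine hnd u fun v => ?_
    rw [← hx, hu, map_zero, LinearMap.zero_apply]
  let e : M ≃ₗ[K] M := LinearEquiv.ofInjectiveEndo x hinj
  have he : ∀ u, e u = x u := fun u => rfl
  have h1 : x * (e.symm : M →ₗ[K] M) = 1 := by
    apply LinearMap.ext
    intro u
    rw [Module.End.mul_apply, ← he]
    exact e.apply_symm_apply u
  have h2 : ∀ u, x ((e.symm : M →ₗ[K] M) u) = u := fun u => LinearMap.congr_fun h1 u
  refine ⟨(e.symm : M →ₗ[K] M), h1, fun u v => ?_, ?_⟩
  · rw [← hx, h2, h2]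
  · have h3 := congrArg LinearMap.det h1
    rw [map_mul, hdet, one_mul, map_one] at h3
    exact h3

section

variable (hnd : ∀ u, (∀ v, ω u v = 0) → u = 0) {Δ : Subgroup G}
  (hso : ∀ s : End K M, (∀ x y, ω (s x) (s y) = ω x y) → LinearMap.det s = 1 →
    s.prodMap (1 : End K N) ∈ clM b (dsum R S) Δ)

include hnd hso in
/-- **The closure of a monoid of pairs contains the product.** -/
theorem pair_prod {κ : Type} [Fintype κ] (bN : Basis κ K N) (A : Submonoid (End K M × End K N))
    (hA : ∀ g ∈ Δ, (R g, S g) ∈ A)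
    (hA' : ∀ x ∈ A, (∀ u v, ω (x.1 u) (x.1 v) = ω u v) ∧ LinearMap.det x.1 = 1)
    {s : End K M} {y : End K N} (hs : ∀ u v, ω (s u) (s v) = ω u v) (hdet : LinearMap.det s = 1)
    (hy : y ∈ zariskiClosure bN (Prod.snd '' (A : Set (End K M × End K N)))) :
    s.prodMap y ∈ zariskiClosure b
      ((fun x => x.1.prodMap x.2) '' (A : Set (End K M × End K N))) := by
  have hmul : ∀ x ∈ (fun x : End K M × End K N => x.1.prodMap x.2) '' (A : Set _),
      ∀ y ∈ (fun x : End K M × End K N => x.1.prodMap x.2) '' (A : Set _),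
      x * y ∈ (fun x : End K M × End K N => x.1.prodMap x.2) '' (A : Set _) := by
    rintro _ ⟨x, hx, rfl⟩ _ ⟨y, hy, rfl⟩
    refine ⟨x * y, A.mul_mem hx hy, ?_⟩
    apply LinearMap.ext
    rintro ⟨m, n⟩
    rfl
  have hone : ∀ s : End K M, (∀ x y, ω (s x) (s y) = ω x y) → LinearMap.det s = 1 →
      s.prodMap (1 : End K N) ∈ zariskiClosure b
        ((fun x : End K M × End K N => x.1.prodMap x.2) '' (A : Set _)) := by
    intro s hs hdet
    refine zc_mono b ?_ (hso s hs hdet)
    rintro _ ⟨g, hg, rfl⟩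
    exact subset_zc b _ ⟨(R g, S g), hA g hg, rfl⟩
  intro p hp
  obtain ⟨q, hq⟩ := exists_restr b bN s p
  rw [← hq]
  refine hy q ?_
  rintro _ ⟨x, hx, rfl⟩
  rw [hq]
  obtain ⟨hx1, hx2⟩ := hA' x hx
  obtain ⟨x', h1, h2, h3⟩ := exists_inv hnd hx1 hx2
  have h4 := zc_mul b hmul (subset_zc b _ ⟨x, hx, rfl⟩) (hone (x' * s) (fun u v => by
    rw [Module.End.mul_apply, Module.End.mul_apply, h2, hs]) (by rw [map_mul, h3, hdet, one_mul]))
  have h5 : x.1.prodMap x.2 * (x' * s).prodMap (1 : End K N) = s.prodMap x.2 := by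
    apply LinearMap.ext
    rintro ⟨m, n⟩
    rw [Module.End.mul_apply, LinearMap.prodMap_apply, LinearMap.prodMap_apply,
      LinearMap.prodMap_apply]
    refine Prod.ext ?_ rfl
    change x.1 (x' (s m)) = s m
    exact LinearMap.congr_fun h1 (s m)
  rw [← h5]
  exact h4 p hp

include hnd hso in
/-- **Monoids of pairs with the same second projection.** -/
theorem pair_closure {κ : Type} [Fintype κ] (bN : Basis κ K N)
    (A : Submonoid (End K M × End K N)) (hA : ∀ g ∈ Δ, (R g, S g) ∈ A)
    (hA' : ∀ x ∈ A, (∀ u v, ω (x.1 u) (x.1 v) = ω u v) ∧ LinearMap.det x.1 = 1)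
    (B : Set (End K M × End K N))
    (hB : ∀ x ∈ B, (∀ u v, ω (x.1 u) (x.1 v) = ω u v) ∧ LinearMap.det x.1 = 1)
    (hAB : Prod.snd '' B ⊆ zariskiClosure bN (Prod.snd '' (A : Set (End K M × End K N)))) :
    zariskiClosure b ((fun x => x.1.prodMap x.2) '' B) ⊆
      zariskiClosure b ((fun x => x.1.prodMap x.2) '' (A : Set (End K M × End K N))) := by
  refine zc_mono b ?_
  rintro _ ⟨x, hx, rfl⟩
  exact pair_prod b hnd hso bN A hA hA' (hB x hx).1 (hB x hx).2 (hAB ⟨x, hx, rfl⟩)

end

end Pool.Agent.TH118.OR
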