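import Pool.Agent.TH118.OR.Defs
import Pool.Agent.TH125.Abh.Def

/-!
# Good elements and theories of classes: definitions
-/

open CategoryTheory AlgebraicGeometry

universe u

namespace Pool.Agent.TH118.OR.Abh

open Pool.Agent.TH125.Gal Pool.Agent.TH118.SG Pool.Agent.TH125.Abh

section Alg

variable {K : Type} [Field K] {A : Type} [Ring A] [Algebra K A] {Γ : Type} [Group Γ]

/-- `Γ` acts on the graded algebra `A` like a Galois group, and `T` is in degree `n` and irreducible
under all subgroups of finite index. -/
structure MiddleAct (χ : Γ →* Kˣ) (T : Submodule K A) (gr : ℕ → Submodule K A) (n : ℕ)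
    (tr : A →ₗ[K] K) (C : ℕ → Set A) (ρ : Γ →* (A ≃ₐ[K] A)) : Prop where
  galois : IsGaloisAct χ gr n tr C ρ
  middle : T ≤ gr n
  irreducible : IrredAct ρ T

end Alg

open Pool.Agent.H914 Pool.Agent.H914.VarClass Pool.Agent.H914.VarClass.Obj
  Pool.Agent.H914.WeilCohomology Pool.Agent.H281R3.HT

variable {k : Type u} [Field k] {𝒱 : VarClass k} {ops : CycleOps 𝒱}

/-- The characters of `Γ` with values in the coefficient field. -/
abbrev Chr (W : WeilCohomology.{u, 0} ops) (Γ : Type) [Group Γ] : Type := Γ →* W.Kˣ

/-- The actions of the group `Γ` on the cohomology algebra of `X`. -/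
abbrev CohAct (W : WeilCohomology.{u, 0} ops) (Γ : Type) [Group Γ] (X : 𝒱.Obj) : Type :=
  Γ →* (W.H X ≃ₐ[W.K] W.H X)

/-- A variety with an action of the group `Γ` on its cohomology algebra. -/
structure AVar (W : WeilCohomology.{u, 0} ops) (Γ : Type) [Group Γ] where
  /-- the variety -/
  X : 𝒱.Obj
  /-- the action -/
  act : CohAct W Γ X

variable {W : WeilCohomology.{u, 0} ops} {Γ : Type} [Group Γ]

/-- `g` acts trivially on the cohomology of `V`. -/
def AVar.Triv (V : AVar W Γ) (g : Γ) : Prop := TrivAct V.act g

/-- `g` acts on the transcendental cohomology of `V` as one of the good elements. -/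
def AVar.Good (V : AVar W Γ) (g : Γ) : Prop := GoodAct V.X.dim (transcendental W V.X) V.act g

/-- `Γ` acts on the cohomology of `V` like a Galois group; the transcendental cohomology is in the middle
degree and irreducible under all subgroups of finite index. -/
def AVar.Middle (χ : Chr W Γ) (V : AVar W Γ) : Prop :=
  MiddleAct χ (transcendental W V.X) (W.gr V.X) V.X.dim (W.tr V.X) (algClasses W V.X) V.act

/-- The morphism `f` is compatible with the actions. -/
def AVar.Compat (U V : AVar W Γ) (f : U.X ⟶ V.X) : Prop := Intertwines (W.map f) V.act U.act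

/-- The product of `Z` with the power `X × (X × ( ⋯ × X))` of `n + 1` factors. -/
noncomputable def powProd (ops : CycleOps 𝒱) (X Z : 𝒱.Obj) (n : ℕ) : 𝒱.Obj := (power ops X n).prod Z

/-- the projections to the factors `X` -/
noncomputable def powFst (ops : CycleOps 𝒱) (X Z : 𝒱.Obj) (n : ℕ) (p : Fin (n + 1)) :
    powProd ops X Z n ⟶ X := fst (power ops X n) Z ≫ powerPrj ops X n p

/-- the projection to `Z` -/
noncomputable def powSnd (ops : CycleOps 𝒱) (X Z : 𝒱.Obj) (n : ℕ) : powProd ops X Z n ⟶ Z :=
  snd (power ops X n) Z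

/-- The action `υ` on the product of `n + 1` copies of `X` and of `Z` is compatible with the
projections. -/
def IsPowAction (X Z : AVar W Γ) (n : ℕ) (υ : CohAct W Γ (powProd ops X.X Z.X n)) : Prop :=
  (∀ p, AVar.Compat ⟨powProd ops X.X Z.X n, υ⟩ X (powFst ops X.X Z.X n p)) ∧
    AVar.Compat ⟨powProd ops X.X Z.X n, υ⟩ Z (powSnd ops X.X Z.X n)

/-- If the dimension of `V` is even then `n + 1` is less than the dimension of the transcendental
cohomology of `V`. -/
def SmallExp (W : WeilCohomology.{u, 0} ops) (V : 𝒱.Obj) (n : ℕ) : Prop :=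
  Even V.dim → n + 1 < transRank W V

/-- The varieties `Y = X_1^(n_1) × (X_2^(n_2) × ( ⋯ × Z))`, where the `X_i` are pairwise different
members of the family `X` (`S` is the set of the indices which are used), where `n_i` is less than
the dimension of the transcendental cohomology of `X_i` if the dimension of `X_i` is even. -/
inductive ATower {ι : Type} (X : ι → AVar W Γ) (Z : AVar W Γ) : Set ι → AVar W Γ → Prop
  | base : ATower X Z ∅ Z
  | step {S Y} (i : ι) (n : ℕ) (υ : CohAct W Γ (powProd ops (X i).X Y.X n)) : ATower X Z S Y →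
      i ∉ S → SmallExp W (X i).X n → IsPowAction (X i) Y n υ → ATower X Z (insert i S) ⟨_, υ⟩

/-- `Γ` acts on the cohomology of the varieties `X i` like a Galois group; their transcendental
cohomology is in the middle degree and irreducible under all subgroups of finite index; numerical
and homological equivalence coincide for `X i` and its powers (for even-dimensional `X i`, of exponent
less than the dimension of the transcendental cohomology); for every `i` there is a good element of
`Γ` for the transcendental cohomology of `X i`, which acts trivially on the cohomology of `Z` and of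
the other `X j` and by `χ`. -/
structure GoodPowers (χ : Chr W Γ) {ι : Type} (X : ι → AVar W Γ) (Z : AVar W Γ) : Prop where
  middle : ∀ i, (X i).Middle χ
  homEqNum : ∀ i, HomEqNum W (X i).X
  powers : ∀ i n, SmallExp W (X i).X n → HomEqNum W (power ops (X i).X n)
  good : ∀ i, ∃ g : Γ, (X i).Good g ∧ χ g = 1 ∧ Z.Triv g ∧ ∀ j, j ≠ i → (X j).Triv g

/-- On all the towers over `Z` the classes of the theory `C` are multiplied by powers of `χ` by
subgroups of finite index. -/
def TateOnTowers (χ : Chr W Γ) {ι : Type} (X : ι → AVar W Γ) (Z : AVar W Γ)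
    (C : ∀ V : 𝒱.Obj, ℕ → Set (W.H V)) : Prop :=
  ∀ S Y, ATower X Z S Y → TateSet χ (C Y.X) Y.act

/-- The sets `C V j` are stable under sums. -/
def StableSum (W : WeilCohomology.{u, 0} ops) (C : ∀ V : 𝒱.Obj, ℕ → Set (W.H V)) : Prop :=
  ∀ V j, ∀ x ∈ C V j, ∀ y ∈ C V j, x + y ∈ C V j

/-- Every class of the theory `C` on `V` belongs to the theory `C'`. -/
def Implies (W : WeilCohomology.{u, 0} ops) (C C' : ∀ V : 𝒱.Obj, ℕ → Set (W.H V))
    (V : 𝒱.Obj) : Prop :=
  ∀ j, C V j ⊆ C' V j

end Pool.Agent.TH118.OR.Abh
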