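import Pool.Agent.TH118.OR.Family
import Pool.Agent.TH118.OR.AbhDef
import Pool.Agent.TH125.Abh.Comp

/-!
# Theories of classes on towers with good elements
-/

open CategoryTheory AlgebraicGeometry Finset

set_option linter.unusedSectionVars false

universe u

namespace Pool.Agent.TH118.OR

open Pool.Agent.TH125.Gal Pool.Agent.TH118.SG Pool.Agent.TH118.ZC Pool.Agent.TH125.Abh
open Pool.Agent.H914 Pool.Agent.H914.VarClass Pool.Agent.H914.VarClass.Obj
  Pool.Agent.H914.WeilCohomology Pool.Agent.H281R3.HT Pool.Agent.W552 Pool.Agent.H447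

variable {k : Type u} [Field k] {𝒱 : VarClass k} {ops : CycleOps 𝒱}
  {W : WeilCohomology.{u, 0} ops} {Γ : Type} [Group Γ] {χ : Γ →* W.Kˣ}
  {C C' : ∀ V : 𝒱.Obj, ℕ → Set (W.H V)}

/-- **Theories of classes on products with powers.** -/
theorem good_classes [IsAlgClosed W.K] {X Z : GVar W Γ} {n : ℕ}
    (hgal : IsGaloisAct χ (W.gr X.X) X.X.dim (W.tr X.X) (algClasses W X.X) X.act)
    (hD : HomEqNum W X.X) (hDn : HomEqNum W (power ops X.X n)) (hirr : IrredMiddle X)
    {g : Γ} (hg : GoodAct X.X.dim (transcendental W X.X) X.act g) (hχ : χ g = 1)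
    (hZ : TrivAct Z.act g) (hn : Even X.X.dim → n + 1 < transRank W X.X)
    {υ : Γ →* (W.H ((power ops X.X n).prod Z.X) ≃ₐ[W.K] W.H ((power ops X.X n).prod Z.X))}
    (hY : IsPowProd X n Z ⟨_, υ⟩) (hth : IsClassTheory W C)
    (hC : AreTateClasses χ C ⟨(power ops X.X n).prod Z.X, υ⟩) :
    GeneratedFrom W C (snd (power ops X.X n) Z.X) := by
  have hP : IsPowAct W (⟨X.X, 0⟩ : Polarized 𝒱) n Z.X X.act Z.act υ := by
    cases hY with
    | mk _ h1 h2 => exact isPowAct h1 h2
  obtain ⟨s⟩ := exists_SB hD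
  obtain ⟨b, hb⟩ := exists_monoBasis (ops := ops) (⟨X.X, 0⟩ : Polarized 𝒱) s.e n
  have hG := isGalois hgal
  have hfull : FullG (P := ⟨X.X, 0⟩) hG Z.X g :=
    full_good (P := ⟨X.X, 0⟩) hD hirr.1 hG hirr.2 hχ hg
  have hspan : ∀ j, ∀ c ∈ C ((power ops X.X n).prod Z.X) j, c ∈ LSpan W (power ops X.X n) Z.X := by
    intro j c hc
    obtain ⟨Δ, hΔ, h1⟩ := hC j c hc
    exact tgt_lspan (A := X) (D := 0) hD hirr.1
      (mem_TgtG (P := ⟨X.X, 0⟩) hb hD hirr.1 hG hP hn hχ (trivAct.1 hZ) hfull hΔ h1)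
  exact prod_generated hth hDn hspan

/-- **Comparison of two theories of classes on products with powers.** -/
theorem good_implies [IsAlgClosed W.K] {X Z : GVar W Γ} {n : ℕ}
    (hgal : IsGaloisAct χ (W.gr X.X) X.X.dim (W.tr X.X) (algClasses W X.X) X.act)
    (hD : HomEqNum W X.X) (hDn : HomEqNum W (power ops X.X n)) (hirr : IrredMiddle X)
    {g : Γ} (hg : GoodAct X.X.dim (transcendental W X.X) X.act g) (hχ : χ g = 1)
    (hZ : TrivAct Z.act g) (hn : Even X.X.dim → n + 1 < transRank W X.X)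
    {υ : Γ →* (W.H ((power ops X.X n).prod Z.X) ≃ₐ[W.K] W.H ((power ops X.X n).prod Z.X))}
    (hY : IsPowProd X n Z ⟨_, υ⟩) (hth : IsClassTheory W C) (hth' : IsClassTheory W C')
    (hs : TH125.Abh.StableSum W C')
    (hC : AreTateClasses χ C ⟨(power ops X.X n).prod Z.X, υ⟩) :
    TH125.Abh.Implies W C C' ((power ops X.X n).prod Z.X) ↔ TH125.Abh.Implies W C C' Z.X := by
  have hgen := good_classes hgal hD hDn hirr hg hχ hZ hn hY hth hC
  refine ⟨fun h1 => ?_, fun hZ => generated_implies hth hth' hs hgen hZ⟩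
  have h1X : (1 : W.H X.X) ≠ 0 := by
    obtain ⟨t, ht⟩ := good_nonzero (P := ⟨X.X, 0⟩) hg
    intro h3
    apply ht
    rw [← one_mul t, h3, zero_mul]
  have hN1 : (1 : W.H (power ops X.X n)) ≠ 0 := by
    obtain ⟨x, hx⟩ := exists_tr h1X
    have h2 : W.tr (nest ops n fun _ => (⟨X.X, 0⟩ : Polarized 𝒱)).X
        (mono (prj ops n fun _ => (⟨X.X, 0⟩ : Polarized 𝒱)) fun _ => x) ≠ 0 := by
      rw [tr_mono]
      exact pow_ne_zero _ hx
    intro h0
    apply h2
    have h3 : (1 : W.H (nest ops n fun _ => (⟨X.X, 0⟩ : Polarized 𝒱)).X) = 0 := h0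
    rw [← one_mul (mono _ _), h3, zero_mul, map_zero]
  obtain ⟨a, ha, ha0⟩ : ∃ a, W552.AS W (power ops X.X n) a ∧ W.tr _ a ≠ 0 := by
    by_contra hcon
    push Not at hcon
    apply hN1
    refine homEqNum_iff.1 hDn 1 W552.AS.one fun w hw => ?_
    rw [one_mul]
    exact hcon w hw
  exact factor_implies hth hth' hs ha ha0 h1

namespace Abh

/-- the variety with the action, in the notation of TH125 -/
def AVar.toG (V : AVar W Γ) : GVar W Γ := ⟨V.X, V.act⟩

lemma IsPowAction.toG {X Z : AVar W Γ} {n : ℕ}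
    (υ : Γ →* (W.H ((power ops X.X n).prod Z.X) ≃ₐ[W.K] W.H ((power ops X.X n).prod Z.X)))
    (h : IsPowAction X Z n υ) :
    IsPowProd X.toG n Z.toG ⟨(power ops X.X n).prod Z.X, υ⟩ :=
  IsPowProd.mk (X := X.toG) (Z := Z.toG) υ (fun p => h.1 p) h.2

lemma ATower.toG {ι : Type} {X : ι → AVar W Γ} {Z : AVar W Γ} {S : Set ι} {Y : AVar W Γ}
    (h : ATower X Z S Y) : GTower (fun i => (X i).toG) Z.toG S Y.toG := by
  induction h with
  | base => exact GTower.base
  | @step S Y i n υ _ hi hn hP ih => exact GTower.step i n ih hi hn (hP.toG υ)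

/-- **Comparison of two theories of classes on towers.** -/
theorem tower_implies [IsAlgClosed W.K] {ι : Type} {X : ι → AVar W Γ} {Z : AVar W Γ}
    (h : GoodPowers χ X Z) (hth : IsClassTheory W C) (hth' : IsClassTheory W C')
    (hs : StableSum W C') (hT : TateOnTowers χ X Z C) {S : Set ι} {Y : AVar W Γ}
    (hY : ATower X Z S Y) : Implies W C C' Y.X ↔ Implies W C C' Z.X := by
  induction hY with
  | base => exact Iff.rfl
  | @step S Y i n υ hTw hi hn hP ih =>
    obtain ⟨g, hg, hχ, hZ, hj⟩ := h.good i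
    rw [← ih]
    have hC : TateSet χ (C (powProd ops (X i).X Y.X n)) υ := hT _ _ (ATower.step i n υ hTw hi hn hP)
    have hgY : TrivAct Y.act g :=
      hTw.toG.trivAct (fun j hjS => hj j fun h' => hi (h' ▸ hjS)) hZ
    exact good_implies (X := (X i).toG) (Z := Y.toG) (h.middle i).galois (h.homEqNum i)
      (h.powers i n hn) ⟨(h.middle i).middle, (h.middle i).irreducible⟩ hg hχ hgY hn
      (hP.toG υ) hth hth' hs hC

end Abh

end Pool.Agent.TH118.OR
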