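import Pool.Agent.TH118.OR.Abh

/-!
# Two theories of classes and two groups
-/

open CategoryTheory AlgebraicGeometry

universe u

namespace Pool.Agent.TH118.OR.Abh

open Pool.Agent.TH125.Gal Pool.Agent.TH118.SG
open Pool.Agent.TH125.Abh (IsClassTheory)
open Pool.Agent.H914 Pool.Agent.H914.VarClass Pool.Agent.H914.VarClass.Obj
  Pool.Agent.H914.WeilCohomology Pool.Agent.H281R3.HT

variable {k : Type u} [Field k] {𝒱 : VarClass k} {ops : CycleOps 𝒱}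
  {W : WeilCohomology.{u, 0} ops} {Γ Δ : Type} [Group Γ] [Group Δ]

/-- **Two theories of classes which are equal on `Z` are equal on `Y`.** -/
theorem tower_eq [IsAlgClosed W.K] {χ : Chr W Γ} {χ' : Chr W Δ} {ι ι' : Type}
    {X : ι → AVar W Γ} {X' : ι' → AVar W Δ} {Z Y : 𝒱.Obj} {ζ : CohAct W Γ Z} {ζ' : CohAct W Δ Z}
    {υ : CohAct W Γ Y} {υ' : CohAct W Δ Y} (h : GoodPowers χ X ⟨Z, ζ⟩)
    (h' : GoodPowers χ' X' ⟨Z, ζ'⟩) {C C' : ∀ V : 𝒱.Obj, ℕ → Set (W.H V)}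
    (hC : IsClassTheory W C) (hs : StableSum W C) (hT : TateOnTowers χ X ⟨Z, ζ⟩ C)
    (hC' : IsClassTheory W C') (hs' : StableSum W C') (hT' : TateOnTowers χ' X' ⟨Z, ζ'⟩ C')
    {S : Set ι} {S' : Set ι'} (hY : ATower X ⟨Z, ζ⟩ S ⟨Y, υ⟩)
    (hY' : ATower X' ⟨Z, ζ'⟩ S' ⟨Y, υ'⟩) :
    (∀ j, C Y j = C' Y j) ↔ ∀ j, C Z j = C' Z j := by
  have h1 : Implies W C C' Y ↔ Implies W C C' Z := tower_implies h hC hC' hs' hT hY
  have h2 : Implies W C' C Y ↔ Implies W C' C Z := tower_implies h' hC' hC hs hT' hY'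
  constructor
  · intro h3 j
    exact Set.Subset.antisymm (h1.1 (fun i => (h3 i).subset) j) (h2.1 (fun i => (h3 i).symm.subset) j)
  · intro h3 j
    exact Set.Subset.antisymm (h1.2 (fun i => (h3 i).subset) j) (h2.2 (fun i => (h3 i).symm.subset) j)

end Pool.Agent.TH118.OR.Abh
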