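import Pool.Agent.TH118.SG.Defs

/-!
# Good elements in both parities: definitions
-/

open CategoryTheory AlgebraicGeometry

universe u

namespace Pool.Agent.TH118.OR

open Pool.Agent.TH125.Gal Pool.Agent.TH118.SG

section Alg

variable {K : Type} [Field K] {A : Type} [Ring A] [Algebra K A] {Γ : Type} [Group Γ]

/-- the operator `g - 1` -/
def diffAct (ρ : Γ →* (A ≃ₐ[K] A)) (g : Γ) : Module.End K A := (ρ g).toLinearMap - 1

/-- `g` acts on `T` by a unipotent map with one Jordan block of size three and all others of size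
one: `(g - 1) ^ 3` is zero on `T`, `(g - 1) ^ 2` is not, and the rank of `g - 1` is at most two. -/
def BlockThreeAct (T : Submodule K A) (ρ : Γ →* (A ≃ₐ[K] A)) (g : Γ) : Prop :=
  (∀ t ∈ T, (diffAct ρ g ^ 3) t = 0) ∧ (∃ t ∈ T, (diffAct ρ g ^ 2) t ≠ 0) ∧
    Module.finrank K (T.map (diffAct ρ g)) ≤ 2

/-- `g` acts on `T` with finite order; for `a = 1` or `a = -1` the eigenspace has codimension two, and
there are two other, different eigenvalues, with product one. -/
def TwoSimpleAct (T : Submodule K A) (ρ : Γ →* (A ≃ₐ[K] A)) (g : Γ) : Prop :=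
  (∃ k : ℕ, 0 < k ∧ ∀ t ∈ T, ρ (g ^ k) t = t) ∧
    ∃ a α β : K, a * a = 1 ∧ α * β = 1 ∧ α ≠ β ∧ eigT T ρ g α ≠ ⊥ ∧ eigT T ρ g β ≠ ⊥ ∧
      Module.finrank K (eigT T ρ g a) + 2 = Module.finrank K T

/-- `g` acts on `T` with finite order, and its eigenvalues are divided into two nonempty parts, stable
under `α ↦ 1 / α`, such that for `α` in the first and `β` in the second part: one of the two
eigenspaces is one-dimensional, `β / α` is the quotient of no other pair of eigenvalues except the
dual pair, and triples of eigenvalues which are geometric progressions of quotient `β / α` are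
self-dual, with one-dimensional outer eigenspaces. -/
def IsolatedAct (T : Submodule K A) (ρ : Γ →* (A ≃ₐ[K] A)) (g : Γ) : Prop :=
  (∃ k : ℕ, 0 < k ∧ ∀ t ∈ T, ρ (g ^ k) t = t) ∧
    ∃ S : Set K, (∃ α ∈ S, eigT T ρ g α ≠ ⊥) ∧ (∃ β ∉ S, eigT T ρ g β ≠ ⊥) ∧
    (∀ α, eigT T ρ g α ≠ ⊥ → (α ∈ S ↔ α⁻¹ ∈ S)) ∧
    ∀ α ∈ S, ∀ β ∉ S, eigT T ρ g α ≠ ⊥ → eigT T ρ g β ≠ ⊥ →
      (Module.finrank K (eigT T ρ g α) = 1 ∨ Module.finrank K (eigT T ρ g β) = 1) ∧
      (∀ α', eigT T ρ g α' ≠ ⊥ → eigT T ρ g (α' * (β * α⁻¹)) ≠ ⊥ → α' = α ∨ α' * β = 1) ∧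
      ∀ α', eigT T ρ g α' ≠ ⊥ → eigT T ρ g (α' * (β * α⁻¹)) ≠ ⊥ →
        eigT T ρ g (α' * (β * α⁻¹) * (β * α⁻¹)) ≠ ⊥ →
        Module.finrank K (eigT T ρ g α') = 1 ∧ α' * (α' * (β * α⁻¹) * (β * α⁻¹)) = 1

/-- The good elements for the cohomology `T` of degree `n`: for odd `n` unipotent elements of rank one or
two and square zero, elements of finite order of small codimension, or with isolated
quotients of eigenvalues; for even `n` unipotent elements with one Jordan block of size three and
all others of size one, or of finite order with exactly two other eigenvalues, simple and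
different; for the elements of finite order some element has to be hyperbolic. -/
def GoodAct (n : ℕ) (T : Submodule K A) (ρ : Γ →* (A ≃ₐ[K] A)) (g : Γ) : Prop :=
  (Odd n ∧ (UnipAct T ρ g ∨ ((SmallAct T ρ g ∨ IsolatedAct T ρ g) ∧ HyperbolicAct T ρ))) ∨
  (Even n ∧ (BlockThreeAct T ρ g ∨
    (TwoSimpleAct T ρ g ∧ 5 ≤ Module.finrank K T ∧ HyperbolicAct T ρ)))

end Alg

open Pool.Agent.H914 Pool.Agent.H914.VarClass Pool.Agent.H914.VarClass.Obj
  Pool.Agent.H914.WeilCohomology Pool.Agent.H281R3.HT Pool.Agent.W552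

variable {k : Type u} [Field k] {𝒱 : VarClass k} {ops : CycleOps 𝒱}
  {W : WeilCohomology.{u, 0} ops} {Γ : Type} [Group Γ]

/-- `Γ` acts on the cohomology of the varieties `X i` like a Galois group; their transcendental
cohomology is in the middle degree and irreducible under all subgroups of finite index; numerical
and homological equivalence coincide for them; for every `i` there is a good element of `Γ` for the
transcendental cohomology of `X i`, which acts trivially on the cohomology of `Z` and of the other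
`X j` and by `χ`. -/
structure GoodFamily (χ : Γ →* W.Kˣ) {ι : Type} (X : ι → GVar W Γ) (Z : GVar W Γ) : Prop where
  galois : ∀ i, IsGaloisAct χ (W.gr (X i).X) (X i).X.dim (W.tr (X i).X)
    (algClasses W (X i).X) (X i).act
  homEqNum : ∀ i, HomEqNum W (X i).X
  middle : ∀ i, transcendental W (X i).X ≤ W.gr (X i).X (X i).X.dim
  irreducible : ∀ i, IrredAct (X i).act (transcendental W (X i).X)
  good : ∀ i, ∃ g : Γ, GoodAct (X i).X.dim (transcendental W (X i).X) (X i).act g ∧
    χ g = 1 ∧ TrivAct Z.act g ∧ ∀ j, j ≠ i → TrivAct (X j).act g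

end Pool.Agent.TH118.OR
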