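import Pool.Agent.TH118.OR.LLe
import Pool.Agent.TH118.OR.Step
import Pool.Agent.TH118.OR.Defs
import Pool.Agent.TH118.ZC.Iso

/-!
# Families of varieties with good elements
-/

open CategoryTheory AlgebraicGeometry Finset

set_option linter.unusedSectionVars false

universe u

namespace Pool.Agent.TH118.OR

open Pool.Agent.TH125.Gal Pool.Agent.TH118.SG Pool.Agent.TH118.ZC
open Pool.Agent.H914 Pool.Agent.H914.VarClass Pool.Agent.H914.VarClass.Obj
  Pool.Agent.H914.WeilCohomology Pool.Agent.H281R3.HT Pool.Agent.W552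

section iso

variable {K : Type} [Field K] [CharZero K] [IsAlgClosed K] {T : Type} [AddCommGroup T]
  [Module K T] [FiniteDimensional K T] {E : Type} [AddCommGroup E] [Module K E]
  [FiniteDimensional K E] {S : Type} [Fintype S] [DecidableEq S] {G : Type} [Group G]
  {B : T →ₗ[K] T →ₗ[K] K} {ρ : G →* (T →ₗ[K] T)} {σ : G →* (E →ₗ[K] E)} {χ : G →* K}

/-- **The whole symplectic Lie algebra, isolated quotients.** -/
theorem iso_LL (halt : ∀ v, B v v = 0) (hnd : ∀ u, (∀ v, B u v = 0) → u = 0)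
    (hB : ∀ g x y, B (ρ g x) (ρ g y) = χ g * B x y) (hSI : Pool.Agent.TH125.Gal.SI ρ)
    {γ : G} (hσ : σ γ = 1) {k : ℕ} (hk : 0 < k) (hγ : ρ γ ^ k = 1)
    (hiso : SplitsIsolated (X := T) ρ χ γ)
    (F : G) {u v : T} (hu0 : u ≠ 0) (hv0 : v ≠ 0) {al be : K}
    (hu : ρ F u = al • u) (hv : ρ F v = be • v) (hab : ∀ k : ℕ, 0 < k → al ^ k ≠ be ^ k)
    (x y : T) : Pool.Agent.H204R3.SP.SS B x y ∈ LL S B ρ σ := by
  have hX := SI_conv ⟨u, hu0⟩ hSI
  have hns := exists_PP (S := S) (σ := σ) (μ := χ) hB F hu0 hv0 hu hv hab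
  obtain ⟨ν, hν, N, hN, hN2, hN0, hNr⟩ := iso_N (R := ρ) (χ := χ) (L := LP S B ρ σ) halt hB hnd
    hk hγ hX (fun g Y hY => LP_conj (μ := χ) hB g Y hY) hns
    (fun ν hν Z hZ => (LL_of_Lnu (μ := χ) hB hσ hν hZ).1) hiso
  have hNL : N ∈ LL S B ρ σ := LL_of_Lnu (μ := χ) hB hσ hν hN
  have hconj : ∀ g : G, ∀ Y ∈ LL S B ρ σ, ρ g * Y * ρ g⁻¹ ∈ LL S B ρ σ := by
    intro g Y hY
    have h1 := LL_conj (μ := χ) hB hY g
    exact h1
  have hbr : ∀ Y ∈ LL S B ρ σ, ∀ Z ∈ LL S B ρ σ, Y * Z - Z * Y ∈ LL S B ρ σ :=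
    fun Y hY Z hZ => LL_bracket hY hZ
  have hsp : ∀ Y ∈ LL S B ρ σ, ∀ u w, B (Y u) w + B u (Y w) = 0 := fun Y hY u w => hY.1 u w
  exact full_of_N (R := ρ) (χ := χ) halt hnd hB hconj hbr hsp hX hNL hN2 hN0 hNr x y

end iso

variable {k : Type u} [Field k] {𝒱 : VarClass k} {ops : CycleOps 𝒱}
  {W : WeilCohomology.{u, 0} ops} {Γ : Type} [Group Γ] {χ : Γ →* W.Kˣ}

section

variable {P : Polarized 𝒱} {ρ : Γ →* (W.H P.X ≃ₐ[W.K] W.H P.X)} {Z : 𝒱.Obj}

theorem eigT_ne (hG : IsGalois W χ P.X ρ) (g : Γ) (b : W.K) :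
    Module.End.eigenspace (rhoT hG g) b ≠ ⊥ ↔ eigT (transcendental W P.X) ρ g b ≠ ⊥ := by
  rw [← Submodule.one_le_finrank_iff, ← Submodule.one_le_finrank_iff, finrank_eigT]

theorem form_symm (hmid : transcendental W P.X ≤ W.gr P.X P.X.dim) (heven : Even P.X.dim)
    (u v : transcendental W P.X) : rform W P.X (transcendental W P.X) u v =
      rform W P.X (transcendental W P.X) v u := by
  have h1 := trans_symm hmid u.2 v.2
  rw [heven.neg_one_pow, one_mul] at h1
  rw [rform_apply, rform_apply]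
  exact h1

theorem fin_order (hG : IsGalois W χ P.X ρ) {g : Γ} {k : ℕ}
    (hgk : ∀ t ∈ transcendental W P.X, ρ (g ^ k) t = t) : rhoT hG g ^ k = 1 := by
  rw [← map_pow]
  apply LinearMap.ext
  intro x
  exact Subtype.ext (hgk x x.2)

theorem diff_apply (hG : IsGalois W χ P.X ρ) (g : Γ) (x : transcendental W P.X) :
    (((rhoT hG g - 1) x : transcendental W P.X) : W.H P.X) = diffAct ρ g (x : W.H P.X) := rfl

theorem diff_pow (hG : IsGalois W χ P.X ρ) (g : Γ) (n : ℕ) (x : transcendental W P.X) :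
    ((((rhoT hG g - 1) ^ n) x : transcendental W P.X) : W.H P.X) =
      (diffAct ρ g ^ n) (x : W.H P.X) := by
  induction n generalizing x with
  | zero => rfl
  | succ n ih =>
    rw [pow_succ, pow_succ, Module.End.mul_apply, Module.End.mul_apply, ih, diff_apply]

/-- All the good elements. -/
theorem full_good [IsAlgClosed W.K] (hDX : HomEqNum W P.X)
    (hmid : transcendental W P.X ≤ W.gr P.X P.X.dim)
    (hG : IsGalois W χ P.X ρ)
    (hirr : StronglyIrreducible ρ (transcendental W P.X)) {g : Γ} (hχ : χ g = 1)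
    (hg : GoodAct P.X.dim (transcendental W P.X) ρ g) : FullG hG Z g := by
  have hmu : ∀ g a b, rform W P.X (transcendental W P.X) (rhoT hG g a) (rhoT hG g b) =
      mult χ P.X.dim g * rform W P.X (transcendental W P.X) a b := by
    intro g a b
    rw [mult_apply]
    exact bil_act hG g a b
  have hm1 : mult χ P.X.dim g = 1 := by rw [mult_apply, hχ, Units.val_one, one_pow]
  have hodd' : ∀ (S : Type) [Fintype S] [DecidableEq S] (σ : Γ →* (W.H Z →ₗ[W.K] W.H Z)),
      Odd P.X.dim → ∀ x y, rk (rform W P.X (transcendental W P.X)) y x +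
        rk (rform W P.X (transcendental W P.X)) x y ∈
          LL S (rform W P.X (transcendental W P.X)) (rhoT hG) σ →
      rk (rform W P.X (transcendental W P.X)) y x - (((-1 : ℤ) ^ P.X.dim : ℤ) : W.K) •
        rk (rform W P.X (transcendental W P.X)) x y ∈
          LL S (rform W P.X (transcendental W P.X)) (rhoT hG) σ := by
    intro S _ _ σ hodd x y h
    have e : rk (rform W P.X (transcendental W P.X)) y x - (((-1 : ℤ) ^ P.X.dim : ℤ) : W.K) •
        rk (rform W P.X (transcendental W P.X)) x y =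
        rk (rform W P.X (transcendental W P.X)) y x +
          rk (rform W P.X (transcendental W P.X)) x y := by
      apply LinearMap.ext
      intro z
      rw [hodd.neg_one_pow, LinearMap.sub_apply, LinearMap.add_apply, LinearMap.smul_apply,
        Int.cast_neg, Int.cast_one]
      module
    rw [e]
    exact h
  have heven' : ∀ (S : Type) [Fintype S] [DecidableEq S] (σ : Γ →* (W.H Z →ₗ[W.K] W.H Z)),
      Even P.X.dim → ∀ x y, wg (rform W P.X (transcendental W P.X)) x y ∈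
          LL S (rform W P.X (transcendental W P.X)) (rhoT hG) σ →
      rk (rform W P.X (transcendental W P.X)) y x - (((-1 : ℤ) ^ P.X.dim : ℤ) : W.K) •
        rk (rform W P.X (transcendental W P.X)) x y ∈
          LL S (rform W P.X (transcendental W P.X)) (rhoT hG) σ := by
    intro S _ _ σ heven x y h
    rw [heven.neg_one_pow, Int.cast_one, one_smul]
    exact h
  rcases hg with ⟨hodd, hg | ⟨hg | hg, hF⟩⟩ | ⟨heven, hg | ⟨hg, h5, hF⟩⟩
  · intro S _ _ σ hσ x y
    exact hodd' S σ hodd x y (full_unip hDX hmid hG hodd hirr hχ hg S σ hσ x y)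
  · intro S _ _ σ hσ x y
    exact hodd' S σ hodd x y (full_small hDX hmid hG hodd hirr hχ hg hF S σ hσ x y)
  · intro S _ _ σ hσ x y
    refine hodd' S σ hodd x y ?_
    obtain ⟨⟨k, hk, hgk⟩, A, hA, hA', hdual, hpairs⟩ := hg
    obtain ⟨F, u, hu, v, hv, hu0, hv0, al, be, hFu, hFv, hab⟩ := hF
    rw [rk_eq_SS]
    refine iso_LL (χ := mult χ P.X.dim) (γ := g) (form_alt hmid hodd)
      (trans_nondeg hDX) hmu (SI_rhoT hG hirr) hσ hk (fin_order hG hgk) ?_ F
      (u := ⟨u, hu⟩) (v := ⟨v, hv⟩) (fun h => hu0 (congrArg Subtype.val h))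
      (fun h => hv0 (congrArg Subtype.val h)) (Subtype.ext hFu) (Subtype.ext hFv) hab x y
    unfold SplitsIsolated
    simp only [eigT_ne, finrank_eigT, hm1, one_mul]
    exact ⟨A, hA, hA', hdual, hpairs⟩
  · intro S _ _ σ hσ x y
    refine heven' S σ heven x y ?_
    obtain ⟨h3, ⟨t, ht, ht2⟩, hr⟩ := hg
    refine three_LL (χ := mult χ P.X.dim) (form_symm hmid heven) (trans_nondeg hDX) hmu
      (SI_rhoT hG hirr) hσ hm1 ?_ ?_ ?_ x y
    · apply LinearMap.ext
      intro x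
      apply Subtype.ext
      rw [diff_pow]
      exact h3 x x.2
    · intro h
      apply ht2
      have h4 := diff_pow hG g 2 ⟨t, ht⟩
      rw [h] at h4
      exact h4.symm
    · have h4 : (LinearMap.range (rhoT hG g - 1)).map (transcendental W P.X).subtype =
          (transcendental W P.X).map (diffAct ρ g) := by
        apply Submodule.ext
        intro z
        constructor
        · rintro ⟨_, ⟨x, rfl⟩, rfl⟩
          exact ⟨x, x.2, rfl⟩
        · rintro ⟨x, hx, rfl⟩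
          exact ⟨_, ⟨⟨x, hx⟩, rfl⟩, rfl⟩
      rw [← Submodule.finrank_map_subtype_eq, h4]
      exact hr
  · intro S _ _ σ hσ x y
    refine heven' S σ heven x y ?_
    obtain ⟨⟨k, hk, hgk⟩, a, α, β, ha, hαβ, hne, hα, hβ, hd⟩ := hg
    obtain ⟨F, u, hu, v, hv, hu0, hv0, al, be, hFu, hFv, hab⟩ := hF
    refine two_LL (χ := mult χ P.X.dim) (γ := g) (form_symm hmid heven) (trans_nondeg hDX) hmu
      (SI_rhoT hG hirr) h5 hσ hm1 hk (fin_order hG hgk) ha hαβ hne ?_ ?_ ?_ F
      (u := ⟨u, hu⟩) (v := ⟨v, hv⟩) (fun h => hu0 (congrArg Subtype.val h))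
      (fun h => hv0 (congrArg Subtype.val h)) (Subtype.ext hFu) (Subtype.ext hFv) hab x y
    · rw [eigT_ne]
      exact hα
    · rw [eigT_ne]
      exact hβ
    · rw [finrank_eigT]
      exact hd

theorem good_nonzero {n : ℕ} {g : Γ} {T : Submodule W.K (W.H P.X)}
    (hg : GoodAct n T ρ g) : ∃ t : W.H P.X, t ≠ 0 := by
  have hF : HyperbolicAct T ρ → ∃ t : W.H P.X, t ≠ 0 := by
    rintro ⟨F, x, hx, y, hy, hx0, -⟩
    exact ⟨x, hx0⟩
  rcases hg with ⟨-, ⟨⟨t, ht, ht0⟩, -, -⟩ | ⟨-, h⟩⟩ | ⟨-, ⟨-, ⟨t, ht, ht0⟩, -⟩ | ⟨-, -, h⟩⟩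
  · refine ⟨t, fun h => ht0 ?_⟩
    rw [h, map_zero]
  · exact hF h
  · refine ⟨t, fun h => ht0 ?_⟩
    rw [h, map_zero]
  · exact hF h

end

/-- **The Tate conjecture for towers.** -/
theorem tate_good [IsAlgClosed W.K] {ι : Type} {X : ι → GVar W Γ} {Z : GVar W Γ}
    (h : GoodFamily χ X Z) {S : Set ι} {Y : GVar W Γ} (hY : GTower X Z S Y) :
    TateConjecture χ Y ↔ TateConjecture χ Z := by
  induction hY with
  | base => exact Iff.rfl
  | @step S Y Y' i n hT hi hn hP ih =>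
    obtain ⟨g, hg, hχ, hZ, hj⟩ := h.good i
    rw [← ih]
    obtain ⟨υ, h1, h2⟩ := hP
    have hG := isGalois (h.galois i)
    have hfull : FullG (P := ⟨(X i).X, 0⟩) hG Y.X g :=
      full_good (P := ⟨(X i).X, 0⟩) (h.homEqNum i) (h.middle i) hG (h.irreducible i) hχ hg
    constructor
    · refine tate_conv (P := ⟨(X i).X, 0⟩) (h.homEqNum i) ?_ (isPowAct h1 h2)
      intro h3
      obtain ⟨t, ht⟩ := good_nonzero (P := ⟨(X i).X, 0⟩) hg
      apply ht
      rw [← one_mul t, h3, zero_mul]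
    · refine tate_stepG (P := ⟨(X i).X, 0⟩) (h.homEqNum i) (h.middle i) hG
        (isPowAct h1 h2) hn hχ ?_ hfull
      exact trivAct.1 (hT.trivAct (fun j hjS => hj j fun h' => hi (h' ▸ hjS)) hZ)

end Pool.Agent.TH118.OR
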