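import Mathlib
import Pool.Agent.TH118.OR.Clos
import Pool.Agent.TH118.SG.Unip

/-!
# The whole orthogonal Lie algebra, for elements acting trivially on the values
-/

set_option linter.unusedSectionVars false

namespace Pool.Agent.TH118.OR

open Module Finset Function Pool.Agent.TH125.Gal Pool.Agent.TH118.SG

variable {K : Type} [Field K] [CharZero K] [IsAlgClosed K] {T : Type} [AddCommGroup T]
  [Module K T] [FiniteDimensional K T] {E : Type} [AddCommGroup E] [Module K E]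
  [FiniteDimensional K E] {S : Type} [Fintype S] [DecidableEq S] {G : Type} [Group G]
  {B : T →ₗ[K] T →ₗ[K] K} {ρ : G →* (T →ₗ[K] T)} {σ : G →* (E →ₗ[K] E)} {χ : G →* K}

/-- unipotent elements of order three -/
theorem unip_mem3 {g : G} {Z : End K T} (hg : ∀ x, ρ g x = x + Z x)
    (hZ : ∀ x, Z (Z (Z x)) = 0) (hB : ∀ x y, B (ρ g x) (ρ g y) = B x y) (hσ : σ g = 1) :
    Z - (2 : K)⁻¹ • (Z * Z) ∈ LL S B ρ σ := by
  have h0 : ∀ x y, B (Z x) y + B x (Z y) + B (Z x) (Z y) = 0 := by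
    intro x y
    have h1 := hB x y
    rw [hg, hg] at h1
    simp only [map_add, LinearMap.add_apply] at h1
    linear_combination h1
  have h1 : ∀ x y, B (Z (Z x)) (Z y) = 0 := by
    intro x y
    have h1 := h0 (Z (Z x)) y
    rwa [hZ, map_zero, LinearMap.zero_apply, LinearMap.zero_apply, zero_add, add_zero] at h1
  have h2 : ∀ x y, B (Z x) (Z y) = -B (Z (Z x)) y := by
    intro x y
    have h3 := h0 (Z x) y
    rw [h1, add_zero] at h3
    exact eq_neg_of_add_eq_zero_right h3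
  have h3 : ∀ x y, B x (Z y) = -B (Z x) y + B (Z (Z x)) y := by
    intro x y
    have h4 := h0 x y
    rw [h2] at h4
    linear_combination h4
  have hskew : ∀ x y, B ((Z - (2 : K)⁻¹ • (Z * Z)) x) y + B x ((Z - (2 : K)⁻¹ • (Z * Z)) y) = 0 := by
    intro x y
    simp only [LinearMap.sub_apply, LinearMap.smul_apply, Module.End.mul_apply, map_sub, map_smul,
      smul_eq_mul]
    have h4 := h3 x y
    have h5 := h3 x (Z y)
    have h6 := h2 x y
    have h7 := h1 x y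
    linear_combination h4 - (2 : K)⁻¹ * h5 + (2 : K)⁻¹ * h6 - (2 : K)⁻¹ * h7
  refine ⟨hskew, fun h hh v => ?_⟩
  obtain ⟨Δ, hΔ, h1⟩ := hh
  obtain ⟨n, hn, hgn⟩ := exists_pow hΔ g
  have h2 : {x : K | h (fun j => v j + x • (Z (v j) - (2 : K)⁻¹ • Z (Z (v j))) +
      x ^ 2 • ((2 : K)⁻¹ • Z (Z (v j)))) =
    h (fun j => v j + x • (0 : T) + x ^ 2 • (0 : T))}.Infinite := by
    refine Set.infinite_of_injective_forall_mem (f := fun l : ℕ => ((n * l : ℕ) : K)) ?_ ?_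
    · intro l l' hl
      have h3 : ((n * l : ℕ) : K) = ((n * l' : ℕ) : K) := hl
      have h4 : n * l = n * l' := Nat.cast_injective h3
      exact Nat.eq_of_mul_eq_mul_left hn h4
    · intro l
      have h3 : g ^ (n * l) ∈ Δ := by
        rw [pow_mul]
        exact Subgroup.pow_mem _ hgn l
      have h4 := h1 _ h3 v
      rw [map_pow σ, hσ, one_pow] at h4
      change h _ = h _
      simp only [smul_zero, add_zero]
      have h5 : (fun j => ρ (g ^ (n * l)) (v j)) =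
          fun j => v j + ((n * l : ℕ) : K) • (Z (v j) - (2 : K)⁻¹ • Z (Z (v j))) +
            ((n * l : ℕ) : K) ^ 2 • ((2 : K)⁻¹ • Z (Z (v j))) := by
        funext j
        rw [pow_three hg hZ]
      rw [h5] at h4
      exact h4
  have h3 := deriv_eq h v (fun j => Z (v j) - (2 : K)⁻¹ • Z (Z (v j)))
    (fun j => (2 : K)⁻¹ • Z (Z (v j))) v (fun _ => 0) (fun _ => 0) h2
  have h4 : ∀ j, h (update v j (0 : T)) = 0 := fun j =>
    h.map_coord_zero j (update_self _ _ _)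
  rw [Finset.sum_congr rfl fun j _ => h4 j, Finset.sum_const_zero] at h3
  exact h3

/-- **The whole orthogonal Lie algebra, unipotent case.** -/
theorem three_LL (hsy : ∀ x y, B x y = B y x) (hnd : ∀ u, (∀ v, B u v = 0) → u = 0)
    (hB : ∀ g x y, B (ρ g x) (ρ g y) = χ g * B x y) (hSI : Pool.Agent.TH125.Gal.SI ρ)
    {γ : G} (hσ : σ γ = 1) (hχ : χ γ = 1) (hZ3 : (ρ γ - 1) ^ 3 = 0) (hZ2 : (ρ γ - 1) ^ 2 ≠ 0)
    (hrk : finrank K (LinearMap.range (ρ γ - 1)) ≤ 2) (x y : T) :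
    wg B x y ∈ LL S B ρ σ := by
  obtain ⟨Z, hZ⟩ : ∃ Z : End K T, Z = ρ γ - 1 := ⟨_, rfl⟩
  rw [← hZ] at hZ3 hZ2 hrk
  have hg : ∀ x, ρ γ x = x + Z x := by
    intro x
    rw [hZ, LinearMap.sub_apply, Module.End.one_apply]
    abel
  have h3 : ∀ x, Z (Z (Z x)) = 0 := by
    intro x
    have h1 := LinearMap.congr_fun hZ3 x
    rwa [pow_succ, pow_two, Module.End.mul_apply, Module.End.mul_apply, LinearMap.zero_apply] at h1
  obtain ⟨x0, hx0⟩ : ∃ x, Z (Z x) ≠ 0 := by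
    by_contra hcon
    push Not at hcon
    apply hZ2
    apply LinearMap.ext
    intro x
    rw [pow_two, Module.End.mul_apply, hcon, LinearMap.zero_apply]
  have hX := SI_conv ⟨_, hx0⟩ hSI
  have hL : Z - (2 : K)⁻¹ • (Z * Z) ∈ LL S B ρ σ :=
    unip_mem3 hg h3 (fun x y => by rw [hB, hχ, one_mul]) hσ
  set N : End K T := Z - (2 : K)⁻¹ • (Z * Z) with hN
  have hNa : ∀ x, N x = Z x - (2 : K)⁻¹ • Z (Z x) := fun _ => rfl
  have hNN : ∀ x, N (N x) = Z (Z x) := by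
    intro x
    rw [hNa, hNa]
    simp only [map_sub, map_smul, h3, smul_zero, sub_zero]
  have hconj : ∀ g : G, ∀ Y ∈ LL S B ρ σ, ρ g * Y * ρ g⁻¹ ∈ LL S B ρ σ := by
    intro g Y hY
    have h1 := LL_conj (μ := χ) hB hY g
    exact h1
  have hbr : ∀ Y ∈ LL S B ρ σ, ∀ Z ∈ LL S B ρ σ, Y * Z - Z * Y ∈ LL S B ρ σ :=
    fun Y hY Z hZ => LL_bracket hY hZ
  have hsp : ∀ Y ∈ LL S B ρ σ, ∀ u w, B (Y u) w + B u (Y w) = 0 := fun Y hY u w => hY.1 u w
  refine nilp_full (R := ρ) (χ := χ) hbr hsp hsy hnd hB hconj hX hL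
    (fun x => ?_) ⟨x0, ?_⟩ ?_ x y
  · rw [hNN, hNa]
    simp only [map_sub, map_smul, h3, smul_zero, sub_zero]
  · rw [hNN]
    exact hx0
  · refine le_trans (Submodule.finrank_mono ?_) hrk
    rintro _ ⟨x, rfl⟩
    refine ⟨x - (2 : K)⁻¹ • Z x, ?_⟩
    rw [map_sub, map_smul]
    rfl

/-- **The whole orthogonal Lie algebra, two simple eigenvalues.** -/
theorem two_LL (hsy : ∀ x y, B x y = B y x) (hnd : ∀ u, (∀ v, B u v = 0) → u = 0)
    (hB : ∀ g x y, B (ρ g x) (ρ g y) = χ g * B x y) (hSI : Pool.Agent.TH125.Gal.SI ρ)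
    (h5 : 5 ≤ finrank K T) {γ : G} (hσ : σ γ = 1) (hχ : χ γ = 1) {k : ℕ} (hk : 0 < k)
    (hγ : ρ γ ^ k = 1) {a α β : K} (ha : a * a = 1) (hαβ : α * β = 1) (hne : α ≠ β)
    (hα : Module.End.eigenspace (ρ γ) α ≠ ⊥) (hβ : Module.End.eigenspace (ρ γ) β ≠ ⊥)
    (hd : finrank K (Module.End.eigenspace (ρ γ) a) + 2 = finrank K T)
    (F : G) {u v : T} (hu0 : u ≠ 0) (hv0 : v ≠ 0) {al be : K}
    (hu : ρ F u = al • u) (hv : ρ F v = be • v) (hab : ∀ k : ℕ, 0 < k → al ^ k ≠ be ^ k)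
    (x y : T) : wg B x y ∈ LL S B ρ σ := by
  have hX := SI_conv ⟨u, hu0⟩ hSI
  obtain ⟨e, f, Tw⟩ := exists_two (T := T) (ρ := ρ) (χ := χ) hnd hB (by rw [hχ]; exact ha)
    (by rw [hχ]; exact hαβ) hne hα hβ hd
  have he0 : e ≠ 0 := by
    rintro rfl
    exact Tw.hef (by rw [map_zero, LinearMap.zero_apply])
  have hα1 : finrank K (Pool.Agent.TH118.IS.eig (X := T) ρ γ ⊤ α) = 1 := by
    have h2 : Pool.Agent.TH118.IS.eig (X := T) ρ γ (⊤ : Submodule K T) α =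
        Submodule.span K {e} := by
      ext u
      rw [Pool.Agent.TH118.IS.mem_eig, Submodule.mem_span_singleton]
      constructor
      · rintro ⟨-, hu⟩
        obtain ⟨c, hc⟩ := Tw.eig_e hnd hB hu
        exact ⟨c, hc.symm⟩
      · rintro ⟨c, rfl⟩
        exact ⟨Submodule.mem_top, by rw [map_smul, Tw.he, smul_comm]⟩
    rw [h2, finrank_span_singleton he0]
  obtain ⟨Y, hY, hYn⟩ := exists_PP (S := S) (σ := σ) (μ := χ) hB F hu0 hv0 hu hv hab
  obtain ⟨ν, hν, hνb⟩ := exists_Lnu (R := ρ) (L := LP S B ρ σ) (γ := γ)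
    (fun g Y hY => LP_conj (μ := χ) hB g Y hY) hk hγ hX ⟨Y, hY, hYn⟩ hα1
  obtain ⟨N, hN, hN0⟩ := Submodule.exists_mem_ne_zero_of_ne_bot hνb
  have hNL : N ∈ LL S B ρ σ := LL_of_Lnu (μ := χ) hB hσ hν hN
  have hconj : ∀ g : G, ∀ Y ∈ LL S B ρ σ, ρ g * Y * ρ g⁻¹ ∈ LL S B ρ σ := by
    intro g Y hY
    have h1 := LL_conj (μ := χ) hB hY g
    exact h1
  have hbr : ∀ Y ∈ LL S B ρ σ, ∀ Z ∈ LL S B ρ σ, Y * Z - Z * Y ∈ LL S B ρ σ :=
    fun Y hY Z hZ => LL_bracket hY hZ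
  have hsp : ∀ Y ∈ LL S B ρ σ, ∀ u w, B (Y u) w + B u (Y w) = 0 := fun Y hY u w => hY.1 u w
  have hns : ∃ Y ∈ LL S B ρ σ, ¬∃ c : K, ∀ u : T, Y u = c • u := by
    refine ⟨N, hNL, ?_⟩
    rintro ⟨c, hc⟩
    apply hN0
    have hc0 : c = 0 := by
      have h2 : ∃ y, B u y ≠ 0 := by
        by_contra hcon
        push Not at hcon
        exact hu0 (hnd u hcon)
      obtain ⟨y, hy⟩ := h2
      have h3 := hNL.1 u y
      rw [hc, hc, map_smul, map_smul, LinearMap.smul_apply, smul_eq_mul] at h3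
      have h4 : (2 * c) * B u y = 0 := by linear_combination h3
      exact (mul_eq_zero.1 ((mul_eq_zero.1 h4).resolve_right hy)).resolve_left two_ne_zero
    apply LinearMap.ext
    intro z
    rw [hc, hc0, zero_smul, LinearMap.zero_apply]
  refine Tw.full (L := LL S B ρ σ) hbr hsp hsy hnd hB hconj hk hγ hX hns ?_ x y
  have h6 : Pool.Agent.TH118.IS.eig (X := T) ρ γ (⊤ : Submodule K T) a =
      Module.End.eigenspace (ρ γ) a := top_inf_eq _
  rw [h6]
  omega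

end Pool.Agent.TH118.OR
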